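import Pool.Agent.H43.PV.Defs

/-!
# Module PV-6: the coefficient functions; the cube trick

* `coef_smul`: replace `φ` by `c • φ`.
* `coef_add`: in `M × N` take `g i = (g_1 i, g_2 i)` (`LinearMap.prodMap`), `μ = (μ_1, μ_2)`,
  `φ (x, y) = φ_1 x + φ_2 y`; then `wd g l (μ_1, μ_2) = (wd g_1 l μ_1, wd g_2 l μ_2)` for all `l`.
  For `Θ` take the submonoid of all `θ` with `θ x = (γ x.1, δ x.2)` for some `γ ∈ Γ`, `δ ∈ Δ`.
* `coef_relabel`: take `g' i = g (τ i)`; `wd g' l = wd g (l.map τ)` (`wd_map`),
  `(List.ofFn σ).map τ = List.ofFn (τ * σ)` (`List.map_ofFn`); if `l` is not of the form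
  `List.ofFn σ` then `l.map τ` is not of this form.
* `coef_of_full` (cube trick).  Let `X = Finset (Fin n)` and let `y ∈ X` stand for the set of
  inactive letters.  In `X → M` let `g' i m y = if i ∈ y then m y else g i (m y)`, `μ'` the constant
  function `μ`, and `φ' m = ∑ y, (-1) ^ y.card * φ (m y)`.  By induction on `l`,
  `wd g' l μ' y = if ∀ i ∈ l, i ∉ y then wd g l μ else 0`.  Hence
  `φ' (wd g' l μ') = φ (wd g l μ) * ∑ y ⊆ (letters of l)ᶜ, (-1) ^ y.card`, which is
  `φ (wd g l μ)` if every letter occurs in `l` and `0` otherwise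
  (`Finset.sum_powerset_neg_one_pow_card`).  So permutation words get the right value.  If `l` is
  not a permutation word, then either some letter does not occur: value `0`; or all letters occur
  and `l.length > n`: value `0` by the hypothesis `h`; (`l.length < n` is impossible, and if all
  letters occur and `l.length = n` then `l = List.ofFn σ` for the permutation `σ i = l[i]`).
  `S (X → M) Θ` by `IsClass.pow`, with `Θ` the submonoid of all `θ` with
  `θ m y = γ y (m y)`, `γ y ∈ Γ`.
-/

set_option autoImplicit false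

namespace H43.PV

variable {K : Type} [Field K] {S : PairClass K} {n : ℕ}

theorem coef_smul {a : Equiv.Perm (Fin n) → K} (c : K) (ha : Coef S n a) :
    Coef S n (c • a) := by
  obtain ⟨M, i1, i2, Γ, g, μ, φ, hS, hg, h1, h2⟩ := ha
  refine ⟨M, i1, i2, Γ, g, μ, c • φ, hS, hg, fun σ => ?_, fun l hl => ?_⟩
  · rw [LinearMap.smul_apply, h1]
    rfl
  · rw [LinearMap.smul_apply, h2 l hl, smul_zero]

theorem cs_wd_prod {M N : Type} [AddCommGroup M] [Module K M] [AddCommGroup N] [Module K N]
    (g : Fin n → Module.End K M) (g' : Fin n → Module.End K N) (l : List (Fin n)) (x : M)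
    (y : N) : wd (fun i => (g i).prodMap (g' i)) l (x, y) = (wd g l x, wd g' l y) := by
  induction l with
  | nil => simp
  | cons i l ih =>
    rw [wd_cons_apply, ih, wd_cons_apply, wd_cons_apply]
    rfl

theorem coef_add (hS : IsClass S) {a b : Equiv.Perm (Fin n) → K} (ha : Coef S n a)
    (hb : Coef S n b) : Coef S n (a + b) := by
  obtain ⟨M, i1, i2, Γ, g, μ, φ, hM, hg, h1, h2⟩ := ha
  obtain ⟨N, j1, j2, Δ, g', μ', φ', hN, hg', h1', h2'⟩ := hb
  let Θ : Submonoid (Module.End K (M × N)) :=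
    { carrier := {θ | ∃ γ ∈ Γ, ∃ δ ∈ Δ, ∀ x : M × N, θ x = (γ x.1, δ x.2)}
      one_mem' := ⟨1, Γ.one_mem, 1, Δ.one_mem, fun x => rfl⟩
      mul_mem' := by
        rintro e e' ⟨γ, hγ, δ, hδ, he⟩ ⟨γ', hγ', δ', hδ', he'⟩
        refine ⟨γ * γ', Γ.mul_mem hγ hγ', δ * δ', Δ.mul_mem hδ hδ', fun x => ?_⟩
        rw [Module.End.mul_apply, he', he]
        rfl }
  refine ⟨M × N, inferInstance, inferInstance, Θ, fun i => (g i).prodMap (g' i), (μ, μ'),
    φ.coprod φ', hS.prod M N Γ Δ Θ hM hN fun θ h => h, ?_, fun σ => ?_, fun l hl => ?_⟩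
  · intro i
    exact ⟨g i, hg i, g' i, hg' i, fun x => rfl⟩
  · rw [cs_wd_prod, LinearMap.coprod_apply, h1, h1']
    rfl
  · rw [cs_wd_prod, LinearMap.coprod_apply, h2 l hl, h2' l hl, add_zero]

theorem cs_map_ofFn (τ σ : Equiv.Perm (Fin n)) :
    (List.ofFn σ).map τ = List.ofFn (τ * σ : Equiv.Perm (Fin n)) := by
  rw [List.map_ofFn]
  rfl

theorem coef_relabel {a : Equiv.Perm (Fin n) → K} (ha : Coef S n a)
    (τ : Equiv.Perm (Fin n)) : Coef S n (fun σ => a (τ * σ)) := by
  obtain ⟨M, i1, i2, Γ, g, μ, φ, hM, hg, h1, h2⟩ := ha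
  refine ⟨M, i1, i2, Γ, g ∘ τ, μ, φ, hM, fun i => hg (τ i), fun σ => ?_, fun l hl => ?_⟩
  · rw [← wd_map, cs_map_ofFn, h1]
  · rw [← wd_map]
    refine h2 _ fun σ hσ => hl (τ⁻¹ * σ) ?_
    rw [← cs_map_ofFn, ← hσ, List.map_map]
    have : ((τ⁻¹ : Equiv.Perm (Fin n)) : Fin n → Fin n) ∘ τ = id := by
      funext x
      simp
    rw [this, List.map_id]

section cube

variable {M : Type} [AddCommGroup M] [Module K M]

open Classical in
/-- the letters of the cube trick -/
noncomputable def cubeG (g : Fin n → Module.End K M) (i : Fin n) :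
    Module.End K (Finset (Fin n) → M) :=
  LinearMap.pi fun y => (if i ∈ y then (1 : Module.End K M) else g i) ∘ₗ LinearMap.proj y

open Classical in
theorem cubeG_apply (g : Fin n → Module.End K M) (i : Fin n) (m : Finset (Fin n) → M)
    (y : Finset (Fin n)) :
    cubeG g i m y = (if i ∈ y then (1 : Module.End K M) else g i) (m y) := rfl

open Classical in
theorem wd_cubeG (g : Fin n → Module.End K M) (l : List (Fin n)) (μ : M)
    (y : Finset (Fin n)) :
    wd (cubeG g) l (fun _ => μ) y = if ∀ i ∈ l, i ∉ y then wd g l μ else 0 := by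
  induction l with
  | nil => simp
  | cons i l ih =>
    rw [wd_cons_apply, Pi.sub_apply, cubeG_apply, ih]
    by_cases hi : i ∈ y
    · rw [if_pos hi, if_neg (fun h : ∀ j ∈ i :: l, j ∉ y => h i List.mem_cons_self hi)]
      simp
    · rw [if_neg hi]
      by_cases hl : ∀ j ∈ l, j ∉ y
      · have h2 : ∀ j ∈ i :: l, j ∉ y := by
          intro j hj
          rcases List.mem_cons.1 hj with h | h
          · rw [h]; exact hi
          · exact hl j h
        rw [if_pos hl, if_pos h2, wd_cons_apply]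
      · have h2 : ¬ ∀ j ∈ i :: l, j ∉ y := fun h =>
          hl fun j hj => h j (List.mem_cons_of_mem i hj)
        rw [if_neg hl, if_neg h2, map_zero, sub_zero]

/-- the functional of the cube trick -/
noncomputable def cubeF (φ : M →ₗ[K] K) : (Finset (Fin n) → M) →ₗ[K] K :=
  ∑ y : Finset (Fin n), ((-1 : K) ^ y.card) • (φ ∘ₗ LinearMap.proj y)

theorem cubeF_apply (φ : M →ₗ[K] K) (m : Finset (Fin n) → M) :
    cubeF φ m = ∑ y : Finset (Fin n), (-1 : K) ^ y.card * φ (m y) := by
  unfold cubeF
  rw [LinearMap.sum_apply]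
  rfl

open Classical in
theorem cube_value (g : Fin n → Module.End K M) (l : List (Fin n)) (μ : M) (φ : M →ₗ[K] K) :
    cubeF φ (wd (cubeG g) l (fun _ => μ)) = if ∀ i, i ∈ l then φ (wd g l μ) else 0 := by
  rw [cubeF_apply]
  have h1 : ∀ y : Finset (Fin n), (-1 : K) ^ y.card * φ (wd (cubeG g) l (fun _ => μ) y)
      = if y ∈ (Finset.univ.filter fun i => i ∉ l).powerset then
          (-1 : K) ^ y.card * φ (wd g l μ) else 0 := by
    intro y
    rw [wd_cubeG]
    have hiff : (∀ i ∈ l, i ∉ y) ↔ y ∈ (Finset.univ.filter fun i => i ∉ l).powerset := by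
      rw [Finset.mem_powerset]
      constructor
      · intro h i hi
        rw [Finset.mem_filter]
        exact ⟨Finset.mem_univ _, fun hl => h i hl hi⟩
      · intro h i hl hi
        exact (Finset.mem_filter.1 (h hi)).2 hl
    by_cases hc : ∀ i ∈ l, i ∉ y
    · rw [if_pos hc, if_pos (hiff.1 hc)]
    · rw [if_neg hc, if_neg (fun h => hc (hiff.2 h)), map_zero, mul_zero]
  rw [Finset.sum_congr rfl fun y _ => h1 y, ← Finset.sum_filter, Finset.filter_mem_eq_inter,
    Finset.univ_inter, ← Finset.sum_mul]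
  have h2 := congrArg (Int.cast : ℤ → K)
    (Finset.sum_powerset_neg_one_pow_card (x := Finset.univ.filter fun i : Fin n => i ∉ l))
  push_cast at h2
  rw [h2]
  by_cases hall : ∀ i, i ∈ l
  · rw [if_pos hall, if_pos, one_mul]
    rw [Finset.filter_eq_empty_iff]
    intro i _ hi
    exact hi (hall i)
  · rw [if_neg hall, if_neg, zero_mul]
    intro h
    rw [Finset.filter_eq_empty_iff] at h
    apply hall
    intro i
    by_contra hi
    exact h (Finset.mem_univ i) hi

end cube

/-- a word of length `n` containing all letters is a permutation word -/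
theorem cs_perm_of_full {l : List (Fin n)} (hall : ∀ i, i ∈ l) (hlen : ¬ n < l.length) :
    ∃ σ : Equiv.Perm (Fin n), l = List.ofFn σ := by
  have h1 : n ≤ l.length := by
    have h2 : (Finset.univ : Finset (Fin n)) ⊆ l.toFinset := fun i _ => List.mem_toFinset.2 (hall i)
    have h3 := Finset.card_le_card h2
    rw [Finset.card_univ, Fintype.card_fin] at h3
    exact h3.trans l.toFinset_card_le
  have hlen' : l.length = n := by omega
  have hf : l = List.ofFn (fun i : Fin n => l.get (Fin.cast hlen'.symm i)) := by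
    rw [← List.ofFn_congr hlen' l.get, List.ofFn_get]
  have hsurj : Function.Surjective (fun i : Fin n => l.get (Fin.cast hlen'.symm i)) := by
    intro i
    have h2 := hall i
    rw [hf, List.mem_ofFn] at h2
    exact h2
  refine ⟨Equiv.ofBijective _ ⟨Finite.injective_iff_surjective.2 hsurj, hsurj⟩, ?_⟩
  exact hf

/-- the cube trick -/
theorem coef_of_full (hS : IsClass S) {M : Type} [AddCommGroup M] [Module K M]
    {Γ : Submonoid (Module.End K M)} (hM : S M Γ) (g : Fin n → Module.End K M)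
    (hg : ∀ i, g i ∈ Γ) (μ : M) (φ : M →ₗ[K] K)
    (h : ∀ l : List (Fin n), n < l.length → (∀ i, i ∈ l) → φ (wd g l μ) = 0) :
    Coef S n (fun σ => φ (wd g (List.ofFn σ) μ)) := by
  classical
  let Θ : Submonoid (Module.End K (Finset (Fin n) → M)) :=
    { carrier := {θ | ∃ γ : Finset (Fin n) → Module.End K M, (∀ x, γ x ∈ Γ) ∧
        ∀ (m : Finset (Fin n) → M) (x : Finset (Fin n)), θ m x = γ x (m x)}
      one_mem' := ⟨fun _ => 1, fun _ => Γ.one_mem, fun m x => rfl⟩
      mul_mem' := by
        rintro e e' ⟨γ, hγ, he⟩ ⟨γ', hγ', he'⟩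
        refine ⟨fun x => γ x * γ' x, fun x => Γ.mul_mem (hγ x) (hγ' x), fun m x => ?_⟩
        rw [Module.End.mul_apply, he, he']
        rfl }
  refine ⟨Finset (Fin n) → M, inferInstance, inferInstance, Θ, cubeG g, fun _ => μ, cubeF φ,
    hS.pow M (Finset (Fin n)) Γ Θ hM fun θ h => h, ?_, fun σ => ?_, fun l hl => ?_⟩
  · intro i
    refine ⟨fun y => if i ∈ y then (1 : Module.End K M) else g i, fun y => ?_, fun m y => ?_⟩
    · dsimp only
      split_ifs
      · exact Γ.one_mem
      · exact hg i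
    · exact cubeG_apply g i m y
  · rw [cube_value, if_pos]
    intro i
    rw [List.mem_ofFn]
    exact ⟨σ⁻¹ i, by simp⟩
  · rw [cube_value]
    split_ifs with hall
    · by_cases hlen : n < l.length
      · exact h l hlen hall
      · obtain ⟨σ, hσ⟩ := cs_perm_of_full hall hlen
        exact absurd hσ (hl σ)
    · rfl

end H43.PV
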