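import Pool.Agent.H43.PV.Defs

/-!
# Module PV-4: the sections of the groups in `P` form a class of good pairs

## `pp_isClass`
* `div`: let `(T, A, α)` be given for `(M, Γ)` (see `IsSec`), and `i : B → M`, `π : B → N`.  Put
  `A' = {a ∈ A | ∃ b, i b = α a}`, a subgroup, and `α' : A' → N`, `α' a = π b` if `i b = α a`
  (well defined by the hypothesis `i b = 0 → π b = 0`; `π`, `i` are additive); surjective as `π` and
  `α` are.  If `γ' ∈ Γ'` is lifted by `γ ∈ Γ`, let `t` belong to `γ`.  For `a ∈ A'`, `i b = α a`,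
  take `b'` with `i b' = γ (i b)`, `π b' = γ' (π b)`; then `a' = t a t⁻¹ ∈ A`,
  `α a' = γ (α a) = i b'`, so `a' ∈ A'` and `α' a' = π b' = γ' (α' a)`.
* `prod`: `T × T'`, `A.prod A'`, `α × α'`.
* `pow`: `X → T`, `Subgroup.pi Set.univ (fun _ => A)`, `α` in every coordinate.  (`FinVar.pow`.)

## `pp_good`
* `M` is finite: `T` is finite (`FinVar.fin`) and `α` is surjective.
* `γ ^ q = 1`: if `t` belongs to `γ` then by induction `t ^ j a t ^ (-j) ∈ A` has image `γ ^ j (α a)`;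
  `t ^ q = 1` and `α` is surjective.
* nilpotency: `T` is a finite `p`-group, so nilpotent (`IsPGroup.isNilpotent`, needs
  `Fact p.Prime`), say `(⊤ : Subgroup T).lowerCentralSeries L = ⊥`.  For a list `l` of elements of
  `Γ` and `a ∈ A` there is `a_l ∈ A` which lies in the `l.length`-th term of the lower central series
  with `α a_l = wd id l (α a)`: induction on `l`; `wd id (γ :: l) m = γ (wd id l m) - wd id l m`, take
  `a_(γ :: l) = (t a_l t⁻¹) a_l⁻¹`, the commutator of `t` and `a_l`.  For `l.length = L` it is `1`.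
* `pp_base`: nothing to do for the trivial group: the pair `(Unit → K?)` is not needed.
-/

set_option autoImplicit false

namespace H43.PV

variable {K : Type} [Field K] {p q : ℕ} {P : (G : Type) → [Group G] → Prop}

open Multiplicative commutatorElement

theorem pp_div {M N B : Type} [AddCommGroup M] [Module K M] [AddCommGroup N] [Module K N]
    [AddCommGroup B] [Module K B] (Γ : Submonoid (Module.End K M))
    (Γ' : Submonoid (Module.End K N)) (i : B →ₗ[K] M) (π : B →ₗ[K] N) (hM : PP P M Γ)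
    (hi : ∀ b, i b = 0 → π b = 0) (hπ : Function.Surjective π)
    (hl : ∀ γ' ∈ Γ', ∃ γ ∈ Γ, Lift i π γ γ') : PP P N Γ' := by
  classical
  obtain ⟨T, _, hT, A, α, hα, hΓ⟩ := hM
  refine ⟨T, inferInstance, hT, ?_⟩
  have huniq : ∀ b b', i b = i b' → π b = π b' := by
    intro b b' h
    have h1 := hi (b - b') (by rw [map_sub, h, sub_self])
    rwa [map_sub, sub_eq_zero] at h1
  let A' : Subgroup T :=
    { carrier := {a | ∃ (h : a ∈ A) (b : B), i b = (α ⟨a, h⟩).toAdd}
      one_mem' := ⟨A.one_mem, 0, by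
        rw [map_zero]
        exact (congrArg toAdd (map_one α)).symm⟩
      mul_mem' := by
        rintro a a' ⟨h, b, hb⟩ ⟨h', b', hb'⟩
        refine ⟨A.mul_mem h h', b + b', ?_⟩
        rw [map_add, hb, hb', ← toAdd_mul, ← map_mul]
        rfl
      inv_mem' := by
        rintro a ⟨h, b, hb⟩
        refine ⟨A.inv_mem h, -b, ?_⟩
        rw [map_neg, hb, ← toAdd_inv, ← map_inv]
        rfl }
  choose hA b hb using fun a : A' => a.2
  let α' : A' →* Multiplicative N :=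
    { toFun := fun a => ofAdd (π (b a))
      map_one' := by
        have h1 : π (b 1) = 0 := by
          rw [← map_zero π]
          apply huniq
          rw [hb, map_zero]
          exact congrArg toAdd (map_one α)
        rw [h1]
        rfl
      map_mul' := by
        intro x y
        have h1 : π (b (x * y)) = π (b x) + π (b y) := by
          rw [← map_add]
          apply huniq
          rw [hb, map_add, hb, hb, ← toAdd_mul, ← map_mul]
          rfl
        rw [h1]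
        rfl }
  refine ⟨A', α', ?_, ?_⟩
  · intro n
    obtain ⟨b0, hb0⟩ := hπ n.toAdd
    obtain ⟨a, ha⟩ := hα (ofAdd (i b0))
    have ha' : (a : T) ∈ A' := ⟨a.2, b0, by
      have : (⟨(a : T), a.2⟩ : A) = a := rfl
      rw [this, ha]
      rfl⟩
    refine ⟨⟨a, ha'⟩, ?_⟩
    change ofAdd (π (b ⟨a, ha'⟩)) = n
    have h1 : π (b ⟨a, ha'⟩) = π b0 := by
      apply huniq
      rw [hb]
      change (α a).toAdd = _
      rw [ha]
      rfl
    rw [h1, hb0]
    rfl
  · intro γ' hγ'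
    obtain ⟨γ, hγ, hlift⟩ := hl γ' hγ'
    obtain ⟨t, ht⟩ := hΓ γ hγ
    refine ⟨t, fun a => ?_⟩
    obtain ⟨a', ha1, ha2⟩ := ht ⟨a, hA a⟩
    obtain ⟨b', hb1, hb2⟩ := hlift (b a)
    have ha' : (a' : T) ∈ A' := ⟨a'.2, b', by
      rw [hb1, hb]
      exact ha2.symm⟩
    refine ⟨⟨a', ha'⟩, ha1, ?_⟩
    change π (b ⟨a', ha'⟩) = γ' (π (b a))
    rw [← hb2]
    apply huniq
    rw [hb, hb1, hb]
    exact ha2

theorem pp_prod (hP : Cls p q P) {M N : Type} [AddCommGroup M] [Module K M] [AddCommGroup N]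
    [Module K N] (Γ : Submonoid (Module.End K M)) (Δ : Submonoid (Module.End K N))
    (Θ : Submonoid (Module.End K (M × N))) (hM : PP P M Γ) (hN : PP P N Δ)
    (hΘ : ∀ θ ∈ Θ, ∃ γ ∈ Γ, ∃ δ ∈ Δ, ∀ x : M × N, θ x = (γ x.1, δ x.2)) :
    PP P (M × N) Θ := by
  obtain ⟨T, _, hT, A, α, hα, hΓ⟩ := hM
  obtain ⟨T', _, hT', A', α', hα', hΓ'⟩ := hN
  refine ⟨T × T', inferInstance, hP.prod _ _ hT hT', A.prod A', ?_⟩
  let β : A.prod A' →* Multiplicative (M × N) :=
    { toFun := fun a => ofAdd ((α ⟨a.1.1, (Subgroup.mem_prod.1 a.2).1⟩).toAdd,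
        (α' ⟨a.1.2, (Subgroup.mem_prod.1 a.2).2⟩).toAdd)
      map_one' := by
        have h1 : (α 1).toAdd = 0 := congrArg toAdd (map_one α)
        have h2 : (α' 1).toAdd = 0 := congrArg toAdd (map_one α')
        change ofAdd ((α 1).toAdd, (α' 1).toAdd) = 1
        rw [h1, h2]
        rfl
      map_mul' := by
        intro a b
        have h1 : (α (⟨a.1.1, (Subgroup.mem_prod.1 a.2).1⟩ * ⟨b.1.1,
          (Subgroup.mem_prod.1 b.2).1⟩)).toAdd = _ := congrArg toAdd (map_mul α _ _)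
        have h2 : (α' (⟨a.1.2, (Subgroup.mem_prod.1 a.2).2⟩ * ⟨b.1.2,
          (Subgroup.mem_prod.1 b.2).2⟩)).toAdd = _ := congrArg toAdd (map_mul α' _ _)
        exact congrArg ofAdd (Prod.ext h1 h2) }
  refine ⟨β, ?_, ?_⟩
  · intro x
    obtain ⟨a, ha⟩ := hα (ofAdd x.toAdd.1)
    obtain ⟨a', ha'⟩ := hα' (ofAdd x.toAdd.2)
    refine ⟨⟨(a, a'), Subgroup.mem_prod.2 ⟨a.2, a'.2⟩⟩, ?_⟩
    change ofAdd ((α a).toAdd, (α' a').toAdd) = x
    rw [ha, ha']
    rfl
  · intro θ hθ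
    obtain ⟨γ, hγ, δ, hδ, h⟩ := hΘ θ hθ
    obtain ⟨t, ht⟩ := hΓ γ hγ
    obtain ⟨t', ht'⟩ := hΓ' δ hδ
    refine ⟨(t, t'), fun a => ?_⟩
    obtain ⟨b, hb1, hb2⟩ := ht ⟨a.1.1, (Subgroup.mem_prod.1 a.2).1⟩
    obtain ⟨b', hb1', hb2'⟩ := ht' ⟨a.1.2, (Subgroup.mem_prod.1 a.2).2⟩
    refine ⟨⟨(b, b'), Subgroup.mem_prod.2 ⟨b.2, b'.2⟩⟩, Prod.ext hb1 hb1', ?_⟩
    rw [h]
    exact Prod.ext hb2 hb2'

theorem pp_pow (hP : Cls p q P) {M X : Type} [AddCommGroup M] [Module K M] [Finite X]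
    (Γ : Submonoid (Module.End K M)) (Θ : Submonoid (Module.End K (X → M))) (hM : PP P M Γ)
    (hΘ : ∀ θ ∈ Θ, ∃ γ : X → Module.End K M, (∀ x, γ x ∈ Γ) ∧ ∀ (m : X → M) (x : X),
      θ m x = γ x (m x)) : PP P (X → M) Θ := by
  classical
  obtain ⟨T, _, hT, A, α, hα, hΓ⟩ := hM
  refine ⟨X → T, inferInstance, hP.pow T hT X, Subgroup.pi Set.univ (fun _ => A), ?_⟩
  have hm : ∀ (a : Subgroup.pi Set.univ (fun _ : X => A)) (x : X), a.1 x ∈ A := fun a x =>
    (Subgroup.mem_pi _).1 a.2 x (Set.mem_univ x)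
  let β : Subgroup.pi Set.univ (fun _ : X => A) →* Multiplicative (X → M) :=
    { toFun := fun a => ofAdd (fun x => (α ⟨a.1 x, hm a x⟩).toAdd)
      map_one' := by
        have h1 : (α 1).toAdd = 0 := congrArg toAdd (map_one α)
        change ofAdd (fun _ : X => (α 1).toAdd) = 1
        rw [h1]
        rfl
      map_mul' := by
        intro a b
        refine congrArg ofAdd (funext fun x => ?_)
        exact congrArg toAdd (map_mul α ⟨a.1 x, hm a x⟩ ⟨b.1 x, hm b x⟩) }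
  refine ⟨β, ?_, ?_⟩
  · intro f
    choose a ha using fun x => hα (ofAdd (f.toAdd x))
    refine ⟨⟨fun x => a x, (Subgroup.mem_pi _).2 fun x _ => (a x).2⟩, ?_⟩
    change ofAdd (fun x => (α (a x)).toAdd) = f
    simp only [ha]
    rfl
  · intro θ hθ
    obtain ⟨γ, hγ, h⟩ := hΘ θ hθ
    choose t ht using fun x => hΓ (γ x) (hγ x)
    refine ⟨t, fun a => ?_⟩
    choose b hb1 hb2 using fun x => ht x ⟨a.1 x, hm a x⟩
    refine ⟨⟨fun x => b x, (Subgroup.mem_pi _).2 fun x _ => (b x).2⟩, funext hb1, ?_⟩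
    funext x
    rw [h]
    exact hb2 x

theorem pp_isClass (hP : Cls p q P) : IsClass (PP (K := K) P) :=
  ⟨fun _ _ _ _ _ _ _ _ _ Γ Γ' i π hM hi hπ hl => pp_div Γ Γ' i π hM hi hπ hl,
    fun _ _ _ _ _ _ Γ Δ Θ hM hN hΘ => pp_prod hP Γ Δ Θ hM hN hΘ,
    fun _ _ _ _ _ _ Γ Θ hM hΘ => pp_pow hP Γ Θ hM hΘ⟩

theorem pp_good (hp : p.Prime) (hP : Cls p q P) :
    Sub (PP (K := K) P) (fun M _ _ Γ => Good q M Γ) := by
  intro M _ _ Γ hM
  obtain ⟨T, _, hT, A, α, hα, hΓ⟩ := hM
  have hfac : Fact p.Prime := ⟨hp⟩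
  have hfin : Finite T := hP.fin T hT
  refine ⟨?_, ?_, ?_⟩
  · have h1 : Finite (Multiplicative M) := Finite.of_surjective α hα
    exact Finite.of_injective (ofAdd (α := M)) (fun _ _ h => h)
  · intro γ hγ
    obtain ⟨t, ht⟩ := hΓ γ hγ
    have h1 : ∀ (j : ℕ) (a : A), ∃ a' : A, (a' : T) = t ^ j * a * (t ^ j)⁻¹ ∧
        (α a').toAdd = (γ ^ j) (α a).toAdd := by
      intro j
      induction j with
      | zero => exact fun a => ⟨a, by simp, rfl⟩
      | succ j ih =>
        intro a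
        obtain ⟨a1, h1, h2⟩ := ih a
        obtain ⟨a2, h3, h4⟩ := ht a1
        refine ⟨a2, ?_, ?_⟩
        · rw [h3, h1, pow_succ']
          group
        · rw [h4, h2, pow_succ']
          rfl
    ext m
    obtain ⟨a, ha⟩ := hα (ofAdd m)
    obtain ⟨a', h2, h3⟩ := h1 q a
    rw [hP.exp T hT t] at h2
    have h4 : a' = a := Subtype.ext (by rw [h2]; simp)
    rw [h4, ha] at h3
    exact h3.symm
  · have hnil : Group.IsNilpotent T := (hP.pg T hT).isNilpotent
    obtain ⟨L, hL⟩ := Subgroup.nilpotent_iff_lowerCentralSeries.1 hnil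
    refine ⟨L, fun l hl hlen => ?_⟩
    have key : ∀ (l : List (Module.End K M)), (∀ γ ∈ l, γ ∈ Γ) → ∀ a : A, ∃ b : A,
        (b : T) ∈ (⊤ : Subgroup T).lowerCentralSeries l.length ∧
        (α b).toAdd = wd id l (α a).toAdd := by
      intro l
      induction l with
      | nil => exact fun _ a => ⟨a, trivial, rfl⟩
      | cons γ l ih =>
        intro h a
        obtain ⟨b, hb1, hb2⟩ := ih (fun γ' hγ' => h γ' (List.mem_cons_of_mem _ hγ')) a
        obtain ⟨t, ht⟩ := hΓ γ (h γ List.mem_cons_self)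
        obtain ⟨b', hb3, hb4⟩ := ht b
        refine ⟨b' * b⁻¹, ?_, ?_⟩
        · rw [List.length_cons, Subgroup.lowerCentralSeries_succ, Subgroup.commutator_comm]
          have h5 : ((b' * b⁻¹ : A) : T) = ⁅t, (b : T)⁆ := by
            rw [commutatorElement_def, Subgroup.coe_mul, hb3, Subgroup.coe_inv]
          rw [h5]
          exact Subgroup.commutator_mem_commutator (Subgroup.mem_top _) hb1
        · rw [map_mul, map_inv, toAdd_mul, toAdd_inv, hb4, hb2, wd_cons_apply, ← sub_eq_add_neg]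
          rfl
    ext m
    obtain ⟨a, ha⟩ := hα (ofAdd m)
    obtain ⟨b, hb1, hb2⟩ := key l hl a
    rw [hlen, hL, Subgroup.mem_bot] at hb1
    have hb3 : b = 1 := Subtype.ext hb1
    rw [hb3, map_one, ha] at hb2
    exact hb2.symm

end H43.PV
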