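import Pool.Agent.H43.PV.Defs

/-!
# Module PV-10: the filtration, Lie monomials and group commutators

`Fil g j` is the span of all `wd g l v` with `l.length = j` (defined recursively).
`EF g j A` means that the operator `A` raises the filtration by at least `j`.
`LM r` is the type of Lie monomials in `r` letters; `LM.alg`, `LM.op`, `LM.grp` are its values in
the free algebra, in the operators `g i - 1`, and in the group (the inverse of `γ` is written
`γ ^ (q - 1)`).

## Proofs
* `Fil_anti`: induction.  `wd_mem_Fil`, `Fil_le_of_wd`: induction on the word / on `j`.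
* `Fil_eq_bot`: by induction `Fil g N ≤ Fil g (N + j)` for all `j` (`Fil g (j+1)` is a monotone
  function of `Fil g j`), and `Fil g L = ⊥` for the `L` of `Good.nil`, as all `wd g l v` with
  `l.length = L` vanish.
* `EF.*`: easy.
* `EF_sub_one`: for `γ ∈ Submonoid.closure (range g)`, `EF g 1 (γ - 1)`: closure induction with
  `x y - 1 = (x - 1) (y - 1) + (x - 1) + (y - 1)`.
* `LM.grp_mem`: `Γ` is a submonoid.
* `LM.op_eq`: `LM.op g t = FreeAlgebra.lift K (fun i => g i - 1) t.alg`, by induction.
* `LM.op_EF`: induction, using `EF.mul`, `EF.sub`.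
* `LM.grp_sub`: by induction on `t`, `EF g (t.deg + 1) (t.grp q g - 1 - t.op g)`.  For `t = br s u`:
  let `a = s.grp`, `b = u.grp`, `a' = a ^ (q-1)`, `b' = b ^ (q-1)`, so `a a' = a' a = 1` (`Good.pow`
  for `a ∈ Γ`), same for `b`.  `a b a' b' - 1 = (a b - b a) a' b'`
  `= ((a-1)(b-1) - (b-1)(a-1)) a' b'`.  Write `a - 1 = A + α`, `b - 1 = B + β`, `A = s.op`,
  `B = u.op`, `α`, `β` of higher order.  Then `(a-1)(b-1) - (b-1)(a-1) = (A B - B A) + ` (order
  `s.deg + u.deg + 1`) and `a' b' = 1 + ` (order 1).  (`EF g 1 (a' b' - 1)` by `EF_sub_one`; all of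
  `a`, `b`, `a'`, `b'` are in `closure (range g)`.)
-/

set_option autoImplicit false

namespace H43.PV

section

variable {K : Type} [Field K] {M : Type} [AddCommGroup M] [Module K M] {ι : Type}

/-- the filtration of `M` given by the operators `g i - 1` -/
def Fil (g : ι → Module.End K M) : ℕ → Submodule K M
  | 0 => ⊤
  | j + 1 => ⨆ i, (Fil g j).map (g i - 1)

/-- `A` raises the filtration by `j` -/
def EF (g : ι → Module.End K M) (j : ℕ) (A : Module.End K M) : Prop :=
  ∀ m, ∀ v ∈ Fil g m, A v ∈ Fil g (m + j)

variable (g : ι → Module.End K M)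

theorem Fil_succ (j : ℕ) : Fil g (j + 1) = ⨆ i, (Fil g j).map (g i - 1) := rfl

theorem letter_mem_Fil (i : ι) (j : ℕ) (v : M) (hv : v ∈ Fil g j) :
    (g i - 1) v ∈ Fil g (j + 1) :=
  (le_iSup (fun i => (Fil g j).map (g i - 1)) i) (Submodule.mem_map_of_mem hv)

theorem Fil_succ_mono {i j : ℕ} (h : Fil g i ≤ Fil g j) : Fil g (i + 1) ≤ Fil g (j + 1) :=
  iSup_mono fun _ => Submodule.map_mono h

theorem Fil_succ_le (j : ℕ) : Fil g (j + 1) ≤ Fil g j := by
  induction j with
  | zero => exact le_top
  | succ j ih => exact Fil_succ_mono g ih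

theorem Fil_anti {i j : ℕ} (h : i ≤ j) : Fil g j ≤ Fil g i :=
  antitone_nat_of_succ_le (Fil_succ_le g) h

theorem wd_mem_Fil (l : List ι) (m : ℕ) (v : M) (hv : v ∈ Fil g m) :
    wd g l v ∈ Fil g (m + l.length) := by
  induction l with
  | nil => simpa using hv
  | cons i l ih =>
    rw [wd_cons, List.length_cons, ← add_assoc]
    exact letter_mem_Fil g i _ _ ih

theorem Fil_le_of_wd (j : ℕ) (N : Submodule K M)
    (h : ∀ l : List ι, l.length = j → ∀ v, wd g l v ∈ N) : Fil g j ≤ N := by
  induction j generalizing N with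
  | zero =>
    intro v _
    simpa using h [] rfl v
  | succ j ih =>
    rw [Fil_succ]
    refine iSup_le fun i => ?_
    rw [Submodule.map_le_iff_le_comap]
    refine ih _ fun l hl v => ?_
    rw [Submodule.mem_comap]
    have := h (i :: l) (by simp [hl]) v
    rwa [wd_cons] at this

theorem Fil_eq_bot {q : ℕ} {Γ : Submonoid (Module.End K M)} (hG : Good q M Γ)
    (hg : ∀ i, g i ∈ Γ) (N : ℕ) (hN : Fil g N ≤ Fil g (N + 1)) : Fil g N = ⊥ := by
  have h1 : ∀ j, Fil g (N + j) ≤ Fil g (N + j + 1) := by
    intro j
    induction j with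
    | zero => exact hN
    | succ j ih => exact Fil_succ_mono g ih
  have h2 : ∀ j, Fil g N ≤ Fil g (N + j) := by
    intro j
    induction j with
    | zero => exact le_rfl
    | succ j ih => exact ih.trans (h1 j)
  obtain ⟨L, hL⟩ := hG.nil
  have h3 : Fil g L ≤ ⊥ := by
    refine Fil_le_of_wd g L ⊥ fun l hl v => ?_
    have := hL (l.map g) (by
      intro γ hγ
      obtain ⟨i, _, rfl⟩ := List.mem_map.1 hγ
      exact hg i) (by simp [hl])
    rw [wd_map] at this
    have h4 : wd g l = 0 := this
    simp [h4]
  rw [eq_bot_iff]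
  exact (h2 L).trans ((Fil_anti g (by omega)).trans h3)

variable {g}

theorem EF.zero (j : ℕ) : EF g j 0 := fun m v _ => by simp

theorem EF.one : EF g 0 1 := fun m v hv => by simpa using hv

theorem EF.add {j : ℕ} {A B : Module.End K M} (hA : EF g j A) (hB : EF g j B) :
    EF g j (A + B) := fun m v hv => by
  rw [LinearMap.add_apply]
  exact Submodule.add_mem _ (hA m v hv) (hB m v hv)

theorem EF.neg {j : ℕ} {A : Module.End K M} (hA : EF g j A) : EF g j (-A) :=
  fun m v hv => by
    rw [LinearMap.neg_apply]
    exact Submodule.neg_mem _ (hA m v hv)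

theorem EF.sub {j : ℕ} {A B : Module.End K M} (hA : EF g j A) (hB : EF g j B) :
    EF g j (A - B) := by
  rw [sub_eq_add_neg]
  exact hA.add hB.neg

theorem EF.smul {j : ℕ} {A : Module.End K M} (c : K) (hA : EF g j A) : EF g j (c • A) :=
  fun m v hv => by
    rw [LinearMap.smul_apply]
    exact Submodule.smul_mem _ c (hA m v hv)

theorem EF.mul {i j : ℕ} {A B : Module.End K M} (hA : EF g i A) (hB : EF g j B) :
    EF g (i + j) (A * B) := fun m v hv => by
  rw [Module.End.mul_apply, add_comm i j, ← add_assoc]
  exact hA _ _ (hB m v hv)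

theorem EF.mono {i j : ℕ} {A : Module.End K M} (hij : i ≤ j) (hA : EF g j A) : EF g i A :=
  fun m v hv => Fil_anti g (by omega) (hA m v hv)

theorem EF_letter (i : ι) : EF g 1 (g i - 1) := fun m v hv => letter_mem_Fil g i m v hv

theorem EF_sub_one {γ : Module.End K M} (hγ : γ ∈ Submonoid.closure (Set.range g)) :
    EF g 1 (γ - 1) := by
  induction hγ using Submonoid.closure_induction with
  | mem x hx =>
    obtain ⟨i, rfl⟩ := hx
    exact EF_letter i
  | one => simpa using EF.zero (g := g) 1
  | mul x y _ _ hx hy =>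
    have h : x * y - 1 = (x - 1) * (y - 1) + (x - 1) + (y - 1) := by noncomm_ring
    rw [h]
    exact (((hx.mul hy).mono (by norm_num)).add hx).add hy

end

/-- Lie monomials -/
inductive LM (r : ℕ) : Type
  | var : Fin r → LM r
  | br : LM r → LM r → LM r

namespace LM

variable {r : ℕ}

/-- the degree -/
def deg : LM r → ℕ
  | var _ => 1
  | br s t => s.deg + t.deg

/-- the value in the free algebra -/
noncomputable def alg (K : Type) [Field K] : LM r → FreeAlgebra K (Fin r)
  | var i => FreeAlgebra.ι K i
  | br s t => s.alg K * t.alg K - t.alg K * s.alg K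

variable {K : Type} [Field K] {M : Type} [AddCommGroup M] [Module K M]

/-- the value in the operators `g i - 1` -/
def op (g : Fin r → Module.End K M) : LM r → Module.End K M
  | var i => g i - 1
  | br s t => s.op g * t.op g - t.op g * s.op g

/-- the value in the group -/
def grp (q : ℕ) (g : Fin r → Module.End K M) : LM r → Module.End K M
  | var i => g i
  | br s t => s.grp q g * t.grp q g * s.grp q g ^ (q - 1) * t.grp q g ^ (q - 1)

theorem deg_pos (t : LM r) : 0 < t.deg := by
  induction t with
  | var i => exact Nat.one_pos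
  | br s t hs ht => exact Nat.add_pos_left hs _

theorem grp_mem (q : ℕ) {g : Fin r → Module.End K M} {Γ : Submonoid (Module.End K M)}
    (hg : ∀ i, g i ∈ Γ) (t : LM r) : t.grp q g ∈ Γ := by
  induction t with
  | var i => exact hg i
  | br s t hs ht =>
    exact Γ.mul_mem (Γ.mul_mem (Γ.mul_mem hs ht) (Γ.pow_mem hs _)) (Γ.pow_mem ht _)

theorem op_EF (g : Fin r → Module.End K M) (t : LM r) : EF g t.deg (t.op g) := by
  induction t with
  | var i => exact EF_letter i
  | br s t hs ht =>
    have h1 := hs.mul ht
    have h2 := ht.mul hs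
    rw [add_comm] at h2
    exact h1.sub h2

theorem grp_sub {q : ℕ} (hq : 0 < q) {g : Fin r → Module.End K M}
    {Γ : Submonoid (Module.End K M)} (hG : Good q M Γ) (hg : ∀ i, g i ∈ Γ) (t : LM r) :
    EF g (t.deg + 1) (t.grp q g - 1 - t.op g) := by
  induction t with
  | var i =>
    have h : (LM.var i : LM r).grp q g - 1 - (LM.var i : LM r).op g = 0 := by
      simp [grp, op]
    rw [h]
    exact EF.zero _
  | br s u hs hu =>
    set a := s.grp q g with ha
    set b := u.grp q g with hb
    set A := s.op g with hA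
    set B := u.op g with hB
    have hAE : EF g s.deg A := op_EF g s
    have hBE : EF g u.deg B := op_EF g u
    have hsp := deg_pos s
    have hup := deg_pos u
    have hmem : ∀ t : LM r, t.grp q g ∈ Submonoid.closure (Set.range g) := fun t =>
      grp_mem q (fun i => Submonoid.subset_closure (Set.mem_range_self i)) t
    have haq : a * a ^ (q - 1) = 1 := by
      rw [← pow_succ', Nat.sub_add_cancel hq]
      exact hG.pow _ (grp_mem q hg s)
    have hbq : b * b ^ (q - 1) = 1 := by
      rw [← pow_succ', Nat.sub_add_cancel hq]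
      exact hG.pow _ (grp_mem q hg u)
    have haE : EF g s.deg (a - 1) := by
      have h1 : a - 1 = (a - 1 - A) + A := by abel
      rw [h1]
      exact (hs.mono (Nat.le_succ _)).add hAE
    have hbE : EF g u.deg (b - 1) := by
      have h1 : b - 1 = (b - 1 - B) + B := by abel
      rw [h1]
      exact (hu.mono (Nat.le_succ _)).add hBE
    have hab : EF g 1 (a ^ (q - 1) * b ^ (q - 1) - 1) :=
      EF_sub_one (Submonoid.mul_mem _ (Submonoid.pow_mem _ (hmem s) _)
        (Submonoid.pow_mem _ (hmem u) _))
    -- the commutator of the operators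
    set C := (a - 1) * (b - 1) - (b - 1) * (a - 1) with hC
    have hC1 : EF g (s.deg + u.deg) C := by
      have h2 := hbE.mul haE
      rw [add_comm] at h2
      exact (haE.mul hbE).sub h2
    have hC2 : EF g (s.deg + u.deg + 1) (C - (A * B - B * A)) := by
      have e : C - (A * B - B * A) = (a - 1 - A) * (b - 1) + A * (b - 1 - B)
          - ((b - 1 - B) * (a - 1) + B * (a - 1 - A)) := by
        rw [hC]; noncomm_ring
      rw [e]
      have h1 := (hs.mul hbE).mono (i := s.deg + u.deg + 1) (by omega)
      have h2 := (hAE.mul hu).mono (i := s.deg + u.deg + 1) (by omega)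
      have h3 := (hu.mul haE).mono (i := s.deg + u.deg + 1) (by omega)
      have h4 := (hBE.mul hs).mono (i := s.deg + u.deg + 1) (by omega)
      exact (h1.add h2).sub (h3.add h4)
    have key : a * b * a ^ (q - 1) * b ^ (q - 1) - 1 = C * (a ^ (q - 1) * b ^ (q - 1)) := by
      have h1 : b * a * (a ^ (q - 1) * b ^ (q - 1)) = 1 := by
        calc b * a * (a ^ (q - 1) * b ^ (q - 1)) = b * (a * a ^ (q - 1)) * b ^ (q - 1) := by
              simp only [mul_assoc]
          _ = 1 := by rw [haq, mul_one, hbq]
      have h2 : C = a * b - b * a := by rw [hC]; noncomm_ring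
      rw [h2, sub_mul, h1]
      simp only [mul_assoc]
    have hfin : (LM.br s u).grp q g - 1 - (LM.br s u).op g
        = C * (a ^ (q - 1) * b ^ (q - 1) - 1) + (C - (A * B - B * A)) := by
      show a * b * a ^ (q - 1) * b ^ (q - 1) - 1 - (A * B - B * A) = _
      rw [key]
      noncomm_ring
    rw [hfin]
    exact (hC1.mul hab).add hC2

end LM

end H43.PV
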