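import Pool.Agent.H43.PV.UG
import Pool.Agent.H43.PV.Filt

/-!
# Module PV-13b: `r`-generated subgroups of the semidirect product

Suppose that all words of length `n` in `g 0 - 1, ..., g (r-1) - 1` vanish for all `g : Fin r → Γ`,
and let `s : Fin r → SD v`, `v = vU Γ`, `H = Subgroup.closure (Set.range s)`.  Then
`H.lowerCentralSeries (2 * (n + 1)) = ⊥`.

## Proof
Let `g i : Module.End K M` be the second component of `s i`, an element of `Γ`.
* The second component of every element of `H` is in `Submonoid.closure (range g)` (closure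
  induction; `γ⁻¹ = γ ^ (q - 1)` by `Good.pow`).
* `Fil g n = ⊥` (`Fil_le_of_wd`), so by `EF_sub_one` a product of at least `n + 1` (even `n`) operators
  `γ - 1`, `γ ∈ Submonoid.closure (range g)`, is zero: it maps `Fil g 0 = ⊤` into
  `Fil g (n + 1) ≤ Fil g n = ⊥`.
* Let `v' : H →* AddMonoid.End M` be the composition of `H → SD v → UG Γ` (`SemidirectProduct.rightHom`)
  with `v`.  So `Zs v' (n + 1)` is everything (`foldC v' l m = wd _ _ m`).  By `lcs_acts` every element
  of `(⊤ : Subgroup H).lowerCentralSeries (n + 1)` acts trivially on `M` (use `j = 0` and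
  `d ∈ Zs v' (n + 2)`; elements of `Zs v' 0` are `0`), so its second component is `1`
  (`vU_injective`), i.e. it is `(m, 1)`.
* By induction on `i ≤ n + 1`: all elements of `(⊤ : Subgroup H).lowerCentralSeries (n + 1 + i)` are
  of the form `(m, 1)` with `m ∈ Zs v' (n + 1 - i)`: these elements form a subgroup of `H` and the
  commutator of `(m, 1)` and `h ∈ H` is `(± (v' h m - m), 1)`; use `Zs_step`.  Compare the proof of
  `class_bound` in `H89/ProP/NilAct.lean`.  For `i = n + 1`, `m ∈ Zs v' 0`, so `m = 0`.
* `H.lowerCentralSeries j` is the image of `(⊤ : Subgroup H).lowerCentralSeries j` under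
  `H.subtype` (`Subgroup.map_lowerCentralSeries`).
-/

set_option autoImplicit false

namespace H43.PV

variable {K : Type} [Field K] {M : Type} [AddCommGroup M] [Module K M]

/-- the operator given by the second component of an element of the semidirect product -/
def sdbOp {Γ : Submonoid (Module.End K M)} (x : H89.ProP.SD (vU Γ)) : Module.End K M :=
  ((x.right : (Module.End K M)ˣ) : Module.End K M)

theorem sdbOp_mem {Γ : Submonoid (Module.End K M)} (x : H89.ProP.SD (vU Γ)) : sdbOp x ∈ Γ :=
  x.right.2.1

theorem sdbOp_one {Γ : Submonoid (Module.End K M)} : sdbOp (1 : H89.ProP.SD (vU Γ)) = 1 := rfl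

theorem sdbOp_mul {Γ : Submonoid (Module.End K M)} (x y : H89.ProP.SD (vU Γ)) :
    sdbOp (x * y) = sdbOp x * sdbOp y := rfl

theorem sdbOp_inv {q : ℕ} (hq : 0 < q) {Γ : Submonoid (Module.End K M)} (hG : Good q M Γ)
    (x : H89.ProP.SD (vU Γ)) : sdbOp x⁻¹ = sdbOp x ^ (q - 1) := by
  have h1 : sdbOp x⁻¹ * sdbOp x = 1 := by rw [← sdbOp_mul, inv_mul_cancel, sdbOp_one]
  have h2 : sdbOp x * sdbOp x ^ (q - 1) = 1 := by
    rw [← pow_succ', Nat.sub_add_cancel hq]
    exact hG.pow _ (sdbOp_mem x)
  exact left_inv_eq_right_inv h1 h2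

/-- the second components of the elements of a generated subgroup -/
theorem sdbOp_closure {q : ℕ} (hq : 0 < q) {Γ : Submonoid (Module.End K M)} (hG : Good q M Γ)
    {r : ℕ} (s : Fin r → H89.ProP.SD (vU Γ)) :
    ∀ x ∈ Subgroup.closure (Set.range s),
      sdbOp x ∈ Submonoid.closure (Set.range fun i => sdbOp (s i)) := by
  intro x hx
  induction hx using Subgroup.closure_induction with
  | mem x hx =>
    obtain ⟨i, rfl⟩ := hx
    exact Submonoid.subset_closure ⟨i, rfl⟩
  | one => exact Submonoid.one_mem _
  | mul x y _ _ hx hy => exact Submonoid.mul_mem _ hx hy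
  | inv x _ hx =>
    rw [sdbOp_inv hq hG]
    exact Submonoid.pow_mem _ hx _

open Multiplicative commutatorElement H89.ProP in
theorem sd_law {q : ℕ} (hq : 0 < q) {Γ : Submonoid (Module.End K M)} (hG : Good q M Γ) {r n : ℕ}
    (h : ∀ g : Fin r → Module.End K M, (∀ i, g i ∈ Γ) → ∀ l : List (Fin r), l.length = n →
      wd g l = 0) (s : Fin r → H89.ProP.SD (vU Γ)) :
    (Subgroup.closure (Set.range s)).lowerCentralSeries (2 * (n + 1)) = ⊥ := by
  set H : Subgroup (SD (vU Γ)) := Subgroup.closure (Set.range s) with hH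
  let g : Fin r → Module.End K M := fun i => sdbOp (s i)
  have hg : ∀ i, g i ∈ Γ := fun i => sdbOp_mem (s i)
  have hbot : Fil g n = ⊥ := by
    rw [eq_bot_iff]
    refine Fil_le_of_wd g n ⊥ fun l hl v => ?_
    rw [h g hg l hl]
    exact Submodule.zero_mem _
  let v' : H →* AddMonoid.End M := (vU Γ).comp (SemidirectProduct.rightHom.comp H.subtype)
  have hv' : ∀ (x : H) (m : M), v' x m = sdbOp x.1 m := fun _ _ => rfl
  have hfold : ∀ (l : List H) (m : M), foldC v' l m ∈ Fil g l.length := by
    intro l m
    induction l with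
    | nil => exact Submodule.mem_top
    | cons x l ih =>
      rw [foldC_cons, List.length_cons]
      have h1 := EF_sub_one (g := g) (sdbOp_closure hq hG s x.1 x.2) l.length _ ih
      exact h1
  have hall : ∀ (k : ℕ) (d : M), n ≤ k → d ∈ Zs v' k := by
    intro k d hk l hl
    have h1 := Fil_anti g (hk.trans hl) (hfold l d)
    rw [hbot] at h1
    exact (Submodule.mem_bot K).1 h1
  have hright : ∀ x ∈ (⊤ : Subgroup H).lowerCentralSeries (n + 1), x.1.right = 1 := by
    intro x hx
    apply vU_injective
    rw [map_one]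
    ext m
    have h1 := lcs_acts v' (n + 1) x hx 0 m (hall _ _ (by omega))
    have h2 := h1 [] (Nat.zero_le _)
    rw [foldC_nil, sub_eq_zero] at h2
    exact h2
  have key : ∀ j : ℕ, ∀ x ∈ (⊤ : Subgroup H).lowerCentralSeries (n + 1 + j),
      x.1.right = 1 ∧ x.1.left.toAdd ∈ Zs v' (n + 1 - j) := by
    intro j
    induction j with
    | zero => exact fun x hx => ⟨hright x hx, hall _ _ (by omega)⟩
    | succ j ih =>
      let L : Subgroup H :=
        { carrier := {x | x.1.right = 1 ∧ x.1.left.toAdd ∈ Zs v' (n + 1 - (j + 1))}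
          one_mem' := ⟨rfl, (Zs v' _).zero_mem⟩
          mul_mem' := by
            rintro x y ⟨hx, hx'⟩ ⟨hy, hy'⟩
            refine ⟨?_, ?_⟩
            · change x.1.right * y.1.right = 1
              rw [hx, hy, one_mul]
            · change x.1.left.toAdd + vU Γ x.1.right y.1.left.toAdd ∈ _
              rw [hx, v_one_apply]
              exact (Zs v' _).add_mem hx' hy'
          inv_mem' := by
            rintro x ⟨hx, hx'⟩
            refine ⟨?_, ?_⟩
            · change x.1.right⁻¹ = 1
              rw [hx, inv_one]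
            · change vU Γ x.1.right⁻¹ (-x.1.left.toAdd) ∈ _
              rw [hx, inv_one, v_one_apply]
              exact (Zs v' _).neg_mem hx' }
      have hL : (⊤ : Subgroup H).lowerCentralSeries (n + 1 + (j + 1)) ≤ L := by
        rw [← add_assoc, Subgroup.lowerCentralSeries_succ, Subgroup.commutator_comm,
          Subgroup.commutator_le]
        intro y _ x hx
        obtain ⟨hx1, hx2⟩ := ih x hx
        refine ⟨?_, ?_⟩
        · change y.1.right * x.1.right * y.1.right⁻¹ * x.1.right⁻¹ = 1
          rw [hx1, inv_one, mul_one, mul_one, mul_inv_cancel]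
        · have h1 : (⁅y, x⁆ : H).1.left.toAdd = v' y x.1.left.toAdd - x.1.left.toAdd := by
            change ((y.1.left.toAdd + vU Γ y.1.right x.1.left.toAdd) +
              vU Γ (y.1.right * x.1.right) (vU Γ y.1.right⁻¹ (-y.1.left.toAdd))) +
              vU Γ (y.1.right * x.1.right * y.1.right⁻¹) (vU Γ x.1.right⁻¹ (-x.1.left.toAdd)) =
              vU Γ y.1.right x.1.left.toAdd - x.1.left.toAdd
            rw [hx1, inv_one, mul_one, mul_inv_cancel, v_one_apply, v_one_apply,
              ← v_mul_apply, mul_inv_cancel, v_one_apply]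
            abel
          rw [h1]
          intro l hl
          have h3 : v' y x.1.left.toAdd - x.1.left.toAdd = foldC v' [y] x.1.left.toAdd := rfl
          rw [h3, ← foldC_append]
          refine hx2 _ ?_
          rw [List.length_append, List.length_singleton]
          omega
      exact hL
  have hbotH : (⊤ : Subgroup H).lowerCentralSeries (2 * (n + 1)) = ⊥ := by
    rw [eq_bot_iff]
    intro x hx
    have h1 : 2 * (n + 1) = n + 1 + (n + 1) := by ring
    rw [h1] at hx
    obtain ⟨hx1, hx2⟩ := key (n + 1) x hx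
    have h2 := hx2 [] (by simp)
    rw [foldC_nil] at h2
    rw [Subgroup.mem_bot]
    exact Subtype.ext (SemidirectProduct.ext h2 hx1)
  rw [← Subgroup.top_subtype_lowerCentralSeries, hbotH, Subgroup.map_bot]

end H43.PV
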