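import Pool.Agent.H43.PV.SDa
import Pool.Agent.H43.PV.SDb
import Pool.Agent.H43.PV.ClassPP

/-!
# Local bounds give global bounds (H1')
-/

set_option autoImplicit false

namespace H43.PV

open H89.ProP Multiplicative commutatorElement

variable {K : Type} [Field K] {p q : ℕ} {P : (G : Type) → [Group G] → Prop}

theorem foldC_vU {M : Type} [AddCommGroup M] [Module K M] {Γ : Submonoid (Module.End K M)}
    (l : List (UG Γ)) (m : M) :
    foldC (vU Γ) l m = wd id (l.map fun u : UG Γ => ((u : (Module.End K M)ˣ) : Module.End K M)) m := by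
  induction l with
  | nil => rfl
  | cons a l ih =>
    rw [foldC_cons, List.map_cons, wd_cons_apply, ih, vU_apply]
    rfl

/-- the class of the semidirect product bounds the products of operators `γ - 1` -/
theorem sd_bdd (hq : 0 < q) {M : Type} [AddCommGroup M] [Module K M]
    {Γ : Submonoid (Module.End K M)} (hG : Good q M Γ) {k : ℕ}
    (hk : (⊤ : Subgroup (SD (vU Γ))).lowerCentralSeries k = ⊥) (l : List (Module.End K M))
    (hl : ∀ γ ∈ l, γ ∈ Γ) (hlen : l.length = k) : wd id l = 0 := by
  obtain ⟨l', hl'⟩ : ∃ l' : List (UG Γ),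
      l'.map (fun u : UG Γ => ((u : (Module.End K M)ˣ) : Module.End K M)) = l := by
    clear hlen
    induction l with
    | nil => exact ⟨[], rfl⟩
    | cons a l ih =>
      obtain ⟨l', h⟩ := ih (fun γ hγ => hl γ (List.mem_cons_of_mem _ hγ))
      obtain ⟨u, hu⟩ := exists_UG hq hG.pow a (hl a List.mem_cons_self)
      exact ⟨u :: l', by rw [List.map_cons, h, hu]⟩
  have hlen' : l'.length = k := by rw [← hlen, ← hl', List.length_map]
  ext m
  rw [← hl', ← foldC_vU]
  have key : ∀ (l : List (UG Γ)), (⟨ofAdd (foldC (vU Γ) l m), 1⟩ : SD (vU Γ)) ∈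
        (⊤ : Subgroup (SD (vU Γ))).lowerCentralSeries l.length := by
    intro l
    induction l with
    | nil => trivial
    | cons a l ih =>
      rw [foldC_cons, ← sd_commutator, List.length_cons, Subgroup.lowerCentralSeries_succ,
        Subgroup.commutator_comm]
      exact Subgroup.commutator_mem_commutator (Subgroup.mem_top _) ih
  have h1 := key l'
  rw [hlen', hk, Subgroup.mem_bot] at h1
  exact congrArg SemidirectProduct.left h1

theorem bdd_of_local (hp : p.Prime) (hq : 0 < q) (hP : Cls p q P) (S : PairClass K)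
    (hS : Sub S (PP P)) (N : ℕ → ℕ)
    (hN : ∀ (M : Type) [AddCommGroup M] [Module K M] (Γ : Submonoid (Module.End K M)), S M Γ →
      ∀ (r : ℕ) (g : Fin r → Module.End K M), (∀ i, g i ∈ Γ) → ∀ l : List (Fin r),
      l.length = N r → wd g l = 0) : ∃ k : ℕ, BddBy S k := by
  obtain ⟨k, hk⟩ := hP.H1 (fun r => 2 * (N r + 1))
  refine ⟨k, fun M _ _ Γ hM l hl hlen => ?_⟩
  have hG : Good q M Γ := pp_good hp hP M Γ (hS M Γ hM)
  refine sd_bdd hq hG (hk _ (sd_mem hq hP (hS M Γ hM)) fun r t => ?_) l hl hlen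
  exact sd_law hq hG (fun g hg l hl => hN M Γ hM r g hg l hl) t

end H43.PV
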