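import Pool.Agent.H43.PV.Defs

/-!
# Module PV-7: the syntactic quotient

Let `(M, Γ, g, μ, φ)` witness `Coef S n lam`.  Let `B` be the span of all `wd g l μ` (a submodule of
`M`, mapped into itself by all `g i`, as `g i (wd g l μ) = wd g (i :: l) μ + wd g l μ`), and `C` the
submodule of all `b ∈ B` with `φ (wd g l b) = 0` for all `l`, which is also mapped into itself by
the `g i`.  Take `N = B ⧸ C`, `g'` the induced maps (`Submodule.mapQ`), `μ'` the class of `μ`, `φ'`
induced by `φ` (`φ` vanishes on `C`: `l = []`).  Then `wd g' l (class of b) = class of (wd g l b)`.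
`S N (closure (range g'))` follows from `IsClass.div` with `i : B → M` the inclusion and
`π : B → N` the quotient map; the lifting condition for generators is clear (`g' i` is lifted by
`g i ∈ Γ`) and `lift_closure` extends it.

(It may be easier to use the submodules of `M` and a quotient of the type `↥B`, or the space of
functions `List (Fin n) → K`, `m ↦ (l ↦ φ (wd g l m))`, and its submodule the image of `B`.)
-/

set_option autoImplicit false

namespace H43.PV

variable {K : Type} [Field K] {S : PairClass K} {n : ℕ}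

section syn

variable {M : Type} [AddCommGroup M] [Module K M] (g : Fin n → Module.End K M) (μ : M)
  (φ : M →ₗ[K] K)

/-- the function of a vector -/
def synF : M →ₗ[K] (List (Fin n) → K) where
  toFun m l := φ (wd g l m)
  map_add' x y := by
    funext l
    simp
  map_smul' c x := by
    funext l
    simp

/-- the operator on functions -/
def synT (K : Type) [Field K] (i : Fin n) : Module.End K (List (Fin n) → K) where
  toFun f l := f (l ++ [i]) + f l
  map_add' x y := by
    funext l
    simp only [Pi.add_apply]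
    ring
  map_smul' c x := by
    funext l
    simp only [Pi.smul_apply, smul_eq_mul, RingHom.id_apply]
    ring

theorem synT_synF (i : Fin n) (m : M) : synT K i (synF g φ m) = synF g φ (g i m) := by
  funext l
  change φ (wd g (l ++ [i]) m) + φ (wd g l m) = φ (wd g l (g i m))
  rw [wd_append, wd_singleton, Module.End.mul_apply, LinearMap.sub_apply, map_sub, map_sub]
  simp

/-- the span of the words -/
def synB : Submodule K M := Submodule.span K (Set.range fun l => wd g l μ)

theorem synB_stable (i : Fin n) {m : M} (hm : m ∈ synB g μ) : g i m ∈ synB g μ := by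
  induction hm using Submodule.span_induction with
  | mem x hx =>
    obtain ⟨l, rfl⟩ := hx
    have h1 : g i (wd g l μ) = wd g (i :: l) μ + wd g l μ := by
      rw [wd_cons_apply]
      abel
    change g i (wd g l μ) ∈ synB g μ
    rw [h1]
    exact Submodule.add_mem _ (Submodule.subset_span ⟨i :: l, rfl⟩)
      (Submodule.subset_span ⟨l, rfl⟩)
  | zero => rw [map_zero]; exact Submodule.zero_mem _
  | add x y _ _ hx hy => rw [map_add]; exact Submodule.add_mem _ hx hy
  | smul c x _ hx => rw [map_smul]; exact Submodule.smul_mem _ c hx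

/-- the quotient space, as a space of functions -/
abbrev synN : Submodule K (List (Fin n) → K) := (synB g μ).map (synF g φ)

theorem synN_stable (i : Fin n) : ∀ f ∈ synN g μ φ, synT K i f ∈ synN g μ φ := by
  rintro _ ⟨m, hm, rfl⟩
  exact ⟨g i m, synB_stable g μ i hm, (synT_synF g φ i m).symm⟩

/-- the induced operators -/
def synG (i : Fin n) : Module.End K (synN g μ φ) :=
  (synT K i).restrict (synN_stable g μ φ i)

/-- the quotient map -/
def synπ : synB g μ →ₗ[K] synN g μ φ :=
  (synF g φ).restrict fun m hm => ⟨m, hm, rfl⟩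

theorem synG_π (i : Fin n) (b : synB g μ) :
    synG g μ φ i (synπ g μ φ b) = synπ g μ φ ⟨g i b, synB_stable g μ i b.2⟩ :=
  Subtype.ext (synT_synF g φ i b)

theorem syn_wd_mem (l : List (Fin n)) (b : synB g μ) : wd g l b ∈ synB g μ := by
  induction l with
  | nil => exact b.2
  | cons i l ih =>
    rw [wd_cons_apply]
    exact Submodule.sub_mem _ (synB_stable g μ i ih) ih

theorem syn_wd (l : List (Fin n)) (b : synB g μ) :
    wd (synG g μ φ) l (synπ g μ φ b) = synπ g μ φ ⟨wd g l b, syn_wd_mem g μ l b⟩ := by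
  induction l with
  | nil => rfl
  | cons i l ih =>
    rw [wd_cons_apply, ih, synG_π, ← map_sub]
    congr 1

end syn

theorem syntactic (hS : IsClass S) {lam : Equiv.Perm (Fin n) → K} (h : Coef S n lam) :
    ∃ (N : Type) (_ : AddCommGroup N) (_ : Module K N) (g : Fin n → Module.End K N) (μ : N)
      (φ : N →ₗ[K] K), S N (Submonoid.closure (Set.range g)) ∧
      (∀ σ : Equiv.Perm (Fin n), φ (wd g (List.ofFn σ) μ) = lam σ) ∧
      (∀ l : List (Fin n), (∀ σ : Equiv.Perm (Fin n), l ≠ List.ofFn σ) → φ (wd g l μ) = 0) ∧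
      (∀ m : N, m ∈ Submodule.span K (Set.range fun l => wd g l μ)) ∧
      ∀ m : N, (∀ l : List (Fin n), φ (wd g l m) = 0) → m = 0 := by
  obtain ⟨M, i1, i2, Γ, g, μ, φ, hM, hg, h1, h2⟩ := h
  have hμ : μ ∈ synB g μ := Submodule.subset_span ⟨[], rfl⟩
  have hsurj : Function.Surjective (synπ g μ φ) := by
    rintro ⟨_, m, hm, rfl⟩
    exact ⟨⟨m, hm⟩, rfl⟩
  have hval : ∀ (l : List (Fin n)) (b : synB g μ),
      ((LinearMap.proj ([] : List (Fin n)) : (List (Fin n) → K) →ₗ[K] K) ∘ₗ
        (synN g μ φ).subtype) (wd (synG g μ φ) l (synπ g μ φ b)) = φ (wd g l b) := by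
    intro l b
    rw [syn_wd]
    rfl
  refine ⟨synN g μ φ, inferInstance, inferInstance, synG g μ φ, synπ g μ φ ⟨μ, hμ⟩,
    (LinearMap.proj ([] : List (Fin n)) : (List (Fin n) → K) →ₗ[K] K) ∘ₗ
        (synN g μ φ).subtype, ?_, fun σ => ?_, fun l hl => ?_, ?_, ?_⟩
  · refine hS.div M (synN g μ φ) (synB g μ) Γ _ (synB g μ).subtype (synπ g μ φ) hM ?_ hsurj ?_
    · intro b hb
      have : b = 0 := Subtype.ext hb
      rw [this, map_zero]
    · refine lift_closure Γ _ ?_
      rintro _ ⟨i, rfl⟩
      exact ⟨g i, hg i, fun b => ⟨⟨g i b, synB_stable g μ i b.2⟩, rfl, (synG_π g μ φ i b).symm⟩⟩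
  · rw [hval]
    exact h1 σ
  · rw [hval]
    exact h2 l hl
  · intro m
    obtain ⟨⟨b, hb⟩, rfl⟩ := hsurj m
    induction hb using Submodule.span_induction with
    | mem x hx =>
      obtain ⟨l, rfl⟩ := hx
      refine Submodule.subset_span ⟨l, ?_⟩
      exact syn_wd g μ φ l ⟨μ, hμ⟩
    | zero =>
      have e : synπ g μ φ ⟨0, Submodule.zero_mem _⟩ = 0 := map_zero (synπ g μ φ)
      change synπ g μ φ ⟨0, _⟩ ∈ _
      rw [e]
      exact Submodule.zero_mem _
    | add x y hx hy ihx ihy =>
      have e : synπ g μ φ ⟨x + y, Submodule.add_mem _ hx hy⟩ =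
          synπ g μ φ ⟨x, hx⟩ + synπ g μ φ ⟨y, hy⟩ := map_add (synπ g μ φ) ⟨x, hx⟩ ⟨y, hy⟩
      rw [e]
      exact Submodule.add_mem _ ihx ihy
    | smul c x hx ih =>
      have e : synπ g μ φ ⟨c • x, Submodule.smul_mem _ c hx⟩ =
          c • synπ g μ φ ⟨x, hx⟩ := map_smul (synπ g μ φ) c ⟨x, hx⟩
      rw [e]
      exact Submodule.smul_mem _ c ih
  · intro m hm
    obtain ⟨b, rfl⟩ := hsurj m
    refine Subtype.ext ?_
    funext l
    have := hm l
    rw [hval] at this
    exact this

end H43.PV
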