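import Pool.Agent.H43.PV.ClassPP
import Pool.Agent.H43.PV.Syn
import Pool.Agent.H43.PV.H1p
import Pool.Agent.H43.PV.CoefSub

/-!
# Module PV-14: for some `c` the function `1` is not a coefficient function of `PP P`

Here `K = ZMod p` (any field of characteristic `p` would do).
Let `S0` be the set of the pairs `(M, Γ)` in `PP P` with `Γ` commutative and `(γ - 1) ^ p = 0` for
`γ ∈ Γ`.  For `g : Fin r → Γ` all words of length `r * (p - 1) + 1` vanish: in such a word some
letter `i` occurs at least `p` times (pigeonhole), and the operators `g i - 1` commute, so the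
product is a multiple of `(g i - 1) ^ p = 0`.  By `bdd_of_local` (with `N r = r * (p - 1) + 1`) there
is `c` with `BddBy S0 c`.

Suppose `Coef (PP P) c (fun _ => 1)`, and take `N, g, μ, φ` from `syntactic` (`pp_isClass`).  Put
`X_i = g i - 1`.
* `X_i X_j = X_j X_i`: by the last two properties of `syntactic` it is enough that
  `φ (wd g l (X_i (X_j (wd g w μ)))) = φ (wd g l (X_j (X_i (wd g w μ))))`, i.e. that the words
  `l ++ [i, j] ++ w` and `l ++ [j, i] ++ w` have the same value; both are permutation words (value
  `1`) or both are not (value `0`).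
* `X_i X_i = 0`: the word `l ++ [i, i] ++ w` is not a permutation word.
So the submonoid `Γ = closure (range g)` is commutative; and `(γ - 1) ^ p = 0` for `γ ∈ Γ`, i.e.
`γ ^ p = 1`: for generators `(g i) ^ p - 1 = (g i - 1) ^ p = 0` (characteristic `p`,
`sub_pow_char_of_commute` or `Commute` version; `p ≥ 2`), and the set of `γ` with `γ ^ p = 1` in the
commutative monoid `Γ` is closed under products.  Hence `(N, Γ)` is in `S0`, and
`wd g (List.ofFn 1) = 0` (a word of length `c`: `wd g l = wd id (l.map g)`), so
`φ (wd g (List.ofFn 1) μ) = 0`, but it is `1`.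
-/

set_option autoImplicit false

namespace H43.PV

variable {p q : ℕ} [Fact p.Prime] {P : (G : Type) → [Group G] → Prop}

/-- words of length `> r (p-1)` in commuting operators whose `p`-th powers vanish -/
theorem base_word {K : Type} [Field K] {M : Type} [AddCommGroup M] [Module K M] {r n : ℕ}
    (g : Fin r → Module.End K M) (hc : ∀ i j, (g i - 1) * (g j - 1) = (g j - 1) * (g i - 1))
    (hn : ∀ i, (g i - 1) ^ n = 0) (l : List (Fin r)) (hl : l.length = r * (n - 1) + 1) :
    wd g l = 0 := by
  classical
  have hpig : ∃ i, n ≤ l.count i := by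
    by_contra hcon
    push Not at hcon
    have h1 : ∑ i : Fin r, l.count i = l.length := by
      have := Multiset.sum_count_eq_card (s := (Finset.univ : Finset (Fin r)))
        (m := (l : Multiset (Fin r))) (fun a _ => Finset.mem_univ a)
      simpa using this
    have h2 : ∑ i : Fin r, l.count i ≤ ∑ _i : Fin r, (n - 1) :=
      Finset.sum_le_sum fun i _ => by have := hcon i; omega
    rw [h1, hl, Finset.sum_const, Finset.card_univ, Fintype.card_fin, smul_eq_mul] at h2
    omega
  obtain ⟨i, hi⟩ := hpig
  obtain ⟨l', hl'⟩ := (List.replicate_sublist_iff.2 hi).exists_perm_append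
  have h1 : wd g l = wd g (List.replicate n i ++ l') := by
    unfold wd
    refine (hl'.map _).prod_eq' ?_
    refine List.pairwise_of_forall_mem_list ?_
    intro a ha b hb
    obtain ⟨x, -, rfl⟩ := List.mem_map.1 ha
    obtain ⟨y, -, rfl⟩ := List.mem_map.1 hb
    exact hc x y
  have h2 : wd g (List.replicate n i) = 0 := by
    unfold wd
    rw [List.map_replicate, List.prod_replicate, hn]
  rw [h1, wd_append, h2, zero_mul]

theorem base (hq : 0 < q) (hP : Cls p q P) :
    ∃ c : ℕ, ¬ Coef (PP (K := ZMod p) P) c (fun _ => 1) := by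
  classical
  have hp : p.Prime := Fact.out
  let S0 : PairClass (ZMod p) := fun M _ _ Γ => PP P M Γ ∧
    (∀ a ∈ Γ, ∀ b ∈ Γ, a * b = b * a) ∧ ∀ a ∈ Γ, (a - 1) ^ p = 0
  obtain ⟨c, hc⟩ := bdd_of_local hp hq hP S0 (fun M _ _ Γ h => h.1) (fun r => r * (p - 1) + 1)
    (by
      intro M _ _ Γ hM r g hg l hl
      refine base_word g (fun i j => ?_) (fun i => hM.2.2 _ (hg i)) l hl
      have := hM.2.1 _ (hg i) _ (hg j)
      rw [sub_mul, sub_mul, mul_sub, mul_sub, mul_sub, mul_sub, this]
      simp only [mul_one, one_mul]
      abel)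
  refine ⟨c, fun hcoef => ?_⟩
  obtain ⟨N, _, _, g, μ, φ, hN, h1, h2, h3, h4⟩ := syntactic (pp_isClass hP) hcoef
  -- the values
  have hval : ∀ l : List (Fin c), φ (wd g l μ) = if (∀ i, i ∈ l) ∧ l.length ≤ c then 1 else 0 := by
    intro l
    by_cases h : (∀ i, i ∈ l) ∧ l.length ≤ c
    · rw [if_pos h]
      obtain ⟨σ, hσ⟩ := cs_perm_of_full h.1 (by omega)
      rw [hσ, h1]
    · rw [if_neg h]
      apply h2
      rintro σ rfl
      apply h
      refine ⟨fun i => ?_, by simp⟩
      rw [List.mem_ofFn]
      exact ⟨σ.symm i, by simp⟩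
  have hspan : ∀ A B : Module.End (ZMod p) N, (∀ l w : List (Fin c),
      φ (wd g l (A (wd g w μ))) = φ (wd g l (B (wd g w μ)))) → A = B := by
    intro A B hAB
    ext m
    rw [← sub_eq_zero]
    apply h4
    intro l
    rw [map_sub, map_sub, sub_eq_zero]
    have hm := h3 m
    induction hm using Submodule.span_induction with
    | mem x hx =>
      obtain ⟨w, rfl⟩ := hx
      exact hAB l w
    | zero => simp
    | add x y _ _ hx hy => rw [map_add, map_add, map_add, map_add, map_add, map_add, hx, hy]
    | smul a x _ hx => rw [map_smul, map_smul, map_smul, map_smul, map_smul, map_smul, hx]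
  have hcomm : ∀ i j, (g i - 1) * (g j - 1) = (g j - 1) * (g i - 1) := by
    intro i j
    refine hspan _ _ fun l w => ?_
    have e1 : wd g l (((g i - 1) * (g j - 1)) (wd g w μ)) = wd g (l ++ (i :: j :: w)) μ := by
      rw [wd_append, wd_cons, wd_cons]
      rfl
    have e2 : wd g l (((g j - 1) * (g i - 1)) (wd g w μ)) = wd g (l ++ (j :: i :: w)) μ := by
      rw [wd_append, wd_cons, wd_cons]
      rfl
    rw [e1, e2, hval, hval]
    have hperm : (l ++ (i :: j :: w)).Perm (l ++ (j :: i :: w)) :=
      List.Perm.append_left l (List.Perm.swap j i w)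
    simp only [hperm.mem_iff, hperm.length_eq]
  have hsq : ∀ i, (g i - 1) ^ 2 = 0 := by
    intro i
    refine hspan _ _ fun l w => ?_
    have e1 : wd g l (((g i - 1) ^ 2 : Module.End (ZMod p) N) (wd g w μ)) =
        wd g (l ++ (i :: i :: w)) μ := by
      rw [wd_append, wd_cons, wd_cons, pow_two]
      rfl
    rw [e1, h2 _ (fun σ hσ => ?_)]
    · simp
    · have hnd : (l ++ (i :: i :: w)).Nodup := by
        rw [hσ]
        exact List.nodup_ofFn.2 σ.injective
      have := (List.nodup_append.1 hnd).2.1
      simp at this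
  have hgp : ∀ i, (g i - 1) ^ p = 0 := by
    intro i
    exact pow_eq_zero_of_le hp.two_le (hsq i)
  -- commutative
  have hgc : ∀ i j, g i * g j = g j * g i := by
    intro i j
    have := hcomm i j
    rw [sub_mul, sub_mul, mul_sub, mul_sub, mul_sub, mul_sub] at this
    simp only [mul_one, one_mul] at this
    have h5 : g i * g j - g i - (g j - 1) + (g i + g j - 1) =
        g j * g i - g j - (g i - 1) + (g i + g j - 1) := by rw [this]
    have h6 : g i * g j - g i - (g j - 1) + (g i + g j - 1) = g i * g j := by abel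
    have h7 : g j * g i - g j - (g i - 1) + (g i + g j - 1) = g j * g i := by abel
    rw [h6, h7] at h5
    exact h5
  have hΓc : ∀ a ∈ Submonoid.closure (Set.range g), ∀ b ∈ Submonoid.closure (Set.range g),
      a * b = b * a := by
    intro a ha b hb
    induction ha, hb using Submonoid.closure_induction₂ with
    | mem x y hx hy =>
      obtain ⟨i, rfl⟩ := hx
      obtain ⟨j, rfl⟩ := hy
      exact hgc i j
    | one_left x _ => rw [one_mul, mul_one]
    | one_right x _ => rw [one_mul, mul_one]
    | mul_left x y z _ _ _ h h' => rw [mul_assoc, h', ← mul_assoc, h, mul_assoc]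
    | mul_right x y z _ _ _ h h' => rw [← mul_assoc, h, mul_assoc, h', mul_assoc]
  have hchar : CharP (Module.End (ZMod p) N) p ∨ ∀ A B : Module.End (ZMod p) N, A = B := by
    by_cases hNt : Nontrivial (Module.End (ZMod p) N)
    · exact Or.inl (charP_of_injective_algebraMap
        (algebraMap (ZMod p) (Module.End (ZMod p) N)).injective p)
    · rw [not_nontrivial_iff_subsingleton] at hNt
      exact Or.inr fun A B => Subsingleton.elim A B
  have hfrob : ∀ a : Module.End (ZMod p) N, (a - 1) ^ p = a ^ p - 1 := by
    intro a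
    rcases hchar with h | h
    · have h5 := add_pow_char_of_commute (p := p) (Commute.one_right (a - 1))
      rw [sub_add_cancel, one_pow] at h5
      rw [h5, add_sub_cancel_right]
    · exact h _ _
  have hΓp : ∀ a ∈ Submonoid.closure (Set.range g), (a - 1) ^ p = 0 := by
    intro a ha
    rw [hfrob, sub_eq_zero]
    induction ha using Submonoid.closure_induction with
    | mem x hx =>
      obtain ⟨i, rfl⟩ := hx
      have := hgp i
      rwa [hfrob, sub_eq_zero] at this
    | one => rw [one_pow]
    | mul x y hx hy h h' =>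
      have h5 : Commute x y := hΓc x hx y hy
      rw [h5.mul_pow, h, h', one_mul]
  have hz := hc N (Submonoid.closure (Set.range g)) ⟨hN, hΓc, hΓp⟩
    ((List.ofFn (1 : Equiv.Perm (Fin c))).map g) (by
      intro γ hγ
      obtain ⟨i, -, rfl⟩ := List.mem_map.1 hγ
      exact Submonoid.subset_closure ⟨i, rfl⟩) (by simp)
  rw [wd_map] at hz
  have h5 := h1 1
  have h6 : wd g (List.ofFn (1 : Equiv.Perm (Fin c))) = 0 := hz
  rw [h6] at h5
  simp at h5

end H43.PV
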