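import Pool.Agent.H43.PV.Defs
import Pool.Agent.H89.ProP.NilAct

/-!
# Module PV-15: the groups in `P` have bounded class

Let `BddBy (PP P) k` (with `K = ZMod p`) and `q = p ^ e`.  Then all groups `T` in `P` satisfy
`(⊤ : Subgroup T).lowerCentralSeries (2 * (e * k)) = ⊥`.

## Proof
`T` is a finite `p`-group, so nilpotent.  Let `A` be a maximal abelian normal subgroup
(`exists_max_abelian`), `h : AbNormal A`, `D = AN A h` (the group `A` written additively) and
`cj h : T →* AddMonoid.End D` the conjugation action.  By `class_bound` it is enough to show that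
`foldC (cj h) l d = 0` for all lists `l` of length `e * k` and `d ∈ D`.
(1) If `l.length = k` then for every `d` there is `b` with `foldC (cj h) l d = p • b`.  Let
    `M = D ⧸ pD` (`ModN D p`, a `ZMod p`-module in Mathlib, or
    `D ⧸ (zsmulAddGroupHom p).range` with `AddCommGroup.zmodModule`), `Γ` the submonoid of
    `Module.End (ZMod p) M` of all `γ` such that for some `t : T`,
    `γ (class of d) = class of (cj h t d)` for all `d`.  `(M, Γ)` is a section of `T`: `A`,
    `α a = class of a`, `t a t⁻¹ ∈ A`.  So `PP P M Γ`.  For every `t` there is such a `γ_t ∈ Γ` and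
    `wd id (l.map γ_·) (class of d) = class of (foldC (cj h) l d)` by induction on `l`.  By `BddBy` it is
    `0` for `l.length = k`.
(2) `foldC (cj h) l (n • d) = n • foldC (cj h) l d` (`foldC_add`).  By induction on `j`: if
    `l.length = j * k` then `foldC (cj h) l d ∈ p ^ j • D`.  (`foldC_append`.)
(3) `p ^ e • d = 0` for `d ∈ D`, as `x ^ q = 1` in `T` (`Cls.exp`, `AN.val_nsmul`).
-/

set_option autoImplicit false

namespace H43.PV

open H89.ProP

section Aux

variable {G W : Type} [Group G] [AddCommGroup W] (v : G →* AddMonoid.End W)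

theorem cb_foldC_nsmul (l : List G) (n : ℕ) (d : W) :
    foldC v l (n • d) = n • foldC v l d := by
  induction n with
  | zero => rw [zero_smul, zero_smul, foldC_zero]
  | succ n ih => rw [succ_nsmul, succ_nsmul, foldC_add, ih]

/-- divisibility by powers of `p` -/
theorem cb_div (p k : ℕ) (h : ∀ l : List G, l.length = k → ∀ d, ∃ b, foldC v l d = p • b)
    (j : ℕ) : ∀ l : List G, l.length = j * k → ∀ d, ∃ b, foldC v l d = (p ^ j) • b := by
  induction j with
  | zero =>
    intro l _ d
    exact ⟨foldC v l d, by rw [pow_zero, one_smul]⟩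
  | succ j ih =>
    intro l hl d
    have h0 : l.length = j * k + k := by rw [hl]; ring
    have h1 : l = l.take (j * k) ++ l.drop (j * k) := (List.take_append_drop _ _).symm
    have h2 : (l.take (j * k)).length = j * k := by rw [List.length_take]; omega
    have h3 : (l.drop (j * k)).length = k := by rw [List.length_drop]; omega
    obtain ⟨b, hb⟩ := h _ h3 d
    obtain ⟨b', hb'⟩ := ih _ h2 b
    refine ⟨b', ?_⟩
    rw [h1, foldC_append, hb, cb_foldC_nsmul, hb', smul_smul, pow_succ, mul_comm]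

/-- the subgroup `p W` -/
def cbR (W : Type) [AddCommGroup W] (p : ℕ) : AddSubgroup W := (nsmulAddMonoidHom (α := W) p).range

theorem cb_mem_R {p : ℕ} {d : W} : d ∈ cbR W p ↔ ∃ b, p • b = d := by
  unfold cbR
  rw [AddMonoidHom.mem_range]
  rfl

theorem cb_pM (p : ℕ) (x : W ⧸ cbR W p) : p • x = 0 := by
  obtain ⟨d, rfl⟩ := QuotientAddGroup.mk'_surjective (cbR W p) x
  rw [← map_nsmul]
  exact (QuotientAddGroup.eq_zero_iff _).mpr (cb_mem_R.mpr ⟨d, rfl⟩)

/-- `W / pW` is a vector space -/
noncomputable instance cbMod (p : ℕ) : Module (ZMod p) (W ⧸ cbR W p) :=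
  AddCommGroup.zmodModule (cb_pM p)

theorem cb_le (p : ℕ) (f : W →+ W) :
    cbR W p ≤ (cbR W p).comap f := by
  intro d hd
  obtain ⟨b, rfl⟩ := cb_mem_R.mp hd
  rw [AddSubgroup.mem_comap]
  refine cb_mem_R.mpr ⟨f b, ?_⟩
  exact (map_nsmul f p b).symm

/-- the operator induced on `W / pW` -/
noncomputable def cbOp (p : ℕ) (f : AddMonoid.End W) : Module.End (ZMod p) (W ⧸ cbR W p) :=
  AddMonoidHom.toZModLinearMap p (QuotientAddGroup.map (cbR W p) (cbR W p) f (cb_le p f))

theorem cbOp_mk (p : ℕ) (f : AddMonoid.End W) (d : W) :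
    cbOp p f (QuotientAddGroup.mk' (cbR W p) d) = QuotientAddGroup.mk' (cbR W p) (f d) := rfl

/-- the submonoid of the induced operators -/
def cbG (p : ℕ) : Submonoid (Module.End (ZMod p) (W ⧸ cbR W p)) where
  carrier := {γ | ∃ t : G, ∀ d : W,
    γ (QuotientAddGroup.mk' (cbR W p) d) = QuotientAddGroup.mk' (cbR W p) (v t d)}
  one_mem' := by
    refine ⟨1, fun d => ?_⟩
    rw [map_one]
    rfl
  mul_mem' := by
    rintro γ δ ⟨s, hs⟩ ⟨t, ht⟩
    refine ⟨s * t, fun d => ?_⟩
    rw [Module.End.mul_apply, ht, hs, map_mul]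
    rfl

theorem cbOp_mem (p : ℕ) (t : G) : cbOp p (v t) ∈ cbG v p := ⟨t, fun d => cbOp_mk p (v t) d⟩

theorem cb_wd (p : ℕ) [Fact p.Prime] (l : List G) (d : W) :
    wd id (l.map fun t => cbOp p (v t)) (QuotientAddGroup.mk' (cbR W p) d) =
      QuotientAddGroup.mk' (cbR W p) (foldC v l d) := by
  induction l with
  | nil => rfl
  | cons a l ih =>
    rw [List.map_cons, wd_cons_apply, ih, foldC_cons, map_sub]
    rfl

end Aux

variable {p : ℕ} [Fact p.Prime] {P : (G : Type) → [Group G] → Prop}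

theorem class_of_bdd {e k : ℕ} (hP : Cls p (p ^ e) P) (hk : BddBy (PP (K := ZMod p) P) k)
    (T : Type) [Group T] (hT : P T) :
    (⊤ : Subgroup T).lowerCentralSeries (2 * (e * k)) = ⊥ := by
  have hfin : Finite T := hP.fin T hT
  have hpg : IsPGroup p T := hP.pg T hT
  have hnil : Group.IsNilpotent T := hpg.isNilpotent
  obtain ⟨A, h, hself⟩ := exists_max_abelian (G := T)
  refine class_bound h hself (e * k) ?_
  have hsec : PP (K := ZMod p) P (AN A h ⧸ cbR (AN A h) p) (cbG (cj h) p) := by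
    refine ⟨T, inferInstance, hT, A, MonoidHom.mk' (fun a => Multiplicative.ofAdd
      (QuotientAddGroup.mk' (cbR (AN A h) p) (AN.mk h a.1 a.2))) ?_, ?_, ?_⟩
    · intro a b
      rw [← ofAdd_add, ← map_add]
      rfl
    · intro x
      obtain ⟨d, hd⟩ := QuotientAddGroup.mk'_surjective (cbR (AN A h) p) x.toAdd
      refine ⟨⟨AN.val h d, AN.val_mem h d⟩, ?_⟩
      apply Multiplicative.toAdd.injective
      rw [← hd]
      rfl
    · rintro γ ⟨t, ht⟩
      refine ⟨t, fun a => ⟨⟨t * a.1 * t⁻¹, h.normal.conj_mem _ a.2 t⟩, rfl, ?_⟩⟩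
      exact (ht (AN.mk h a.1 a.2)).symm
  have h1 : ∀ l : List T, l.length = k → ∀ d, ∃ b, foldC (cj h) l d = p • b := by
    intro l hl d
    have h2 := hk _ _ hsec (l.map fun t => cbOp p (cj h t)) (by
      intro γ hγ
      obtain ⟨t, _, rfl⟩ := List.mem_map.mp hγ
      exact cbOp_mem (cj h) p t) (by rw [List.length_map, hl])
    have h3 := cb_wd (cj h) p l d
    rw [h2] at h3
    have h4 : foldC (cj h) l d ∈ cbR (AN A h) p := (QuotientAddGroup.eq_zero_iff _).mp h3.symm
    obtain ⟨b, hb⟩ := cb_mem_R.mp h4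
    exact ⟨b, hb.symm⟩
  intro l hl d
  obtain ⟨b, hb⟩ := cb_div (cj h) p k h1 e l hl d
  rw [hb]
  apply AN.val_injective h
  rw [AN.val_nsmul, hP.exp T hT, AN.val_zero]

end H43.PV
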