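import Mathlib
import Pool.Agent.H89.ProP.NilAct

/-!
# MP_36c61b_al: definitions

Pairs `(M, Γ)`: `M` is a vector space over `K`, `Γ` a submonoid of `End M`.  (In all applications
`M` is finite and the elements of `Γ` are unipotent, of order dividing `q`.)

The complete paper proof is entry 181 of the table `proofs`.
-/

set_option autoImplicit false

namespace H43.PV

/-- classes of pairs `(M, Γ)` -/
abbrev PairClass (K : Type) [Field K] : Type 1 :=
  (M : Type) → [AddCommGroup M] → [Module K M] → Submonoid (Module.End K M) → Prop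

section Words

variable {K : Type} [Field K] {M : Type} [AddCommGroup M] [Module K M] {ι : Type}

/-- the action of the word `l` in the operators `g i - 1` -/
def wd (g : ι → Module.End K M) (l : List ι) : Module.End K M :=
  (l.map fun i => g i - 1).prod

@[simp] theorem wd_nil (g : ι → Module.End K M) : wd g [] = 1 := rfl

@[simp] theorem wd_cons (g : ι → Module.End K M) (i : ι) (l : List ι) :
    wd g (i :: l) = (g i - 1) * wd g l := by
  simp [wd]

theorem wd_append (g : ι → Module.End K M) (l l' : List ι) :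
    wd g (l ++ l') = wd g l * wd g l' := by
  simp [wd]

theorem wd_singleton (g : ι → Module.End K M) (i : ι) : wd g [i] = g i - 1 := by
  simp [wd]

theorem wd_cons_apply (g : ι → Module.End K M) (i : ι) (l : List ι) (m : M) :
    wd g (i :: l) m = g i (wd g l m) - wd g l m := by
  simp

theorem wd_map {κ : Type} (g : ι → Module.End K M) (f : κ → ι) (l : List κ) :
    wd g (l.map f) = wd (g ∘ f) l := by
  simp [wd, Function.comp_def]

end Words

/-- `γ'` acting on `N` is lifted by `γ` acting on `M`; here `N` is a section of `M` given by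
`ι : B → M` and `π : B → N`. -/
def Lift {M N B : Type} (i : B → M) (π : B → N) (γ : M → M) (γ' : N → N) : Prop :=
  ∀ b, ∃ b', i b' = γ (i b) ∧ π b' = γ' (π b)

theorem Lift.one {M N B : Type} (i : B → M) (π : B → N) : Lift i π (fun x => x) (fun x => x) :=
  fun b => ⟨b, rfl, rfl⟩

theorem Lift.comp {M N B : Type} {i : B → M} {π : B → N} {γ δ : M → M} {γ' δ' : N → N}
    (h : Lift i π γ γ') (h' : Lift i π δ δ') :
    Lift i π (fun x => γ (δ x)) (fun x => γ' (δ' x)) := by
  intro b
  obtain ⟨b', h1, h2⟩ := h' b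
  obtain ⟨b'', h3, h4⟩ := h b'
  exact ⟨b'', by rw [h3, h1], by rw [h4, h2]⟩

/-- the lifting condition may be checked on generators -/
theorem lift_closure {K : Type} [Field K] {M N B : Type} [AddCommGroup M] [Module K M]
    [AddCommGroup N] [Module K N] {i : B → M} {π : B → N} (Γ : Submonoid (Module.End K M))
    (s : Set (Module.End K N)) (h : ∀ γ' ∈ s, ∃ γ ∈ Γ, Lift i π γ γ') :
    ∀ γ' ∈ Submonoid.closure s, ∃ γ ∈ Γ, Lift i π γ γ' := by
  intro γ' hγ'
  induction hγ' using Submonoid.closure_induction with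
  | mem x hx => exact h x hx
  | one => exact ⟨1, Γ.one_mem, Lift.one i π⟩
  | mul x y _ _ hx hy =>
    obtain ⟨a, ha, ha'⟩ := hx
    obtain ⟨b, hb, hb'⟩ := hy
    exact ⟨a * b, Γ.mul_mem ha hb, ha'.comp hb'⟩

/-- A class of pairs closed under sections, binary products and powers. -/
structure IsClass {K : Type} [Field K] (S : PairClass K) : Prop where
  div : ∀ (M N B : Type) [AddCommGroup M] [Module K M] [AddCommGroup N] [Module K N]
    [AddCommGroup B] [Module K B] (Γ : Submonoid (Module.End K M))
    (Γ' : Submonoid (Module.End K N)) (i : B →ₗ[K] M) (π : B →ₗ[K] N), S M Γ →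
    (∀ b, i b = 0 → π b = 0) → Function.Surjective π →
    (∀ γ' ∈ Γ', ∃ γ ∈ Γ, Lift i π γ γ') → S N Γ'
  prod : ∀ (M N : Type) [AddCommGroup M] [Module K M] [AddCommGroup N] [Module K N]
    (Γ : Submonoid (Module.End K M)) (Δ : Submonoid (Module.End K N))
    (Θ : Submonoid (Module.End K (M × N))), S M Γ → S N Δ →
    (∀ θ ∈ Θ, ∃ γ ∈ Γ, ∃ δ ∈ Δ, ∀ x : M × N, θ x = (γ x.1, δ x.2)) → S (M × N) Θ
  pow : ∀ (M X : Type) [AddCommGroup M] [Module K M] [Finite X] [Nonempty X]
    (Γ : Submonoid (Module.End K M)) (Θ : Submonoid (Module.End K (X → M))), S M Γ →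
    (∀ θ ∈ Θ, ∃ γ : X → Module.End K M, (∀ x, γ x ∈ Γ) ∧ ∀ (m : X → M) (x : X),
      θ m x = γ x (m x)) → S (X → M) Θ

/-- the submonoid `Ext H` of `End (K × Q)`: the maps `(a, x) ↦ (a, h x + a q)` -/
def ext {K : Type} [Field K] {Q : Type} [AddCommGroup Q] [Module K Q]
    (H : Submonoid (Module.End K Q)) : Submonoid (Module.End K (K × Q)) where
  carrier := {e | ∃ h ∈ H, ∃ q : Q, ∀ x : K × Q, e x = (x.1, h x.2 + x.1 • q)}
  one_mem' := ⟨1, H.one_mem, 0, fun x => by simp⟩
  mul_mem' := by
    rintro e e' ⟨h, hh, q, he⟩ ⟨h', hh', q', he'⟩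
    refine ⟨h * h', H.mul_mem hh hh', h q' + q, fun x => ?_⟩
    rw [Module.End.mul_apply, he', he]
    simp only [map_add, map_smul, smul_add, Module.End.mul_apply, Prod.mk.injEq, true_and]
    abel

/-- the derived class -/
def derived {K : Type} [Field K] (S : PairClass K) : PairClass K :=
  fun Q _ _ H => S (K × Q) (ext H)

/-- `lam` is the coefficient function of a member of `S`: the words are evaluated at the vector `μ`
and at the functional `φ`; the values at the permutation words are given by `lam`, the values at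
all other words are zero. -/
def Coef {K : Type} [Field K] (S : PairClass K) (n : ℕ) (lam : Equiv.Perm (Fin n) → K) : Prop :=
  ∃ (M : Type) (_ : AddCommGroup M) (_ : Module K M) (Γ : Submonoid (Module.End K M))
    (g : Fin n → Module.End K M) (μ : M) (φ : M →ₗ[K] K), S M Γ ∧ (∀ i, g i ∈ Γ) ∧
    (∀ σ : Equiv.Perm (Fin n), φ (wd g (List.ofFn σ) μ) = lam σ) ∧
    ∀ l : List (Fin n), (∀ σ : Equiv.Perm (Fin n), l ≠ List.ofFn σ) → φ (wd g l μ) = 0

/-- all products of `k` operators `γ - 1`, `γ ∈ Γ`, vanish -/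
def BddBy {K : Type} [Field K] (S : PairClass K) (k : ℕ) : Prop :=
  ∀ (M : Type) [AddCommGroup M] [Module K M] (Γ : Submonoid (Module.End K M)), S M Γ →
    ∀ l : List (Module.End K M), (∀ γ ∈ l, γ ∈ Γ) → l.length = k → wd id l = 0

/-- the properties of the pairs coming from finite `p`-groups of exponent dividing `q` -/
structure Good {K : Type} [Field K] (q : ℕ) (M : Type) [AddCommGroup M] [Module K M]
    (Γ : Submonoid (Module.End K M)) : Prop where
  fin : Finite M
  pow : ∀ γ ∈ Γ, γ ^ q = 1
  nil : ∃ L : ℕ, ∀ l : List (Module.End K M), (∀ γ ∈ l, γ ∈ Γ) → l.length = L → wd id l = 0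

/-- `(M, Γ)` is a section of the group `T`. -/
def IsSec {K : Type} [Field K] (T : Type) [Group T] (M : Type) [AddCommGroup M] [Module K M]
    (Γ : Submonoid (Module.End K M)) : Prop :=
  ∃ (A : Subgroup T) (α : A →* Multiplicative M), Function.Surjective α ∧
    ∀ γ ∈ Γ, ∃ t : T, ∀ a : A, ∃ a' : A, (a' : T) = t * a * t⁻¹ ∧
      (α a').toAdd = γ (α a).toAdd

/-- A class of finite `p`-groups of exponent dividing `q`, closed under subgroups, quotients and
finite products, in which locally nilpotent subclasses have bounded class. -/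
structure Cls (p q : ℕ) (P : (G : Type) → [Group G] → Prop) : Prop extends
    H89.ProP.FinVar p P where
  prod : ∀ (G H : Type) [Group G] [Group H], P G → P H → P (G × H)
  exp : ∀ (G : Type) [Group G], P G → ∀ x : G, x ^ q = 1
  H1 : ∀ f : ℕ → ℕ, ∃ k : ℕ, ∀ (G : Type) [Group G], P G →
    (∀ (r : ℕ) (t : Fin r → G), (Subgroup.closure (Set.range t)).lowerCentralSeries (f r) = ⊥) →
    (⊤ : Subgroup G).lowerCentralSeries k = ⊥

/-- the pairs which are sections of groups in `P` -/
def PP {K : Type} [Field K] (P : (G : Type) → [Group G] → Prop) : PairClass K :=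
  fun M _ _ Γ => ∃ (T : Type) (_ : Group T), P T ∧ IsSec T M Γ

/-- inclusion of classes of pairs -/
def Sub {K : Type} [Field K] (S S' : PairClass K) : Prop :=
  ∀ (M : Type) [AddCommGroup M] [Module K M] (Γ : Submonoid (Module.End K M)), S M Γ → S' M Γ

end H43.PV
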