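import Pool.Agent.H43.PV.Defs

/-!
# Module PV-5: the derived class is a class

`derived S Q H = S (K × Q) (ext H)`.

* `div`: given `i : B → Q`, `π : B → N`, use `B' = K × B`, `id × i : K × B → K × Q`,
  `id × π : K × B → K × N` (`LinearMap.prodMap LinearMap.id i`).  An element
  `(a, n) ↦ (a, h' n + a n0)` of `ext H'` is lifted by `(a, x) ↦ (a, h x + a (i b0))` where `h ∈ H`
  lifts `h'` and `π b0 = n0` (`π` is surjective).
* `prod`: `derived S Q H`, `derived S R J`, `Θ` a submonoid of `End (Q × R)`.  By `prod` for `S`,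
  `S ((K × Q) × (K × R)) Θ'` with `Θ' = {θ | θ = (e, e') for some e ∈ ext H, e' ∈ ext J}`.  Now use
  `div` for `S` with `B = K × (Q × R)`, `i (a, (x, y)) = ((a, x), (a, y))` (injective), `π = id`.
* `pow`: similarly; `S (X → K × Q) Θ'` and `i : K × (X → Q) → (X → K × Q)`,
  `i (a, f) = fun x => (a, f x)`, which is injective as `X` is non-empty.
* `derived_sub`: `div` for `S` with `B = Q`, `i : Q → K × Q`, `x ↦ (0, x)`, `π = id`; `h ∈ H` is
  lifted by `(a, x) ↦ (a, h x)`, an element of `ext H`.
-/

set_option autoImplicit false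

namespace H43.PV

variable {K : Type} [Field K] {S : PairClass K}

/-- the full product submonoid -/
def prodSub {M N : Type} [AddCommGroup M] [Module K M] [AddCommGroup N] [Module K N]
    (Γ : Submonoid (Module.End K M)) (Δ : Submonoid (Module.End K N)) :
    Submonoid (Module.End K (M × N)) where
  carrier := {θ | ∃ γ ∈ Γ, ∃ δ ∈ Δ, ∀ x : M × N, θ x = (γ x.1, δ x.2)}
  one_mem' := ⟨1, Γ.one_mem, 1, Δ.one_mem, fun x => rfl⟩
  mul_mem' := by
    rintro θ θ' ⟨γ, hγ, δ, hδ, h⟩ ⟨γ', hγ', δ', hδ', h'⟩
    refine ⟨γ * γ', Γ.mul_mem hγ hγ', δ * δ', Δ.mul_mem hδ hδ', fun x => ?_⟩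
    rw [Module.End.mul_apply, h', h]
    rfl

/-- the full power submonoid -/
def powSub (X : Type) {M : Type} [AddCommGroup M] [Module K M]
    (Γ : Submonoid (Module.End K M)) : Submonoid (Module.End K (X → M)) where
  carrier := {θ | ∃ γ : X → Module.End K M, (∀ x, γ x ∈ Γ) ∧ ∀ (m : X → M) (x : X),
      θ m x = γ x (m x)}
  one_mem' := ⟨1, fun _ => Γ.one_mem, fun m x => rfl⟩
  mul_mem' := by
    rintro θ θ' ⟨γ, hγ, h⟩ ⟨γ', hγ', h'⟩
    refine ⟨γ * γ', fun x => Γ.mul_mem (hγ x) (hγ' x), fun m x => ?_⟩
    rw [Module.End.mul_apply, h, h']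
    rfl

theorem derived_isClass (hS : IsClass S) : IsClass (derived S) := by
  constructor
  · intro M N B _ _ _ _ _ _ Γ Γ' i π hM hi hπ hl
    refine hS.div (K × M) (K × N) (K × B) (ext Γ) (ext Γ') (LinearMap.id.prodMap i)
      (LinearMap.id.prodMap π) hM ?_ ?_ ?_
    · rintro ⟨a, b⟩ hb
      have h1 : a = 0 := congrArg Prod.fst hb
      have h2 : i b = 0 := congrArg Prod.snd hb
      exact Prod.ext h1 (hi b h2)
    · rintro ⟨a, n⟩
      obtain ⟨b, rfl⟩ := hπ n
      exact ⟨(a, b), rfl⟩
    · rintro ε ⟨h', hh', n0, hε⟩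
      obtain ⟨h, hh, hlift⟩ := hl h' hh'
      obtain ⟨b0, rfl⟩ := hπ n0
      let e : Module.End K (K × M) :=
        { toFun := fun x => (x.1, h x.2 + x.1 • i b0)
          map_add' := by
            intro x y
            simp only [Prod.fst_add, Prod.snd_add, map_add, add_smul, Prod.mk_add_mk,
              Prod.mk.injEq, true_and]
            abel
          map_smul' := by
            intro c x
            simp [smul_add, mul_smul] }
      refine ⟨e, ⟨h, hh, i b0, fun x => rfl⟩, ?_⟩
      rintro ⟨a, b⟩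
      obtain ⟨b', hb1, hb2⟩ := hlift b
      refine ⟨(a, b' + a • b0), ?_, ?_⟩
      · change (a, i (b' + a • b0)) = (a, h (i b) + a • i b0)
        rw [map_add, map_smul, hb1]
      · rw [hε]
        change (a, π (b' + a • b0)) = (a, h' (π b) + a • π b0)
        rw [map_add, map_smul, hb2]
  · intro M N _ _ _ _ Γ Δ Θ hM hN hΘ
    have h1 := hS.prod (K × M) (K × N) (ext Γ) (ext Δ) (prodSub (ext Γ) (ext Δ)) hM hN
      (fun θ hθ => hθ)
    let i : (K × (M × N)) →ₗ[K] (K × M) × (K × N) :=
      { toFun := fun x => ((x.1, x.2.1), (x.1, x.2.2))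
        map_add' := fun _ _ => rfl
        map_smul' := fun _ _ => rfl }
    refine hS.div ((K × M) × (K × N)) (K × (M × N)) (K × (M × N)) _ (ext Θ) i LinearMap.id h1
      ?_ Function.surjective_id ?_
    · rintro ⟨a, x, y⟩ h
      have h2 : ((a, x), (a, y)) = (((0, 0), (0, 0)) : (K × M) × (K × N)) := h
      simp only [Prod.mk.injEq] at h2
      obtain ⟨⟨h2, h3⟩, -, h4⟩ := h2
      subst h2 h3 h4
      rfl
    · rintro ε ⟨θ, hθ, ⟨q1, q2⟩, hε⟩
      obtain ⟨γ, hγ, δ, hδ, hθ'⟩ := hΘ θ hθ
      let e1 : Module.End K (K × M) :=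
        { toFun := fun x => (x.1, γ x.2 + x.1 • q1)
          map_add' := by
            intro x y
            simp only [Prod.fst_add, Prod.snd_add, map_add, add_smul, Prod.mk_add_mk,
              Prod.mk.injEq, true_and]
            abel
          map_smul' := by
            intro c x
            simp [smul_add, mul_smul] }
      let e2 : Module.End K (K × N) :=
        { toFun := fun x => (x.1, δ x.2 + x.1 • q2)
          map_add' := by
            intro x y
            simp only [Prod.fst_add, Prod.snd_add, map_add, add_smul, Prod.mk_add_mk,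
              Prod.mk.injEq, true_and]
            abel
          map_smul' := by
            intro c x
            simp [smul_add, mul_smul] }
      refine ⟨e1.prodMap e2, ⟨e1, ⟨γ, hγ, q1, fun x => rfl⟩, e2, ⟨δ, hδ, q2, fun x => rfl⟩,
        fun x => rfl⟩, ?_⟩
      rintro ⟨a, x, y⟩
      refine ⟨ε (a, x, y), ?_, rfl⟩
      rw [hε, hθ']
      rfl
  · intro M X _ _ _ _ Γ Θ hM hΘ
    have h1 := hS.pow (K × M) X (ext Γ) (powSub X (ext Γ)) hM (fun θ hθ => hθ)
    let i : (K × (X → M)) →ₗ[K] (X → K × M) :=
      { toFun := fun x y => (x.1, x.2 y)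
        map_add' := fun _ _ => rfl
        map_smul' := fun _ _ => rfl }
    refine hS.div (X → K × M) (K × (X → M)) (K × (X → M)) _ (ext Θ) i LinearMap.id h1
      ?_ Function.surjective_id ?_
    · rintro ⟨a, f⟩ h
      obtain ⟨x0⟩ := (inferInstance : Nonempty X)
      have h2 : ∀ x, ((a, f x) : K × M) = (0, 0) := fun x => congrFun h x
      have h3 : a = 0 := congrArg Prod.fst (h2 x0)
      have h4 : f = 0 := funext fun x => congrArg Prod.snd (h2 x)
      subst h3 h4
      rfl
    · rintro ε ⟨θ, hθ, q, hε⟩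
      obtain ⟨γ, hγ, hθ'⟩ := hΘ θ hθ
      let e : X → Module.End K (K × M) := fun y =>
        { toFun := fun x => (x.1, γ y x.2 + x.1 • q y)
          map_add' := by
            intro x y
            simp only [Prod.fst_add, Prod.snd_add, map_add, add_smul, Prod.mk_add_mk,
              Prod.mk.injEq, true_and]
            abel
          map_smul' := by
            intro c x
            simp [smul_add, mul_smul] }
      let e' : Module.End K (X → K × M) :=
        { toFun := fun m y => e y (m y)
          map_add' := by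
            intro m m'
            funext y
            exact map_add _ _ _
          map_smul' := by
            intro c m
            funext y
            exact (e y).map_smul c (m y) }
      refine ⟨e', ⟨e, fun y => ⟨γ y, hγ y, q y, fun x => rfl⟩, fun m y => rfl⟩, ?_⟩
      rintro ⟨a, f⟩
      refine ⟨ε (a, f), ?_, rfl⟩
      rw [hε]
      funext y
      change (a, θ f y + a • q y) = (a, γ y (f y) + a • q y)
      rw [hθ']

theorem derived_sub (hS : IsClass S) : Sub (derived S) S := by
  intro M _ _ Γ hM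
  refine hS.div (K × M) M M (ext Γ) Γ (LinearMap.inr K K M) LinearMap.id hM ?_
    Function.surjective_id ?_
  · intro b hb
    exact congrArg Prod.snd hb
  · intro γ hγ
    refine ⟨LinearMap.id.prodMap γ, ⟨γ, hγ, 0, fun x => ?_⟩, fun b => ⟨γ b, ?_, rfl⟩⟩
    · rw [smul_zero, add_zero]
      rfl
    · rfl

end H43.PV
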