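import Mathlib

/-!
# Module PV-3: finite dimensional duality

`D` is a set of functions `X → K`, `X` finite, closed under addition and scalar multiplication
(possibly empty).

(1) If `1 ∉ D` then some `f` is orthogonal to `D` and has `∑ x, f x = 1`.
Proof: let `D'` be the span of `D`; `D' = D` or `D' = 0`, so `1 ∉ D'` unless `1 = 0`, i.e. unless
`X` is empty; we assume `X` non-empty.  A functional on `X → K` vanishing on `D'` and not at `1`
(`Submodule.exists_le_ker_of_notMem` or similar), normalised; a functional on `X → K` is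
`lam ↦ ∑ x, f x * lam x` with `f x` its value at `Pi.single x 1`.

(2) Let `Z ⊆ X`, `x0 ∉ Z` and suppose that every `lam ∈ D` vanishing on `Z` vanishes at `x0`.  Then
there is `c : X → K` orthogonal to `D`, with `c x0 = 1` and `c x = 0` for `x ∉ Z`, `x ≠ x0`.
Proof: let `D'` be the span of `D` (every element of `D'` is `0` or in `D`).  On `D'` the linear
form `lam ↦ lam x0` vanishes on the intersection of the kernels of the forms `lam ↦ lam x`,
`x ∈ Z`, so it is a linear combination of them (`mem_span_of_iInf_ker_le_ker`).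
-/

set_option autoImplicit false

namespace H43.PV

variable {K X : Type} [Field K] [Fintype X]

omit [Fintype X] in
theorem dual_span (D : Set (X → K)) (hadd : ∀ a ∈ D, ∀ b ∈ D, a + b ∈ D)
    (hsmul : ∀ (c : K), ∀ a ∈ D, c • a ∈ D) (lam : X → K) (h : lam ∈ Submodule.span K D) :
    lam = 0 ∨ lam ∈ D := by
  induction h using Submodule.span_induction with
  | mem x hx => exact Or.inr hx
  | zero => exact Or.inl rfl
  | add x y _ _ hx hy =>
    rcases hx with rfl | hx
    · rwa [zero_add]
    · rcases hy with rfl | hy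
      · rw [add_zero]; exact Or.inr hx
      · exact Or.inr (hadd _ hx _ hy)
  | smul a x _ hx =>
    rcases hx with rfl | hx
    · rw [smul_zero]; exact Or.inl rfl
    · exact Or.inr (hsmul a x hx)

theorem dual_one [Nonempty X] (D : Set (X → K)) (hadd : ∀ a ∈ D, ∀ b ∈ D, a + b ∈ D)
    (hsmul : ∀ (c : K), ∀ a ∈ D, c • a ∈ D) (h1 : (fun _ => (1 : K)) ∉ D) :
    ∃ f : X → K, (∀ lam ∈ D, ∑ x, f x * lam x = 0) ∧ ∑ x, f x = 1 := by
  classical
  have h2 : (fun _ => (1 : K) : X → K) ∉ Submodule.span K D := by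
    intro h
    rcases dual_span D hadd hsmul _ h with h3 | h3
    · obtain ⟨x⟩ := (inferInstance : Nonempty X)
      exact one_ne_zero (congrFun h3 x)
    · exact h1 h3
  obtain ⟨φ, hφ, hD⟩ := Submodule.exists_le_ker_of_notMem h2
  have hrep : ∀ lam : X → K, φ lam = ∑ x, φ (Pi.single x 1) * lam x := by
    intro lam
    have h3 : lam = ∑ x, lam x • (Pi.single x 1 : X → K) := by
      funext y
      simp [Finset.sum_apply, Pi.single_apply]
    conv_lhs => rw [h3]
    rw [map_sum]
    refine Finset.sum_congr rfl fun x _ => ?_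
    rw [map_smul, smul_eq_mul, mul_comm]
  refine ⟨fun x => (φ fun _ => 1)⁻¹ * φ (Pi.single x 1), fun lam hlam => ?_, ?_⟩
  · have h4 : φ lam = 0 := hD (Submodule.subset_span hlam)
    rw [hrep] at h4
    calc ∑ x, (φ fun _ => 1)⁻¹ * φ (Pi.single x 1) * lam x
        = (φ fun _ => 1)⁻¹ * ∑ x, φ (Pi.single x 1) * lam x := by
          rw [Finset.mul_sum]
          exact Finset.sum_congr rfl fun x _ => mul_assoc _ _ _
      _ = 0 := by rw [h4, mul_zero]
  · have h5 := hrep (fun _ => 1)
    simp only [mul_one] at h5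
    rw [← Finset.mul_sum, ← h5, inv_mul_cancel₀ hφ]

theorem dual_two (D : Set (X → K)) (hadd : ∀ a ∈ D, ∀ b ∈ D, a + b ∈ D)
    (hsmul : ∀ (c : K), ∀ a ∈ D, c • a ∈ D) (Z : Set X) (x0 : X) (hx0 : x0 ∉ Z)
    (h : ∀ lam ∈ D, (∀ x ∈ Z, lam x = 0) → lam x0 = 0) :
    ∃ c : X → K, (∀ lam ∈ D, ∑ x, c x * lam x = 0) ∧ c x0 = 1 ∧
      ∀ x, x ∉ Z → x ≠ x0 → c x = 0 := by
  classical
  let D' : Submodule K (X → K) := Submodule.span K D
  let ev : X → Module.Dual K D' := fun x => (LinearMap.proj x).comp D'.subtype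
  have hmem : ev x0 ∈ Submodule.span K (Set.range fun z : Z => ev z) := by
    refine mem_span_of_iInf_ker_le_ker (L := fun z : Z => ev z) ?_
    intro lam hlam
    rw [LinearMap.mem_ker]
    rcases dual_span D hadd hsmul lam lam.2 with h1 | h1
    · change (lam : X → K) x0 = 0
      rw [h1]
      rfl
    · refine h _ h1 fun x hx => ?_
      have := (Submodule.mem_iInf _).1 hlam ⟨x, hx⟩
      exact this
  obtain ⟨c, hc⟩ := (Submodule.mem_span_range_iff_exists_fun K).1 hmem
  refine ⟨fun x => if hx : x ∈ Z then - c ⟨x, hx⟩ else if x = x0 then 1 else 0, ?_, ?_, ?_⟩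
  · intro lam hlam
    have h1 : lam x0 = ∑ z : Z, c z * lam z := by
      have := LinearMap.congr_fun hc ⟨lam, Submodule.subset_span hlam⟩
      simpa [ev] using this.symm
    have h2 : ∀ x, (if hx : x ∈ Z then - c ⟨x, hx⟩ else if x = x0 then 1 else 0) * lam x =
        (if hx : x ∈ Z then - (c ⟨x, hx⟩ * lam x) else 0) + (if x = x0 then lam x0 else 0) := by
      intro x
      by_cases hx : x ∈ Z
      · have : x ≠ x0 := fun h' => hx0 (h' ▸ hx)
        simp [hx, this]
      · by_cases hx' : x = x0
        · subst hx'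
          simp [hx]
        · simp [hx, hx']
    simp_rw [h2]
    rw [Finset.sum_add_distrib, Finset.sum_ite_eq' Finset.univ x0, if_pos (Finset.mem_univ _), h1]
    have h3 : ∑ x, (if hx : x ∈ Z then - (c ⟨x, hx⟩ * lam x) else 0) =
        - ∑ z : Z, c z * lam z := by
      rw [← Finset.sum_neg_distrib]
      have h4 : ∀ z : Z, -(c z * lam z) =
          (fun x => if hx : x ∈ Z then - (c ⟨x, hx⟩ * lam x) else 0) z := by
        intro z
        simp
      rw [Finset.sum_congr rfl fun z _ => h4 z,
        ← Finset.sum_subtype (Finset.univ.filter (· ∈ Z)) (by simp)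
          (fun x => if hx : x ∈ Z then - (c ⟨x, hx⟩ * lam x) else 0), Finset.sum_filter]
      refine Finset.sum_congr rfl fun x _ => ?_
      by_cases hx : x ∈ Z <;> simp [hx]
    rw [h3, neg_add_cancel]
  · simp [hx0]
  · intro x hx hx'
    simp [hx, hx']

end H43.PV
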