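import Mathlib

/-!
# Module PV-1: an Engel-Jacobson theorem (Theorem T')

`W` is a ring, `L0` a subset closed under `a * b - b * a`, `M` a non-zero left `W`-module with
`l ^ d • m = 0` for `l ∈ L0`, and if `h • μ = 0` for all `h` in a list `hs` of length `k` of
elements of `L0` then `(hs.prod * l) • μ = 0` for all `l ∈ L0`.  Then every finite subset of `L0`
kills a common non-zero vector.

## Proof
Call `A ⊆ L0` *good* if for every finite `S ⊆ A` there is `μ ≠ 0` with `s • μ = 0` for `s ∈ S`.
`∅` is good and unions of chains of good sets are good, so (`zorn_subset`) there is a maximal good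
`A`; we show `A = L0`.  Suppose `x ∈ L0 \ A`.

(1) If `h_1, ..., h_k ∈ A` and `x ∈ L0`, then `v' = [h_1, [h_2, ... [h_k, x]]]` (`[a,b] = ab - ba`)
is in `A`: `v' ∈ L0`, and `A ∪ {v'}` is good, because for finite `S ⊆ A` there is `μ ≠ 0` killed by
`S` and by the `h_i`, and then `v' • μ = (h_1 ... h_k x) • μ = 0` (all other terms of the
commutator end with an `h_i`).  By maximality `v' ∈ A`.
(2) Hence there is `v ∈ L0 \ A` with `[h, v] ∈ A` for all `h ∈ A`: otherwise, starting with
`x_0 = x`, choose `h_j ∈ A` with `x_{j+1} = [h_j, x_j] ∈ L0 \ A`; `x_k` contradicts (1).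
(3) `A ∪ {v}` is good: let `S ⊆ A` be finite.  For `s ∈ S` put `s_0 = s`, `s_{t+1} = [s_t, v]`,
all in `A`.  Take `μ ≠ 0` killed by all `s_t`, `t < d`.  Since `s v^j = ∑ t, C(j,t) v^(j-t) s_t`
(or: by induction on `j`, every `s_t` kills `v^j • μ` for `t + j < d`...), `s • v^j • μ = 0` for
`j < d`.  Let `j` be maximal with `v^j • μ ≠ 0` (`j < d` as `v^d` kills `M`).  Then `v^j • μ` is
non-zero and killed by `S ∪ {v}`.  This contradicts the maximality of `A`.
-/

set_option autoImplicit false

namespace H43.PV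

/-- `A` is good: every finite subset kills a non-zero vector -/
def EGood {W : Type*} (M : Type*) [Ring W] [AddCommGroup M] [Module W M] (A : Set W) : Prop :=
  ∀ S : Set W, S.Finite → S ⊆ A → ∃ μ : M, μ ≠ 0 ∧ ∀ s ∈ S, s • μ = 0

/-- iterated commutator -/
def ecomm {W : Type*} [Ring W] (hs : List W) (x : W) : W :=
  hs.foldr (fun h y => h * y - y * h) x

theorem ecomm_smul {W M : Type*} [Ring W] [AddCommGroup M] [Module W M] (hs : List W) (x : W)
    (μ : M) (h : ∀ h ∈ hs, h • μ = 0) : ecomm hs x • μ = (hs.prod * x) • μ := by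
  induction hs with
  | nil => simp [ecomm]
  | cons a hs ih =>
    have h1 := ih (fun h' hh => h h' (List.mem_cons_of_mem _ hh))
    have h2 : ecomm (a :: hs) x = a * ecomm hs x - ecomm hs x * a := rfl
    rw [h2, sub_smul, mul_smul, mul_smul, h1, h a List.mem_cons_self, smul_zero, sub_zero,
      List.prod_cons, mul_assoc, mul_smul a]

theorem engel {W M : Type*} [Ring W] [AddCommGroup M] [Module W M] [Nontrivial M]
    (L0 : Set W) (hL : ∀ a ∈ L0, ∀ b ∈ L0, a * b - b * a ∈ L0) (d k : ℕ)
    (hnil : ∀ l ∈ L0, ∀ m : M, l ^ d • m = 0)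
    (hk : ∀ hs : List W, (∀ h ∈ hs, h ∈ L0) → hs.length = k → ∀ l ∈ L0, ∀ μ : M,
      (∀ h ∈ hs, h • μ = 0) → (hs.prod * l) • μ = 0)
    (S : Set W) (hS : S.Finite) (hSL : S ⊆ L0) : ∃ μ : M, μ ≠ 0 ∧ ∀ s ∈ S, s • μ = 0 := by
  classical
  -- a maximal good set
  obtain ⟨A, hA⟩ : ∃ A, Maximal (fun A => A ⊆ L0 ∧ EGood M A) A := by
    obtain ⟨A, -, hA⟩ := zorn_subset_nonempty {A | A ⊆ L0 ∧ EGood M A} (by
      intro c hc hchain hne
      refine ⟨⋃₀ c, ⟨Set.sUnion_subset fun B hB => (hc hB).1, ?_⟩,
        fun B hB => Set.subset_sUnion_of_mem hB⟩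
      intro S hS hSc
      obtain ⟨B, hB, hSB⟩ := DirectedOn.exists_mem_subset_of_finite_of_subset_sUnion
        hne hchain.directedOn hS hSc
      exact (hc hB).2 S hS hSB) ∅ ⟨Set.empty_subset _, by
        intro S hS hSe
        obtain ⟨μ, hμ⟩ := exists_ne (0 : M)
        exact ⟨μ, hμ, fun s hs => absurd (hSe hs) (Set.notMem_empty s)⟩⟩
    exact ⟨A, hA⟩
  have hAL : A ⊆ L0 := hA.prop.1
  have hAg : EGood M A := hA.prop.2
  -- an element which can be added to `A` is in `A`
  have hmax : ∀ v ∈ L0, EGood M (insert v A) → v ∈ A := by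
    intro v hv hg
    have h1 : insert v A ⊆ L0 := Set.insert_subset hv hAL
    exact hA.le_of_ge (y := insert v A) ⟨h1, hg⟩ (Set.subset_insert v A) (Set.mem_insert v A)
  have hecomm : ∀ (hs : List W), (∀ h ∈ hs, h ∈ A) → ∀ x ∈ L0, ecomm hs x ∈ L0 := by
    intro hs
    induction hs with
    | nil => exact fun _ x hx => hx
    | cons a hs ih =>
      intro h x hx
      exact hL a (hAL (h a List.mem_cons_self)) _
        (ih (fun h' hh => h h' (List.mem_cons_of_mem _ hh)) x hx)
  -- (1)
  have h1 : ∀ (hs : List W), (∀ h ∈ hs, h ∈ A) → hs.length = k → ∀ x ∈ L0,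
      ecomm hs x ∈ A := by
    intro hs hhs hlen x hx
    refine hmax _ (hecomm hs hhs x hx) ?_
    intro S hS hSi
    obtain ⟨μ, hμ, hμS⟩ := hAg ((S \ {ecomm hs x}) ∪ {h | h ∈ hs})
      (hS.sdiff.union (List.finite_toSet hs)) (by
        rintro s (⟨hs1, hs2⟩ | hs1)
        · rcases hSi hs1 with h | h
          · exact absurd h hs2
          · exact h
        · exact hhs s hs1)
    refine ⟨μ, hμ, fun s hs1 => ?_⟩
    by_cases h : s = ecomm hs x
    · rw [h, ecomm_smul hs x μ (fun h' hh => hμS h' (Or.inr hh))]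
      exact hk hs (fun h' hh => hAL (hhs h' hh)) hlen x hx μ (fun h' hh => hμS h' (Or.inr hh))
    · exact hμS s (Or.inl ⟨hs1, h⟩)
  -- `A = L0`
  have hAeq : L0 ⊆ A := by
    intro x hx
    by_contra hxA
    -- (2)
    obtain ⟨v, hv, hvA, hvh⟩ : ∃ v ∈ L0, v ∉ A ∧ ∀ h ∈ A, h * v - v * h ∈ A := by
      by_contra hcon
      push Not at hcon
      have h2 : ∀ n : ℕ, ∃ hs : List W, (∀ h ∈ hs, h ∈ A) ∧ hs.length = n ∧
          ecomm hs x ∉ A := by
        intro n
        induction n with
        | zero => exact ⟨[], by simp, rfl, hxA⟩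
        | succ n ih =>
          obtain ⟨hs, hhs, hlen, hn⟩ := ih
          obtain ⟨h, hh, hhA⟩ := hcon _ (hecomm hs hhs x hx) hn
          refine ⟨h :: hs, ?_, by rw [List.length_cons, hlen], hhA⟩
          intro h' hh'
          rcases List.mem_cons.1 hh' with h3 | h3
          · rw [h3]; exact hh
          · exact hhs h' h3
      obtain ⟨hs, hhs, hlen, hn⟩ := h2 k
      exact hn (h1 hs hhs hlen x hx)
    -- (3)
    apply hvA
    refine hmax v hv ?_
    intro S hS hSi
    let it : ℕ → W → W := fun t s => (fun y => y * v - v * y)^[t] s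
    have hit : ∀ t s, it (t + 1) s = it t s * v - v * it t s := by
      intro t s
      exact Function.iterate_succ_apply' _ _ _
    have hitA : ∀ t, ∀ s ∈ A, it t s ∈ A := by
      intro t
      induction t with
      | zero => exact fun s hs => hs
      | succ t ih =>
        intro s hs
        rw [hit]
        exact hvh _ (ih s hs)
    let S' : Set W := S \ {v}
    have hS'A : S' ⊆ A := by
      rintro s ⟨hs1, hs2⟩
      rcases hSi hs1 with h | h
      · exact absurd h hs2
      · exact h
    have hS'f : S'.Finite := hS.sdiff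
    obtain ⟨μ, hμ, hμS⟩ := hAg (⋃ t ∈ Finset.range (d + 1), it t '' S')
      (Set.Finite.biUnion (Finset.finite_toSet _) fun t _ => hS'f.image _) (by
        intro y hy
        simp only [Set.mem_iUnion] at hy
        obtain ⟨t, _, s, hs, rfl⟩ := hy
        exact hitA t s (hS'A hs))
    have hkill : ∀ j t, t + j ≤ d → ∀ s ∈ S', it t s • v ^ j • μ = 0 := by
      intro j
      induction j with
      | zero =>
        intro t ht s hs
        rw [pow_zero, one_smul]
        refine hμS _ ?_
        simp only [Set.mem_iUnion]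
        exact ⟨t, Finset.mem_range.2 (by omega), s, hs, rfl⟩
      | succ j ih =>
        intro t ht s hs
        have h3 : it t s * v = it (t + 1) s + v * it t s := by
          rw [hit, sub_add_cancel]
        rw [pow_succ', mul_smul, ← mul_smul, h3, add_smul, ih (t + 1) (by omega) s hs, mul_smul,
          ih t (by omega) s hs, smul_zero, add_zero]
    have hex : ∃ j, v ^ j • μ = 0 := ⟨d, hnil v hv μ⟩
    have hfind := Nat.find_spec hex
    have hne : Nat.find hex ≠ 0 := by
      intro h0
      rw [h0, pow_zero, one_smul] at hfind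
      exact hμ hfind
    obtain ⟨j, hj⟩ := Nat.exists_eq_succ_of_ne_zero hne
    have hjd : j + 1 ≤ d := by
      rw [← Nat.succ_eq_add_one, ← hj]
      exact Nat.find_min' hex (hnil v hv μ)
    refine ⟨v ^ j • μ, Nat.find_min hex (by omega), fun s hs => ?_⟩
    by_cases hsv : s = v
    · rw [hsv, ← mul_smul, ← pow_succ']
      rw [hj] at hfind
      exact hfind
    · exact hkill j 0 (by omega) s ⟨hs, hsv⟩
  exact hAg S hS (hSL.trans hAeq)

end H43.PV
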