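import Pool.Agent.H43.PV.Engel

/-!
# Module PV-2: words of some length lie in `J`

`W = FreeAlgebra K (Fin r)`, `J` a left ideal (`Ideal W` is a left ideal in Mathlib) which is also
a right ideal, `L0 ⊆ W` a set closed under `ab - ba` containing the generators, such that
`l ^ d ∈ J` for `l ∈ L0` and `hs.prod * l ∈ J ⊔ Ideal.span {h | h ∈ hs}` for all lists `hs` of
length `k` of elements of `L0` and all `l ∈ L0` (left ideal generated by the `h`'s).
Then all words of some length `N` lie in `J`.

## Proof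
Suppose not.  Consider the left ideals `I ≥ J` with: for every `n` some word of length `n` is not in
`I`.  `J` is one of them; the union of a non-empty chain of such ideals is one of them (if it
contains the finitely many words of length `n`, so does a member of the chain).  By Zorn's lemma
(`zorn_le_nonempty₀` or `zorn_le₀`) let `I` be a maximal one.  `M = W ⧸ I` is a non-zero left module
(`1 ∉ I`, as otherwise `I` contains all words of length `0`; quotient of `W` as a module over itself
by the submodule `I`).  For `m ∈ M`, `J` kills `M`, since `J W ⊆ J ⊆ I`.  So the hypotheses of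
`engel` hold for `M`: `l ^ d • m = 0`; if `h • μ = 0` for `h ∈ hs` then every element of the left
ideal spanned by `hs` kills `μ`, so `(hs.prod * l) • μ = 0`.  `engel` for the finite set of the
generators gives `μ ∈ W`, `μ ∉ I`, `ι i * μ ∈ I` for all `i`.  Let `I' = I ⊔ Ideal.span {μ} > I`.
Every element of `W` is `algebraMap c + ∑ i, b_i * ι i` (induction), so every element of `I'` is
`y + c • μ` with `y ∈ I`, `c ∈ K`.  By maximality of `I`, `I'` contains all words of some length
`n`.  So for a word `w` of length `n`: `w = y + c • μ`, `ι i * w = ι i * y + c • (ι i * μ) ∈ I`: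
all words of length `n + 1` are in `I`, a contradiction.
-/

set_option autoImplicit false

namespace H43.PV

theorem free_decomp {K : Type} [Field K] {r : ℕ} (a : FreeAlgebra K (Fin r)) :
    ∃ (c : K) (b : Fin r → FreeAlgebra K (Fin r)),
      a = algebraMap K _ c + ∑ i, b i * FreeAlgebra.ι K i := by
  classical
  induction a using FreeAlgebra.induction with
  | grade0 c => exact ⟨c, 0, by simp⟩
  | grade1 j =>
    refine ⟨0, Pi.single j 1, ?_⟩
    rw [map_zero, zero_add, Finset.sum_eq_single j]
    · simp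
    · intro i _ hi
      simp [hi]
    · intro h
      exact absurd (Finset.mem_univ j) h
  | mul a b ha hb =>
    obtain ⟨c, f, hf⟩ := hb
    obtain ⟨c', f', hf'⟩ := ha
    refine ⟨c' * c, fun i => c • f' i + a * f i, ?_⟩
    conv_lhs => rw [hf]
    rw [mul_add, Finset.mul_sum]
    conv_lhs =>
      arg 1
      rw [hf']
    simp only [add_mul, Finset.sum_add_distrib, Finset.sum_mul, map_mul, smul_mul_assoc, mul_assoc]
    rw [add_assoc]
    congr 2
    refine Finset.sum_congr rfl fun i _ => ?_
    simp only [Algebra.smul_def]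
    rw [← mul_assoc, Algebra.commutes c]
  | add a b ha hb =>
    obtain ⟨c, f, hf⟩ := hb
    obtain ⟨c', f', hf'⟩ := ha
    refine ⟨c' + c, fun i => f' i + f i, ?_⟩
    rw [hf, hf']
    simp only [add_mul, Finset.sum_add_distrib, map_add]
    abel

theorem words_mem {K : Type} [Field K] {r : ℕ} (J : Ideal (FreeAlgebra K (Fin r)))
    (hJ : ∀ a ∈ J, ∀ b, a * b ∈ J) (L0 : Set (FreeAlgebra K (Fin r)))
    (hL : ∀ a ∈ L0, ∀ b ∈ L0, a * b - b * a ∈ L0) (hι : ∀ i, FreeAlgebra.ι K i ∈ L0) (d k : ℕ)
    (hnil : ∀ l ∈ L0, l ^ d ∈ J)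
    (hk : ∀ hs : List (FreeAlgebra K (Fin r)), (∀ h ∈ hs, h ∈ L0) → hs.length = k → ∀ l ∈ L0,
      hs.prod * l ∈ J ⊔ Ideal.span {h | h ∈ hs}) :
    ∃ N : ℕ, ∀ l : List (Fin r), l.length = N → (l.map (FreeAlgebra.ι K)).prod ∈ J := by
  classical
  by_contra hcon
  push Not at hcon
  let W := FreeAlgebra K (Fin r)
  let bad : Set (Ideal W) := {I | J ≤ I ∧ ∀ n : ℕ, ∃ l : List (Fin r), l.length = n ∧
    (l.map (FreeAlgebra.ι K)).prod ∉ I}
  have hJbad : J ∈ bad := ⟨le_rfl, hcon⟩
  obtain ⟨I, hJI, hI⟩ := zorn_le_nonempty₀ bad (by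
    intro c hc hchain y hy
    have hdir : DirectedOn (· ≤ ·) c := hchain.directedOn
    have hne : c.Nonempty := ⟨y, hy⟩
    refine ⟨sSup c, ⟨(hc hy).1.trans (le_sSup hy), ?_⟩, fun z hz => le_sSup hz⟩
    intro n
    by_contra hno
    push Not at hno
    -- all words of length `n` are in the union, so in a member
    have hfin : ({l : List (Fin r) | l.length = n}).Finite := List.finite_length_eq (Fin r) n
    have key : ∀ s : Set (List (Fin r)), s.Finite → (∀ l ∈ s, l.length = n) →
        ∃ I ∈ c, ∀ l ∈ s, (l.map (FreeAlgebra.ι K)).prod ∈ I := by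
      intro s hs
      induction s, hs using Set.Finite.induction_on with
      | empty => exact fun _ => ⟨y, hy, fun l hl => absurd hl (Set.notMem_empty l)⟩
      | insert hal hs ih =>
        rename_i a s
        intro hlen
        obtain ⟨I, hI, hI'⟩ := ih (fun l hl => hlen l (Set.mem_insert_of_mem a hl))
        obtain ⟨I', hI1, hI2⟩ := (Submodule.mem_sSup_of_directed hne hdir).1
          (hno a (hlen a (Set.mem_insert a s)))
        obtain ⟨I'', hI3, hI4, hI5⟩ := hdir I hI I' hI1
        refine ⟨I'', hI3, fun l hl => ?_⟩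
        rcases hl with rfl | hl
        · exact hI5 hI2
        · exact hI4 (hI' l hl)
    obtain ⟨I, hI, hI'⟩ := key _ hfin (fun l hl => hl)
    obtain ⟨l, hl, hl'⟩ := (hc hI).2 n
    exact hl' (hI' l hl)) J hJbad
  have hIbad : I ∈ bad := hI.prop
  -- the module `W ⧸ I`
  have h1 : (1 : W) ∉ I := by
    intro h
    obtain ⟨l, hl, hl'⟩ := hIbad.2 0
    rw [List.length_eq_zero_iff] at hl
    subst hl
    exact hl' h
  have hnt : Nontrivial (W ⧸ I) := by
    refine Submodule.Quotient.nontrivial_iff.2 ?_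
    rintro rfl
    exact h1 Submodule.mem_top
  have hkill : ∀ a ∈ J, ∀ m : W ⧸ I, a • m = 0 := by
    intro a ha m
    obtain ⟨m, rfl⟩ := Submodule.Quotient.mk_surjective I m
    rw [← Submodule.Quotient.mk_smul, Submodule.Quotient.mk_eq_zero]
    exact hIbad.1 (hJ a ha m)
  obtain ⟨μ', hμ', hμι⟩ := engel (M := W ⧸ I) L0 hL d k
    (fun l hl m => hkill _ (hnil l hl) m)
    (by
      intro hs hhs hlen l hl μ hμ
      obtain ⟨a, ha, b, hb, hab⟩ := Submodule.mem_sup.1 (hk hs hhs hlen l hl)
      rw [← hab, add_smul, hkill a ha, zero_add]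
      clear hab
      induction hb using Submodule.span_induction with
      | mem x hx => exact hμ x hx
      | zero => exact zero_smul _ _
      | add x y _ _ hx hy => rw [add_smul, hx, hy, add_zero]
      | smul c x _ hx => rw [smul_eq_mul, mul_smul, hx, smul_zero])
    (Set.range (FreeAlgebra.ι K)) (Set.finite_range _)
    (by rintro _ ⟨i, rfl⟩; exact hι i)
  obtain ⟨μ, rfl⟩ := Submodule.Quotient.mk_surjective I μ'
  have hμI : μ ∉ I := by
    intro h
    exact hμ' ((Submodule.Quotient.mk_eq_zero I).2 h)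
  have hμι' : ∀ i, FreeAlgebra.ι K i * μ ∈ I := by
    intro i
    have := hμι _ ⟨i, rfl⟩
    rw [← Submodule.Quotient.mk_smul, Submodule.Quotient.mk_eq_zero] at this
    exact this
  -- the bigger ideal
  have hlt : ¬ (I ⊔ Ideal.span {μ}) ≤ I := by
    intro h
    exact hμI (h (Ideal.mem_sup_right (Ideal.subset_span rfl)))
  have hnb : (I ⊔ Ideal.span {μ}) ∉ bad := by
    intro h
    exact hlt (hI.le_of_ge h le_sup_left)
  have hall : ∃ n : ℕ, ∀ l : List (Fin r), l.length = n →
      (l.map (FreeAlgebra.ι K)).prod ∈ I ⊔ Ideal.span {μ} := by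
    by_contra hno
    push Not at hno
    exact hnb ⟨hIbad.1.trans le_sup_left, hno⟩
  obtain ⟨n, hn⟩ := hall
  have hdec : ∀ x ∈ I ⊔ Ideal.span {μ}, ∃ y ∈ I, ∃ c : K, x = y + c • μ := by
    intro x hx
    obtain ⟨y, hy, z, hz, rfl⟩ := Submodule.mem_sup.1 hx
    obtain ⟨a, rfl⟩ := Ideal.mem_span_singleton'.1 hz
    obtain ⟨c, b, hb⟩ := free_decomp a
    refine ⟨y + ∑ i, b i * (FreeAlgebra.ι K i * μ), I.add_mem hy (Submodule.sum_mem _ fun i _ =>
      I.mul_mem_left _ (hμι' i)), c, ?_⟩
    rw [hb, add_mul, Finset.sum_mul, Algebra.smul_def]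
    simp only [mul_assoc]
    abel
  obtain ⟨l, hl, hl'⟩ := hIbad.2 (n + 1)
  cases l with
  | nil => simp at hl
  | cons i w =>
    apply hl'
    rw [List.map_cons, List.prod_cons]
    obtain ⟨y, hy, c, hc⟩ := hdec _ (hn w (by simpa using hl))
    rw [hc, mul_add, mul_smul_comm]
    refine I.add_mem (I.mul_mem_left _ hy) ?_
    rw [Algebra.smul_def]
    exact I.mul_mem_left _ (hμι' i)

end H43.PV
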