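import Pool.Agent.H43.PV.Perp
import Pool.Agent.H43.PV.Words

/-!
# Module PV-12: the local bound

Let `W = FreeAlgebra K (Fin r)`.  For `(M, Γ)` in `S` and `g : Fin r → Γ` let `W` act on
sequences `ℕ → M` by `(ι i • v) 0 = 0`, `(ι i • v) (n + 1) = (g i - 1) (v n)`
(`Phi g : W →ₐ Module.End K (ℕ → M)`, `FreeAlgebra.lift`).  Let `R` be the space of sequences with
`v n ∈ Fil g n` for all `n`, and `R⁺` the space of those with `v n ∈ Fil g (n + 1)`.  Both are
mapped into themselves by `Phi g a` for all `a ∈ W` (induction on `a`).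
Let `J` be the set of `a ∈ W` such that for all `(M, Γ)` in `S` and `g : Fin r → Γ`,
`Phi g a v ∈ R⁺` for all `v ∈ R`.  It is a left and a right ideal.

* For a Lie monomial `t`, `(Phi g t.alg v) (n + t.deg) = t.op g (v n)` and `(Phi g t.alg v) n = 0` for
  `n < t.deg`.  (Call `a ∈ W` homogeneous of degree `e` with value `A` if
  `(Phi g a v) (n + e) = A (v n)` and `(Phi g a v) n = 0` for `n < e`.  This passes to sums of the same
  degree, scalar multiples and products.)  So for `t : Fin n → LM r`,
  `a = ∑ σ, f σ • (List.ofFn fun i => (t (σ i)).alg K).prod` is homogeneous of degree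
  `∑ i, (t i).deg`, with value `∑ σ, f σ • (List.ofFn fun i => (t (σ i)).op g).prod`.  By `perp_apply`,
  `a ∈ J` if `f` is orthogonal to the coefficient functions for `n` letters.
* With the `f` of the theorem and `t` constant: `(∑ σ, f σ) • l ^ d = l ^ d ∈ J` for
  `l = t.alg`.
* With `c`: let `hs = [h_1, ..., h_k]` be a list of values of Lie monomials and `l` another one.
  Put `t 0 = l`, `t i.succ = h_(i+1)`.  Then
  `∑ σ, c σ • (List.ofFn fun i => (t (σ i)).alg).prod ∈ J`.  The term of `finRotate (k + 1)` is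
  `h_1 ... h_k l = hs.prod * l` (`c = 1`); a term with `σ (Fin.last k) = 0` and
  `σ ≠ finRotate (k + 1)` vanishes; the other terms end with some `h_i`, so they are in the left
  ideal generated by `hs`.  Hence `hs.prod * l ∈ J ⊔ Ideal.span {h | h ∈ hs}`.
* By `words_mem` with `L0 = range LM.alg` there is `N` such that all words of length `N` are in
  `J`.  The word `l` is homogeneous of degree `N` with value `wd g l`.  So `wd g l v ∈ Fil g (N + 1)`
  for all `v ∈ M = Fil g 0` (apply the definition of `J` to the sequence `v, 0, 0, ...`).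
  Hence `Fil g N ≤ Fil g (N + 1)` (`Fil_le_of_wd`), so `Fil g N = ⊥` by `Fil_eq_bot`, and
  `wd g l v ∈ Fil g N` (`wd_mem_Fil`) gives `wd g l = 0`.
-/

set_option autoImplicit false

namespace H43.PV

section Seq

variable {K : Type} [Field K] {M : Type} [AddCommGroup M] [Module K M] {r : ℕ}

/-- the operator `A` followed by a shift, on sequences -/
def sh (A : Module.End K M) : Module.End K (ℕ → M) where
  toFun v := fun n => match n with
    | 0 => 0
    | n + 1 => A (v n)
  map_add' v w := by
    funext n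
    cases n <;> simp
  map_smul' c v := by
    funext n
    cases n <;> simp

@[simp] theorem sh_zero (A : Module.End K M) (v : ℕ → M) : sh A v 0 = 0 := rfl

@[simp] theorem sh_succ (A : Module.End K M) (v : ℕ → M) (n : ℕ) :
    sh A v (n + 1) = A (v n) := rfl

/-- the action of the free algebra on sequences -/
noncomputable def Phi (g : Fin r → Module.End K M) :
    FreeAlgebra K (Fin r) →ₐ[K] Module.End K (ℕ → M) :=
  FreeAlgebra.lift K (fun i => sh (g i - 1))

theorem Phi_ι (g : Fin r → Module.End K M) (i : Fin r) :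
    Phi g (FreeAlgebra.ι K i) = sh (g i - 1) := by
  simp [Phi]

/-- `a` is homogeneous of degree `e` with value `A` -/
def HomV (g : Fin r → Module.End K M) (e : ℕ) (a : FreeAlgebra K (Fin r))
    (A : Module.End K M) : Prop :=
  ∀ v : ℕ → M, (∀ n, Phi g a v (n + e) = A (v n)) ∧ ∀ n, n < e → Phi g a v n = 0

theorem HomV.ι (g : Fin r → Module.End K M) (i : Fin r) :
    HomV g 1 (FreeAlgebra.ι K i) (g i - 1) := by
  intro v
  rw [Phi_ι]
  refine ⟨fun n => rfl, fun n hn => ?_⟩
  obtain rfl : n = 0 := by omega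
  rfl

theorem HomV.one (g : Fin r → Module.End K M) : HomV g 0 1 1 := by
  intro v
  rw [map_one]
  exact ⟨fun n => rfl, fun n hn => by omega⟩

theorem HomV.mul {g : Fin r → Module.End K M} {e e' : ℕ} {a b : FreeAlgebra K (Fin r)}
    {A B : Module.End K M} (ha : HomV g e a A) (hb : HomV g e' b B) :
    HomV g (e + e') (a * b) (A * B) := by
  intro v
  rw [map_mul]
  refine ⟨fun n => ?_, fun n hn => ?_⟩
  · have e1 : n + (e + e') = n + e' + e := by omega
    rw [e1, Module.End.mul_apply, Module.End.mul_apply, (ha (Phi g b v)).1 (n + e'), (hb v).1 n]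
  · rw [Module.End.mul_apply]
    by_cases h : n < e
    · exact (ha _).2 n h
    · obtain ⟨m, rfl⟩ : ∃ m, n = m + e := ⟨n - e, by omega⟩
      rw [(ha _).1 m, (hb v).2 m (by omega), map_zero]

theorem HomV.sub {g : Fin r → Module.End K M} {e : ℕ} {a b : FreeAlgebra K (Fin r)}
    {A B : Module.End K M} (ha : HomV g e a A) (hb : HomV g e b B) :
    HomV g e (a - b) (A - B) := by
  intro v
  rw [map_sub]
  refine ⟨fun n => ?_, fun n hn => ?_⟩
  · rw [LinearMap.sub_apply, Pi.sub_apply, (ha v).1, (hb v).1, LinearMap.sub_apply]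
  · rw [LinearMap.sub_apply, Pi.sub_apply, (ha v).2 n hn, (hb v).2 n hn, sub_zero]

theorem HomV.smul {g : Fin r → Module.End K M} {e : ℕ} {a : FreeAlgebra K (Fin r)}
    {A : Module.End K M} (c : K) (ha : HomV g e a A) : HomV g e (c • a) (c • A) := by
  intro v
  rw [map_smul]
  refine ⟨fun n => ?_, fun n hn => ?_⟩
  · rw [LinearMap.smul_apply, Pi.smul_apply, (ha v).1, LinearMap.smul_apply]
  · rw [LinearMap.smul_apply, Pi.smul_apply, (ha v).2 n hn, smul_zero]

theorem HomV.sum {g : Fin r → Module.End K M} {e : ℕ} {X : Type} (s : Finset X)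
    {a : X → FreeAlgebra K (Fin r)} {A : X → Module.End K M} (h : ∀ x ∈ s, HomV g e (a x) (A x)) :
    HomV g e (∑ x ∈ s, a x) (∑ x ∈ s, A x) := by
  intro v
  rw [map_sum]
  refine ⟨fun n => ?_, fun n hn => ?_⟩
  · rw [LinearMap.sum_apply, Finset.sum_apply, LinearMap.sum_apply]
    exact Finset.sum_congr rfl fun x hx => (h x hx v).1 n
  · rw [LinearMap.sum_apply, Finset.sum_apply]
    exact Finset.sum_eq_zero fun x hx => (h x hx v).2 n hn

theorem HomV.lm (g : Fin r → Module.End K M) (t : LM r) :
    HomV g t.deg (t.alg K) (t.op g) := by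
  induction t with
  | var i => exact HomV.ι g i
  | br s t hs ht =>
    have h1 := hs.mul ht
    have h2 := ht.mul hs
    rw [add_comm] at h2
    exact h1.sub h2

theorem HomV.list {X : Type} (g : Fin r → Module.End K M) (deg : X → ℕ)
    (a : X → FreeAlgebra K (Fin r)) (A : X → Module.End K M) (h : ∀ x, HomV g (deg x) (a x) (A x))
    (l : List X) : HomV g (l.map deg).sum (l.map a).prod (l.map A).prod := by
  induction l with
  | nil => exact HomV.one g
  | cons x l ih =>
    simp only [List.map_cons, List.sum_cons, List.prod_cons]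
    exact (h x).mul ih

theorem HomV.wd (g : Fin r → Module.End K M) (l : List (Fin r)) :
    HomV g l.length (l.map (FreeAlgebra.ι K)).prod (wd g l) := by
  have h := HomV.list g (fun _ => 1) (FreeAlgebra.ι K) (fun i => g i - 1) (HomV.ι g) l
  simpa [H43.PV.wd] using h

/-- the action preserves the sequences with `v n ∈ Fil g (n + j)` -/
theorem Phi_pres (g : Fin r → Module.End K M) (j : ℕ) (a : FreeAlgebra K (Fin r)) :
    ∀ v : ℕ → M, (∀ n, v n ∈ Fil g (n + j)) → ∀ n, Phi g a v n ∈ Fil g (n + j) := by
  induction a with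
  | grade0 c =>
    intro v hv n
    rw [AlgHom.commutes]
    show (c • (1 : Module.End K (ℕ → M))) v n ∈ _
    rw [LinearMap.smul_apply, Pi.smul_apply]
    exact Submodule.smul_mem _ c (hv n)
  | grade1 i =>
    intro v hv n
    rw [Phi_ι]
    cases n with
    | zero => exact Submodule.zero_mem _
    | succ n =>
      rw [sh_succ, Nat.add_right_comm]
      exact letter_mem_Fil g i _ _ (hv n)
  | mul a b ha hb =>
    intro v hv n
    rw [map_mul, Module.End.mul_apply]
    exact ha _ (hb v hv) n
  | add a b ha hb =>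
    intro v hv n
    rw [map_add, LinearMap.add_apply, Pi.add_apply]
    exact Submodule.add_mem _ (ha v hv n) (hb v hv n)

end Seq

variable {K : Type} [Field K] {S : PairClass K}

/-- the ideal of the elements of the free algebra which raise the filtration by one more than
expected -/
noncomputable def JJ (S : PairClass K) (r : ℕ) : Ideal (FreeAlgebra K (Fin r)) where
  carrier := {a | ∀ (M : Type) [AddCommGroup M] [Module K M] (Γ : Submonoid (Module.End K M)),
    S M Γ → ∀ g : Fin r → Module.End K M, (∀ i, g i ∈ Γ) → ∀ v : ℕ → M,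
      (∀ n, v n ∈ Fil g n) → ∀ n, Phi g a v n ∈ Fil g (n + 1)}
  zero_mem' := by
    intro M _ _ Γ hM g hg v hv n
    rw [map_zero]
    exact Submodule.zero_mem _
  add_mem' := by
    intro a b ha hb M _ _ Γ hM g hg v hv n
    rw [map_add, LinearMap.add_apply, Pi.add_apply]
    exact Submodule.add_mem _ (ha M Γ hM g hg v hv n) (hb M Γ hM g hg v hv n)
  smul_mem' := by
    intro b a ha M _ _ Γ hM g hg v hv n
    rw [smul_eq_mul, map_mul, Module.End.mul_apply]
    exact Phi_pres g 1 b _ (ha M Γ hM g hg v hv) n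

theorem JJ_mul {r : ℕ} (a : FreeAlgebra K (Fin r)) (ha : a ∈ JJ S r)
    (b : FreeAlgebra K (Fin r)) : a * b ∈ JJ S r := by
  intro M _ _ Γ hM g hg v hv n
  rw [map_mul, Module.End.mul_apply]
  exact ha M Γ hM g hg _ (Phi_pres g 0 b v hv) n

theorem perp_mem_JJ {q : ℕ} (hq : 0 < q) (hS : IsClass S)
    (hG : Sub S (fun M _ _ Γ => Good q M Γ)) {n : ℕ} (f : Equiv.Perm (Fin n) → K)
    (hf : ∀ lam, Coef S n lam → ∑ σ, f σ * lam σ = 0) {r : ℕ} (t : Fin n → LM r) :
    ∑ σ : Equiv.Perm (Fin n), f σ • (List.ofFn fun i => (t (σ i)).alg K).prod ∈ JJ S r := by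
  intro M _ _ Γ hM g hg v hv m
  have h : HomV g (∑ i, (t i).deg)
      (∑ σ : Equiv.Perm (Fin n), f σ • (List.ofFn fun i => (t (σ i)).alg K).prod)
      (∑ σ : Equiv.Perm (Fin n), f σ • (List.ofFn fun i => (t (σ i)).op g).prod) := by
    refine HomV.sum _ fun σ _ => HomV.smul _ ?_
    have h1 := HomV.list g LM.deg (LM.alg K) (LM.op g) (HomV.lm g)
      (List.ofFn fun i => t (σ i))
    rw [List.map_ofFn, List.map_ofFn, List.map_ofFn, List.sum_ofFn] at h1
    have e : ∑ i, (LM.deg ∘ fun i => t (σ i)) i = ∑ i, (t i).deg :=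
      Equiv.sum_comp σ fun i => (t i).deg
    rw [e] at h1
    exact h1
  by_cases hm : m < ∑ i, (t i).deg
  · rw [(h v).2 m hm]
    exact Submodule.zero_mem _
  · obtain ⟨m', rfl⟩ : ∃ m', m = m' + ∑ i, (t i).deg := ⟨m - ∑ i, (t i).deg, by omega⟩
    rw [(h v).1 m', LinearMap.sum_apply]
    simp only [LinearMap.smul_apply]
    exact perp_apply hq hS hG f hf hM g hg t m' (v m') (hv m')

theorem local_bound {q : ℕ} (hq : 0 < q) (hS : IsClass S)
    (hG : Sub S (fun M _ _ Γ => Good q M Γ)) {d : ℕ} (f : Equiv.Perm (Fin d) → K)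
    (hf : ∀ lam, Coef S d lam → ∑ σ, f σ * lam σ = 0) (hf1 : ∑ σ, f σ = 1) {k : ℕ}
    (c : Equiv.Perm (Fin (k + 1)) → K) (hc : ∀ lam, Coef S (k + 1) lam → ∑ σ, c σ * lam σ = 0)
    (hc0 : c (finRotate (k + 1)) = 1)
    (hc1 : ∀ σ, σ (Fin.last k) = 0 → σ ≠ finRotate (k + 1) → c σ = 0) (r : ℕ) :
    ∃ N : ℕ, ∀ (M : Type) [AddCommGroup M] [Module K M] (Γ : Submonoid (Module.End K M)), S M Γ →
      ∀ g : Fin r → Module.End K M, (∀ i, g i ∈ Γ) → ∀ l : List (Fin r), l.length = N →
      wd g l = 0 := by
  obtain ⟨N, hN⟩ := words_mem (JJ S r) JJ_mul (Set.range (LM.alg K)) (by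
      rintro _ ⟨s, rfl⟩ _ ⟨t, rfl⟩
      exact ⟨LM.br s t, rfl⟩) (fun i => ⟨LM.var i, rfl⟩) d k (by
      rintro _ ⟨t, rfl⟩
      have h := perp_mem_JJ hq hS hG f hf (fun _ => t)
      rw [← Finset.sum_smul, hf1, one_smul, List.ofFn_const, List.prod_replicate] at h
      exact h) (by
      intro hs hhs hlen l hl
      obtain ⟨l', rfl⟩ := hl
      subst hlen
      have hT : ∀ i : Fin hs.length, ∃ t : LM r, t.alg K = hs.get i := fun i =>
        hhs _ (List.get_mem hs i)
      choose T hT using hT
      set t : Fin (hs.length + 1) → LM r := Fin.cons l' T with ht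
      have h := perp_mem_JJ hq hS hG c hc t
      have hrot : (List.ofFn fun i => (t (finRotate (hs.length + 1) i)).alg K).prod
          = hs.prod * l'.alg K := by
        rw [List.ofFn_succ', List.concat_eq_append, List.prod_append, List.prod_singleton]
        congr 1
        · congr 1
          have e : (fun i : Fin hs.length =>
              (t (finRotate (hs.length + 1) i.castSucc)).alg K) = hs.get := by
            funext i
            rw [finRotate_apply, Fin.coeSucc_eq_succ, ht, Fin.cons_succ, hT]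
          rw [e, List.ofFn_get]
        · rw [finRotate_last, ht, Fin.cons_zero]
      rw [← Finset.add_sum_erase _ _ (Finset.mem_univ (finRotate (hs.length + 1))), hc0, one_smul,
        hrot] at h
      have h2 : ∑ σ ∈ Finset.univ.erase (finRotate (hs.length + 1)),
          c σ • (List.ofFn fun i => (t (σ i)).alg K).prod ∈ Ideal.span {h | h ∈ hs} := by
        refine Submodule.sum_mem _ fun σ hσ => ?_
        by_cases h0 : σ (Fin.last hs.length) = 0
        · rw [hc1 σ h0 (Finset.ne_of_mem_erase hσ), zero_smul]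
          exact Submodule.zero_mem _
        · obtain ⟨j, hj⟩ := Fin.exists_succ_eq.2 h0
          rw [List.ofFn_succ', List.concat_eq_append, List.prod_append, List.prod_singleton,
            ← hj, ht, Fin.cons_succ, hT, Algebra.smul_def]
          refine Ideal.mul_mem_left _ _ (Ideal.mul_mem_left _ _ (Ideal.subset_span ?_))
          exact List.get_mem hs j
      have h3 : hs.prod * l'.alg K = (hs.prod * l'.alg K
          + ∑ σ ∈ Finset.univ.erase (finRotate (hs.length + 1)),
            c σ • (List.ofFn fun i => (t (σ i)).alg K).prod)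
          - ∑ σ ∈ Finset.univ.erase (finRotate (hs.length + 1)),
            c σ • (List.ofFn fun i => (t (σ i)).alg K).prod := by
        abel
      rw [h3]
      exact Submodule.sub_mem _ (Submodule.mem_sup_left h) (Submodule.mem_sup_right h2))
  refine ⟨N, fun M _ _ Γ hM g hg l hl => ?_⟩
  have h1 : Fil g N ≤ Fil g (N + 1) := by
    refine Fil_le_of_wd g N _ fun w hw v => ?_
    have h2 := hN w hw M Γ hM g hg (fun n => match n with
      | 0 => v
      | _ + 1 => 0) (by
        intro n
        cases n with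
        | zero => exact Submodule.mem_top
        | succ n => exact Submodule.zero_mem _) (0 + w.length)
    rw [(HomV.wd g w _).1 0, hw, zero_add] at h2
    exact h2
  have h2 := Fil_eq_bot g (hG M Γ hM) hg N h1
  ext v
  have h3 := wd_mem_Fil g l 0 v (by exact Submodule.mem_top)
  rw [zero_add, hl, h2] at h3
  simpa using h3

end H43.PV
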