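import Pool.Agent.H43.PV.CoefSub

/-!
# Module PV-8: if `1` is a coefficient function of the derived class, it is one of the class

Let `(Q, H, g, q0, φ)` witness `Coef (derived S) d (fun _ => 1)`; so `S (K × Q) (ext H)`.
In `K × Q` define letters indexed by `Fin (d + 1)`: `g' 0 = ((a, x) ↦ (a, x + a • q0))` and
`g' i.succ = ((a, x) ↦ (a, g i x))`, all in `ext H`; `μ' = (1, 0)`, `φ' (a, x) = φ x`.
Then `(g' i.succ - 1) (a, x) = (0, (g i - 1) x)`, `(g' 0 - 1) (a, x) = (0, a • q0)`.
For a word `l` in `Fin (d + 1)`, `φ' (wd g' l μ') = 0` unless `l = l'.map Fin.succ ++ [0]`, and then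
`wd g' l μ' = (0, wd g l' q0)`, with value `1` if `l'` is a permutation word and `0` otherwise.  In
other words the coefficient function of this witness is the indicator `δ_0 σ = 1` if
`σ (Fin.last d) = 0` and `0` otherwise (a permutation word `List.ofFn σ` has last letter
`σ (Fin.last d)`, and if this is `0`, then `List.ofFn σ = (List.ofFn τ).map Fin.succ ++ [0]` for a
permutation `τ` of `Fin d`; conversely if `τ` is a permutation, so is the word
`(List.ofFn τ).map Fin.succ ++ [0]`).  So `Coef S (d + 1) δ_0`.

By `coef_relabel` with `τ = Equiv.swap 0 j`: `δ_j σ = 1` iff `σ (Fin.last d) = j` is also a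
coefficient function of `S`, and `∑ j, δ_j = 1`; use `coef_add` (and `coef_smul` with `c = 0` for
the zero function).
-/

set_option autoImplicit false

namespace H43.PV

variable {K : Type} [Field K] {S : PairClass K}

section s1

variable {Q : Type} [AddCommGroup Q] [Module K Q] {d : ℕ}

/-- the letters in `K × Q` -/
def s1G (g : Fin d → Module.End K Q) (q0 : Q) : Fin (d + 1) → Module.End K (K × Q) :=
  Fin.cons (LinearMap.prod (LinearMap.fst K K Q)
      (LinearMap.snd K K Q + (LinearMap.toSpanSingleton K Q q0) ∘ₗ LinearMap.fst K K Q))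
    (fun i => (1 : Module.End K K).prodMap (g i))

theorem s1G_zero (g : Fin d → Module.End K Q) (q0 : Q) (x : K × Q) :
    s1G g q0 0 x = (x.1, x.2 + x.1 • q0) := rfl

theorem s1G_succ (g : Fin d → Module.End K Q) (q0 : Q) (i : Fin d) (x : K × Q) :
    s1G g q0 i.succ x = (x.1, g i x.2) := rfl

/-- words of the special form -/
def S1F (l : List (Fin (d + 1))) : Prop := ∃ l' : List (Fin d), l = l'.map Fin.succ ++ [0]

theorem s1_form (g : Fin d → Module.End K Q) (q0 : Q) (l' : List (Fin d)) :
    wd (s1G g q0) (l'.map Fin.succ ++ [0]) ((1, 0) : K × Q) = (0, wd g l' q0) := by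
  induction l' with
  | nil =>
    rw [List.map_nil, List.nil_append, wd_cons_apply, s1G_zero]
    simp
  | cons i l ih =>
    rw [List.map_cons, List.cons_append, wd_cons_apply, ih, s1G_succ, wd_cons_apply]
    simp

theorem s1_not_form (g : Fin d → Module.End K Q) (q0 : Q) (l : List (Fin (d + 1)))
    (h0 : l ≠ []) (h : ¬ S1F l) : wd (s1G g q0) l ((1, 0) : K × Q) = 0 := by
  induction l with
  | nil => exact absurd rfl h0
  | cons i l ih =>
    rw [wd_cons_apply]
    by_cases hl : l = []
    · subst hl
      rcases Fin.eq_zero_or_eq_succ i with hi | ⟨j, hj⟩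
      · exact absurd ⟨[], by rw [hi]; rfl⟩ h
      · rw [hj, wd_nil, Module.End.one_apply, s1G_succ]
        simp
    · by_cases hf : S1F l
      · obtain ⟨l', hl'⟩ := hf
        rcases Fin.eq_zero_or_eq_succ i with hi | ⟨j, hj⟩
        · rw [hl', s1_form, hi, s1G_zero]
          simp
        · exact absurd ⟨j :: l', by rw [hj, hl']; rfl⟩ h
      · rw [ih hl hf, map_zero, sub_zero]

/-- the values of the words -/
theorem s1_value (g : Fin d → Module.End K Q) (q0 : Q) (φ : Q →ₗ[K] K)
    (l : List (Fin (d + 1))) (h : ¬ S1F l) :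
    (φ ∘ₗ LinearMap.snd K K Q) (wd (s1G g q0) l ((1, 0) : K × Q)) = 0 := by
  by_cases hl : l = []
  · subst hl
    rw [wd_nil, Module.End.one_apply, LinearMap.comp_apply, LinearMap.snd_apply, map_zero]
  · rw [s1_not_form g q0 l hl h, map_zero]

theorem s1_form_value (g : Fin d → Module.End K Q) (q0 : Q) (φ : Q →ₗ[K] K)
    (l' : List (Fin d)) :
    (φ ∘ₗ LinearMap.snd K K Q) (wd (s1G g q0) (l'.map Fin.succ ++ [0]) ((1, 0) : K × Q))
      = φ (wd g l' q0) := by
  rw [s1_form]
  rfl

theorem s1_ofFn_last {f : Fin (d + 1) → Fin (d + 1)} (h : S1F (List.ofFn f)) :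
    f (Fin.last d) = 0 := by
  obtain ⟨l', hl'⟩ := h
  rw [List.ofFn_succ_last] at hl'
  have := List.append_inj_right' hl' rfl
  simpa using this

/-- permutations fixing the position of `0` -/
theorem s1_perm_down {σ : Equiv.Perm (Fin (d + 1))} (h : σ (Fin.last d) = 0) :
    ∃ τ : Equiv.Perm (Fin d), List.ofFn σ = (List.ofFn τ).map Fin.succ ++ [0] := by
  have hne : ∀ i : Fin d, σ i.castSucc ≠ 0 := by
    intro i hi
    rw [← h] at hi
    exact (Fin.castSucc_lt_last i).ne (σ.injective hi)
  let f : Fin d → Fin d := fun i => (σ i.castSucc).pred (hne i)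
  have hf : ∀ i, (f i).succ = σ i.castSucc := fun i => Fin.succ_pred _ _
  have hinj : Function.Injective f := by
    intro i j hij
    have h1 : (f i).succ = (f j).succ := by rw [hij]
    rw [hf, hf] at h1
    exact Fin.castSucc_injective d (σ.injective h1)
  refine ⟨Equiv.ofBijective f (Finite.injective_iff_bijective.1 hinj), ?_⟩
  rw [List.ofFn_succ_last, h, List.map_ofFn]
  congr 2
  funext i
  exact (hf i).symm

theorem s1_perm_up (τ : Equiv.Perm (Fin d)) :
    ∃ σ : Equiv.Perm (Fin (d + 1)), (List.ofFn τ).map Fin.succ ++ [0] = List.ofFn σ := by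
  let f : Fin (d + 1) → Fin (d + 1) := Fin.snoc (α := fun _ => Fin (d + 1))
    (fun i => (τ i).succ) 0
  have h1 : ∀ i : Fin d, f i.castSucc = (τ i).succ := fun i => Fin.snoc_castSucc _ _ _
  have h2 : f (Fin.last d) = 0 := Fin.snoc_last _ _
  have hinj : Function.Injective f := by
    intro i j hij
    induction i using Fin.lastCases with
    | last =>
      induction j using Fin.lastCases with
      | last => rfl
      | cast j =>
        rw [h1, h2] at hij
        exact absurd hij.symm (Fin.succ_ne_zero _)
    | cast i =>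
      induction j using Fin.lastCases with
      | last =>
        rw [h1, h2] at hij
        exact absurd hij (Fin.succ_ne_zero _)
      | cast j =>
        rw [h1, h1] at hij
        rw [τ.injective (Fin.succ_injective d hij)]
  refine ⟨Equiv.ofBijective f (Finite.injective_iff_bijective.1 hinj), ?_⟩
  rw [List.ofFn_succ_last, List.map_ofFn]
  congr 2
  · funext i
    exact (h1 i).symm
  · exact h2.symm

end s1

theorem s1_delta (d : ℕ) (h : Coef (derived S) d (fun _ => (1 : K))) :
    Coef S (d + 1) (fun σ => if σ (Fin.last d) = 0 then (1 : K) else 0) := by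
  obtain ⟨Q, i1, i2, H, g, q0, φ, hQ, hg, h1, h2⟩ := h
  refine ⟨K × Q, inferInstance, inferInstance, ext H, s1G g q0, (1, 0),
    φ ∘ₗ LinearMap.snd K K Q, hQ, ?_, fun σ => ?_, fun l hl => ?_⟩
  · intro i
    rcases Fin.eq_zero_or_eq_succ i with hi | ⟨j, hj⟩
    · rw [hi]
      exact ⟨1, H.one_mem, q0, fun x => s1G_zero g q0 x⟩
    · rw [hj]
      exact ⟨g j, hg j, 0, fun x => by rw [s1G_succ, smul_zero, add_zero]⟩
  · dsimp only
    split_ifs with hσ
    · obtain ⟨τ, hτ⟩ := s1_perm_down hσ
      rw [hτ, s1_form_value, h1]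
    · exact s1_value g q0 φ _ fun hf => hσ (s1_ofFn_last hf)
  · by_cases hf : S1F l
    · obtain ⟨l', hl'⟩ := hf
      rw [hl', s1_form_value]
      refine h2 l' fun τ hτ => ?_
      obtain ⟨σ, hσ⟩ := s1_perm_up τ
      exact hl σ (by rw [hl', hτ, hσ])
    · exact s1_value g q0 φ l hf

theorem coef_one_of_derived (hS : IsClass S) (d : ℕ)
    (h : Coef (derived S) d (fun _ => (1 : K))) : Coef S (d + 1) (fun _ => (1 : K)) := by
  have h0 := s1_delta d h
  have hj : ∀ j : Fin (d + 1),
      Coef S (d + 1) (fun σ => if σ (Fin.last d) = j then (1 : K) else 0) := by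
    intro j
    have h1 := coef_relabel h0 (Equiv.swap 0 j)
    have e : (fun σ : Equiv.Perm (Fin (d + 1)) =>
        if (Equiv.swap 0 j * σ) (Fin.last d) = 0 then (1 : K) else 0)
        = fun σ => if σ (Fin.last d) = j then (1 : K) else 0 := by
      funext σ
      have : (Equiv.swap 0 j * σ) (Fin.last d) = 0 ↔ σ (Fin.last d) = j := by
        rw [Equiv.Perm.mul_apply]
        constructor
        · intro h
          have h3 := congrArg (Equiv.swap 0 j) h
          rw [Equiv.swap_apply_self, Equiv.swap_apply_left] at h3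
          exact h3
        · intro h
          rw [h, Equiv.swap_apply_right]
      simp only [this]
    rw [e] at h1
    exact h1
  have hs : ∀ s : Finset (Fin (d + 1)),
      Coef S (d + 1) (fun σ => ∑ j ∈ s, if σ (Fin.last d) = j then (1 : K) else 0) := by
    intro s
    induction s using Finset.induction_on with
    | empty =>
      have h1 := coef_smul (0 : K) h0
      rw [zero_smul] at h1
      exact h1
    | insert j s hj' ih =>
      have h1 := coef_add hS (hj j) ih
      have e : (fun σ : Equiv.Perm (Fin (d + 1)) =>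
          ∑ j ∈ insert j s, if σ (Fin.last d) = j then (1 : K) else 0)
          = (fun σ => if σ (Fin.last d) = j then (1 : K) else 0)
            + fun σ => ∑ j ∈ s, if σ (Fin.last d) = j then (1 : K) else 0 := by
        funext σ
        rw [Finset.sum_insert hj']
        rfl
      rw [e]
      exact h1
  have h2 := hs Finset.univ
  have e : (fun σ : Equiv.Perm (Fin (d + 1)) =>
      ∑ j, if σ (Fin.last d) = j then (1 : K) else 0) = fun _ => 1 := by
    funext σ
    simp
  rw [e] at h2
  exact h2

end H43.PV
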