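import Pool.Agent.H43.PV.CoefSub
import Pool.Agent.H43.PV.Syn
import Pool.Agent.H43.PV.Dual

/-!
# Module PV-9: the identity obtained from the boundedness of the derived class

Let `w0 = [1, ..., k, 0] = List.ofFn (finRotate (k + 1))`, a word in the letters `Fin (k + 1)`.

By `dual_two` for `X = Perm (Fin (k + 1))`, `D = {lam | Coef S (k + 1) lam}` (closed under `+` and
scalars by `coef_add`, `coef_smul`), `Z = {σ | σ (Fin.last k) ≠ 0}`, `x0 = finRotate (k + 1)`
(`finRotate (k + 1) (Fin.last k) = 0`) it is enough to show (`dagger_aux`): if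
`Coef S (k + 1) lam` and `lam σ = 0` for all `σ` with `σ (Fin.last k) ≠ 0`, then
`lam (finRotate (k + 1)) = 0`.

Proof of `dagger_aux`.  Suppose `lam x0 ≠ 0`.  Take `N, g, μ, φ` from `syntactic`.  By the last
property of `syntactic`, `m = 0` as soon as `φ (wd g l m) = 0` for all `l`; `X_i = g i - 1`.
* `X_i μ = 0` for `i ≠ 0`: `φ (wd g l (X_i μ)) = φ (wd g (l ++ [i]) μ)` and `l ++ [i]` is either not a
  permutation word, or a permutation word with last letter `i ≠ 0`.
* `X_0 (wd g w μ) = 0` if `0 ∈ w`: the word `l ++ [0] ++ w` contains `0` twice, so it is not a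
  permutation word.
* `q0 = X_0 μ ≠ 0`, as `φ (wd g [1,...,k] q0) = φ (wd g w0 μ) = lam x0 ≠ 0`.
* Let `Q` be the span of all `wd g w μ` with `0 ∈ w`.  Then `X_0 Q = 0`, `X_i Q ≤ Q` for all `i`, `q0 ∈
  Q`, `μ ∉ Q` (as `X_0 μ ≠ 0`), and every element of `N` is `a • μ + x` with `a ∈ K`, `x ∈ Q` (a
  non-empty word `w` without letter `0` has `wd g w μ = 0`).  So
  `e : K × Q → N`, `(a, x) ↦ a • μ + x` is a linear bijection.
* Let `h i : Q → Q` (`i : Fin k`) be the restriction of `g i.succ` to `Q` and
  `H = Submonoid.closure (range h)`.  Claim: `derived S Q H`, i.e. `S (K × Q) (ext H)`.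
  By `IsClass.div` with `B = K × Q`, `i = e`, `π = id` and `Γ = closure (range g)` we have to find,
  for every element of `ext H`, `(a, x) ↦ (a, h x + a • y)` (`h ∈ H`, `y ∈ Q`), an element `γ` of
  `closure (range g)` with `γ (a • μ + x) = a • μ + h x + a • y`.
  (1) For `h ∈ H` there is `γ_h ∈ closure (range g)` with `γ_h (a • μ + x) = a • μ + h x`
      (closure induction; `g i.succ μ = μ`).
  (2) For `y ∈ Q` there is a translation `t_y ∈ closure (range g)`, `t_y (a • μ + x) = a • μ + x + a • y`: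
      the set of these `y` is closed under addition (compose), contains `0`, and so it contains
      `n • y` for natural numbers `n`.  It contains `h q0` for `h ∈ H`: `γ_h g_0 γ_h^(q-1)` does it,
      where `γ_h ^ q = 1` (`Good.pow`; `q > 0`).  [`γ_h^(q-1)` maps `a • μ + x` to
      `a • μ + h^(q-1) x`, `g_0` adds `a • q0`, `γ_h` gives `a • μ + h^q x + a • h q0`, and `h^q = 1` on
      `Q` since `γ_h^q = 1`.]  It is closed under `y ↦ -y`, because `N` is finite (`Good.fin`), so
      `-y` is a multiple of `y`.  So the set is an additive subgroup `Y` of `Q` containing `H q0` and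
      mapped into itself by `H` (conjugation by `γ_h` as before).  Then `Y` contains
      `wd h l q0` for all `l` (as `(h i - 1) y = h i y - y`).
      Finally `Y = Q`: here we need `K`-linearity, which is the only place where we need
      `K = ZMod p` (`c • y` is a natural multiple of `y`).  `Q` is the span of the `wd g w μ`
      with `0 ∈ w`; such an element is `0` or `wd h l q0` (if `w = l.map Fin.succ ++ [0]`): if the
      last letter is not `0` it is `0`; if `w = w' ++ [0]` and `0 ∈ w'` it is `0`.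
  The composition `t_y γ_h` is what we need (`t_y` after `γ_h`).
* So by `hk`, `wd id [h 0, ..., h (k-1)] = 0` on `Q`, in particular `wd h [0,...,k-1] q0 = 0`, hence
  `wd g w0 μ = wd g [1,...,k] q0 = 0`, contradicting `lam x0 ≠ 0`.
-/

set_option autoImplicit false

namespace H43.PV

variable {p : ℕ} [Fact p.Prime] {S : PairClass (ZMod p)}

/-- words with a repeated letter are not permutation words -/
theorem s2_nodup {n : ℕ} {l : List (Fin n)} (h : ¬ l.Nodup) (σ : Equiv.Perm (Fin n)) :
    l ≠ List.ofFn σ := by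
  rintro rfl
  exact h (List.nodup_ofFn.2 σ.injective)

/-- the last letter of a permutation word -/
theorem s2_last {n : ℕ} (l : List (Fin (n + 1))) (i : Fin (n + 1)) (σ : Equiv.Perm (Fin (n + 1)))
    (h : l ++ [i] = List.ofFn σ) : σ (Fin.last n) = i := by
  rw [List.ofFn_succ', List.concat_eq_append] at h
  have := List.append_inj_right' h rfl
  simp only [List.cons.injEq, and_true] at this
  exact this.symm

theorem s2_rot (k : ℕ) : List.ofFn (finRotate (k + 1)) =
    (List.finRange k).map Fin.succ ++ [(0 : Fin (k + 1))] := by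
  rw [List.ofFn_succ', List.concat_eq_append, finRotate_last, List.ofFn_eq_map]
  congr 1
  apply List.map_congr_left
  intro i _
  have := finRotate_of_lt (n := k) (k := i.castSucc) (by simpa using i.2)
  rw [Fin.ext_iff]
  simp [this]

theorem dagger_aux {q : ℕ} (hq : 0 < q) (hS : IsClass S)
    (hG : Sub S (fun M _ _ Γ => Good q M Γ)) (k : ℕ) (hk : BddBy (derived S) k)
    (lam : Equiv.Perm (Fin (k + 1)) → ZMod p) (hlam : Coef S (k + 1) lam)
    (h0 : ∀ σ, σ (Fin.last k) ≠ 0 → lam σ = 0) : lam (finRotate (k + 1)) = 0 := by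
  classical
  by_contra hne
  obtain ⟨N, _, _, g, μ, φ, hN, h1, h2, h3, h4⟩ := syntactic hS hlam
  have hgood : Good q N (Submonoid.closure (Set.range g)) := hG N _ hN
  have hgm : ∀ i, g i ∈ Submonoid.closure (Set.range g) := fun i =>
    Submonoid.subset_closure ⟨i, rfl⟩
  -- words ending with a letter different from 0
  have hlast : ∀ (l : List (Fin (k + 1))) (i : Fin (k + 1)), i ≠ 0 →
      φ (wd g (l ++ [i]) μ) = 0 := by
    intro l i hi
    by_cases h : ∃ σ : Equiv.Perm (Fin (k + 1)), l ++ [i] = List.ofFn σ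
    · obtain ⟨σ, hσ⟩ := h
      rw [hσ, h1]
      exact h0 σ (by rw [s2_last l i σ hσ]; exact hi)
    · push Not at h
      exact h2 _ h
  have hXi : ∀ i, i ≠ 0 → (g i - 1) μ = 0 := by
    intro i hi
    apply h4
    intro l
    have := hlast l i hi
    rwa [wd_append, wd_singleton] at this
  have hgi : ∀ i, i ≠ 0 → g i μ = μ := by
    intro i hi
    have := hXi i hi
    rwa [LinearMap.sub_apply, Module.End.one_apply, sub_eq_zero] at this
  have hX0 : ∀ w : List (Fin (k + 1)), (0 : Fin (k + 1)) ∈ w → (g 0 - 1) (wd g w μ) = 0 := by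
    intro w hw
    apply h4
    intro l
    have : φ (wd g (l ++ (0 :: w)) μ) = 0 := by
      apply h2
      apply s2_nodup
      intro hnd
      have := (List.nodup_append.1 hnd).2.1
      exact (List.nodup_cons.1 this).1 hw
    rwa [wd_append, wd_cons] at this
  -- words without 0
  have hno : ∀ w : List (Fin (k + 1)), (0 : Fin (k + 1)) ∉ w → w ≠ [] → wd g w μ = 0 := by
    intro w hw hw'
    obtain ⟨l, i, rfl⟩ : ∃ l i, w = l ++ [i] :=
      ⟨w.dropLast, w.getLast hw', (List.dropLast_append_getLast hw').symm⟩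
    have hi : i ≠ 0 := by
      rintro rfl
      exact hw (by simp)
    rw [wd_append, wd_singleton, Module.End.mul_apply, hXi i hi, map_zero]
  set q0 : N := (g 0 - 1) μ with hq0
  -- the subspace Q
  let Q : Submodule (ZMod p) N := Submodule.span (ZMod p) {x | ∃ w : List (Fin (k + 1)),
    (0 : Fin (k + 1)) ∈ w ∧ x = wd g w μ}
  have hwQ : ∀ w : List (Fin (k + 1)), (0 : Fin (k + 1)) ∈ w → wd g w μ ∈ Q := fun w hw =>
    Submodule.subset_span ⟨w, hw, rfl⟩
  have hq0Q : q0 ∈ Q := by
    have := hwQ [0] (by simp)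
    rwa [wd_singleton] at this
  have hfix : ∀ x ∈ Q, g 0 x = x := by
    intro x hx
    induction hx using Submodule.span_induction with
    | mem x hx =>
      obtain ⟨w, hw, rfl⟩ := hx
      have := hX0 w hw
      rwa [LinearMap.sub_apply, Module.End.one_apply, sub_eq_zero] at this
    | zero => exact map_zero _
    | add x y _ _ hx hy => rw [map_add, hx, hy]
    | smul a x _ hx => rw [map_smul, hx]
  have hstab : ∀ i, ∀ x ∈ Q, g i x ∈ Q := by
    intro i x hx
    induction hx using Submodule.span_induction with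
    | mem x hx =>
      obtain ⟨w, hw, rfl⟩ := hx
      have h5 : g i (wd g w μ) = wd g (i :: w) μ + wd g w μ := by
        rw [wd_cons_apply, sub_add_cancel]
      rw [h5]
      exact Q.add_mem (hwQ _ (List.mem_cons_of_mem _ hw)) (hwQ w hw)
    | zero => rw [map_zero]; exact Q.zero_mem
    | add x y _ _ hx hy => rw [map_add]; exact Q.add_mem hx hy
    | smul a x _ hx => rw [map_smul]; exact Q.smul_mem _ hx
  have hval : φ (wd g ((List.finRange k).map Fin.succ) q0) = lam (finRotate (k + 1)) := by
    rw [← h1, s2_rot, wd_append, wd_singleton]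
    rfl
  have hq0ne : q0 ≠ 0 := by
    intro h
    rw [h, map_zero, map_zero] at hval
    exact hne hval.symm
  have hμQ : μ ∉ Q := by
    intro h
    apply hq0ne
    rw [hq0, LinearMap.sub_apply, Module.End.one_apply, hfix μ h, sub_self]
  -- the restrictions
  let h : Fin k → Module.End (ZMod p) Q := fun i =>
    (g i.succ).restrict (p := Q) (q := Q) (hstab i.succ)
  have hh : ∀ i (x : Q), ((h i x : Q) : N) = g i.succ x := fun i x => rfl
  let H : Submonoid (Module.End (ZMod p) Q) := Submonoid.closure (Set.range h)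
  let G : Submonoid (Module.End (ZMod p) N) := Submonoid.closure (Set.range g)
  -- (1)
  have hlift : ∀ η ∈ H, ∃ γ ∈ G, γ μ = μ ∧ ∀ x : Q, γ x = ((η x : Q) : N) := by
    intro η hη
    induction hη using Submonoid.closure_induction with
    | mem η hη =>
      obtain ⟨i, rfl⟩ := hη
      exact ⟨g i.succ, hgm _, hgi _ (Fin.succ_ne_zero i), fun x => rfl⟩
    | one => exact ⟨1, G.one_mem, rfl, fun x => rfl⟩
    | mul a b _ _ ha hb =>
      obtain ⟨γ, hγ, hγ1, hγ2⟩ := ha
      obtain ⟨δ, hδ, hδ1, hδ2⟩ := hb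
      refine ⟨γ * δ, G.mul_mem hγ hδ, ?_, fun x => ?_⟩
      · rw [Module.End.mul_apply, hδ1, hγ1]
      · rw [Module.End.mul_apply, hδ2, hγ2, Module.End.mul_apply]
  -- (2) translations
  let Y0 : AddSubmonoid N :=
    { carrier := {y | y ∈ Q ∧ ∃ γ ∈ G, γ μ = μ + y ∧ ∀ x ∈ Q, γ x = x}
      zero_mem' := ⟨Q.zero_mem, 1, G.one_mem, by simp, fun x _ => rfl⟩
      add_mem' := by
        rintro y z ⟨hy, γ, hγ, hγ1, hγ2⟩ ⟨hz, δ, hδ, hδ1, hδ2⟩
        refine ⟨Q.add_mem hy hz, γ * δ, G.mul_mem hγ hδ, ?_, fun x hx => ?_⟩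
        · rw [Module.End.mul_apply, hδ1, map_add, hγ1, hγ2 z hz, add_assoc]
        · rw [Module.End.mul_apply, hδ2 x hx, hγ2 x hx] }
  let Y : Submodule (ZMod p) N :=
    { Y0 with
      smul_mem' := by
        intro c x hx
        have h5 : c • x = c.val • x := by
          rw [← Nat.cast_smul_eq_nsmul (ZMod p), ZMod.natCast_zmod_val]
        rw [h5]
        exact Y0.nsmul_mem hx _ }
  have hYQ : ∀ y ∈ Y, y ∈ Q := fun y hy => hy.1
  have hq0Y : q0 ∈ Y := by
    refine ⟨hq0Q, g 0, hgm 0, ?_, hfix⟩
    rw [hq0, LinearMap.sub_apply, Module.End.one_apply]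
    abel
  have hYstab : ∀ i : Fin k, ∀ y ∈ Y, g i.succ y ∈ Y := by
    rintro i y ⟨hy, γ, hγ, hγ1, hγ2⟩
    refine ⟨hstab _ y hy, g i.succ * γ * g i.succ ^ (q - 1),
      G.mul_mem (G.mul_mem (hgm _) hγ) (G.pow_mem (hgm _) _), ?_, fun x hx => ?_⟩
    · have h5 : ∀ n : ℕ, (g i.succ ^ n) μ = μ := by
        intro n
        induction n with
        | zero => rfl
        | succ n ih => rw [pow_succ, Module.End.mul_apply, hgi _ (Fin.succ_ne_zero i), ih]
      rw [Module.End.mul_apply, Module.End.mul_apply, h5, hγ1, map_add,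
        hgi _ (Fin.succ_ne_zero i)]
    · have h5 : ∀ n : ℕ, ∀ x ∈ Q, (g i.succ ^ n) x ∈ Q := by
        intro n
        induction n with
        | zero => exact fun x hx => hx
        | succ n ih =>
          intro x hx
          rw [pow_succ, Module.End.mul_apply]
          exact ih _ (hstab _ x hx)
      rw [Module.End.mul_apply, Module.End.mul_apply, hγ2 _ (h5 _ x hx), ← Module.End.mul_apply,
        ← pow_succ', Nat.sub_add_cancel hq, hgood.pow _ (hgm _)]
      rfl
  have hwY : ∀ w : List (Fin (k + 1)), (0 : Fin (k + 1)) ∈ w → wd g w μ ∈ Y := by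
    intro w
    induction w with
    | nil => intro hw; exact absurd hw (by simp)
    | cons i w ih =>
      intro hw
      by_cases h0w : (0 : Fin (k + 1)) ∈ w
      · have h5 := ih h0w
        rcases Fin.eq_zero_or_eq_succ i with rfl | ⟨j, rfl⟩
        · rw [wd_cons, Module.End.mul_apply, hX0 w h0w]
          exact Y.zero_mem
        · rw [wd_cons_apply]
          exact Y.sub_mem (hYstab j _ h5) h5
      · have hi : i = 0 := by
          rcases List.mem_cons.1 hw with h5 | h5
          · exact h5.symm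
          · exact absurd h5 h0w
        subst hi
        by_cases hwn : w = []
        · subst hwn
          rw [wd_singleton]
          exact hq0Y
        · rw [wd_cons, Module.End.mul_apply, hno w h0w hwn, map_zero]
          exact Y.zero_mem
  have hQY : Q ≤ Y := by
    refine Submodule.span_le.2 ?_
    rintro _ ⟨w, hw, rfl⟩
    exact hwY w hw
  -- the pair `(Q, H)` is in the derived class
  let e : (ZMod p × Q) →ₗ[ZMod p] N :=
    (LinearMap.toSpanSingleton (ZMod p) N μ).coprod Q.subtype
  have he : ∀ x : ZMod p × Q, e x = x.1 • μ + (x.2 : N) := by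
    intro x
    simp [e]
  have hder : derived S Q H := by
    refine hS.div N (ZMod p × Q) (ZMod p × Q) G (ext H) e LinearMap.id hN ?_
      Function.surjective_id ?_
    · intro b hb
      rw [he] at hb
      have h5 : b.1 = 0 := by
        by_contra h6
        apply hμQ
        have h7 : μ = -(b.1⁻¹ • (b.2 : N)) := by
          have h8 : b.1 • μ = -(b.2 : N) := eq_neg_of_add_eq_zero_left hb
          rw [← smul_neg, ← h8, smul_smul, inv_mul_cancel₀ h6, one_smul]
        rw [h7]
        exact Q.neg_mem (Q.smul_mem _ b.2.2)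
      rw [h5, zero_smul, zero_add] at hb
      have h6 : b.2 = 0 := Subtype.ext hb
      rw [LinearMap.id_apply]
      exact Prod.ext h5 h6
    · rintro ε ⟨η, hη, y, hε⟩
      obtain ⟨γ, hγ, hγ1, hγ2⟩ := hlift η hη
      obtain ⟨hyQ, δ, hδ, hδ1, hδ2⟩ := hQY y.2
      refine ⟨δ * γ, G.mul_mem hδ hγ, fun b => ⟨ε b, ?_, rfl⟩⟩
      rw [he, hε, he, Module.End.mul_apply, map_add, map_smul, hγ1, hγ2, map_add, map_smul, hδ1,
        hδ2 _ (η b.2).2, Submodule.coe_add, Submodule.coe_smul, smul_add]
      abel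
  have hz := hk Q H hder (List.ofFn h) (by
    intro γ hγ
    rw [List.mem_ofFn] at hγ
    obtain ⟨i, rfl⟩ := hγ
    exact Submonoid.subset_closure ⟨i, rfl⟩) (by simp)
  rw [List.ofFn_eq_map, wd_map] at hz
  have hw : ∀ (l : List (Fin k)) (x : Q), wd g (l.map Fin.succ) x = ((wd h l x : Q) : N) := by
    intro l x
    induction l with
    | nil => rfl
    | cons i l ih =>
      rw [List.map_cons, wd_cons_apply, wd_cons_apply, ih, Submodule.coe_sub, hh]
  have h5 := hw (List.finRange k) ⟨q0, hq0Q⟩
  have h6 : wd h (List.finRange k) = 0 := hz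
  rw [h6] at h5
  apply hne
  rw [← hval]
  change φ (wd g ((List.finRange k).map Fin.succ) ((⟨q0, hq0Q⟩ : Q) : N)) = 0
  rw [h5]
  simp

theorem dagger {q : ℕ} (hq : 0 < q) (hS : IsClass S)
    (hG : Sub S (fun M _ _ Γ => Good q M Γ)) (k : ℕ) (hk : BddBy (derived S) k) :
    ∃ c : Equiv.Perm (Fin (k + 1)) → ZMod p,
      (∀ lam, Coef S (k + 1) lam → ∑ σ, c σ * lam σ = 0) ∧ c (finRotate (k + 1)) = 1 ∧
      ∀ σ, σ (Fin.last k) = 0 → σ ≠ finRotate (k + 1) → c σ = 0 := by
  obtain ⟨c, hc, hc1, hc2⟩ := dual_two (X := Equiv.Perm (Fin (k + 1)))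
    {lam | Coef S (k + 1) lam} (fun a ha b hb => coef_add hS ha hb)
    (fun c a ha => coef_smul c ha) {σ | σ (Fin.last k) ≠ 0} (finRotate (k + 1))
    (by
      rw [Set.mem_ofPred_eq, finRotate_last]
      exact fun h => h rfl)
    (fun lam hlam h => dagger_aux hq hS hG k hk lam hlam h)
  exact ⟨c, hc, hc1, fun σ hσ hne => hc2 σ (by
    rw [Set.mem_ofPred_eq]
    exact fun h => h hσ) hne⟩

end H43.PV
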