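import Pool.Agent.H43.PV.Derived
import Pool.Agent.H43.PV.Step1
import Pool.Agent.H43.PV.Step2
import Pool.Agent.H43.PV.Local
import Pool.Agent.H43.PV.Base

/-!
# The induction
-/

set_option autoImplicit false

namespace H43.PV

variable {p q : ℕ} [Fact p.Prime] {P : (G : Type) → [Group G] → Prop}

theorem bdd_zero {S : PairClass (ZMod p)} (h : ¬ Coef S 0 (fun _ => (1 : ZMod p))) :
    BddBy S 0 := by
  intro M _ _ Γ hM l hl hl0
  rw [List.length_eq_zero_iff] at hl0
  subst hl0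
  rw [wd_nil]
  by_contra hne
  obtain ⟨μ, hμ⟩ : ∃ μ : M, μ ≠ 0 := by
    by_contra hno
    push Not at hno
    apply hne
    ext m
    simp [hno m]
  obtain ⟨φ, hφ⟩ : ∃ φ : M →ₗ[ZMod p] ZMod p, φ μ = 1 := by
    obtain ⟨φ, hφ, -⟩ := Submodule.exists_le_ker_of_notMem (K := ZMod p)
      (p := (⊥ : Submodule (ZMod p) M)) (v := μ) (by simpa using hμ)
    exact ⟨(φ μ)⁻¹ • φ, by simp [inv_mul_cancel₀ hφ]⟩
  refine h ⟨M, _, _, Γ, fun i => i.elim0, μ, φ, hM, fun i => i.elim0, fun σ => ?_, fun l hl => ?_⟩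
  · simpa using hφ
  · exfalso
    refine hl 1 ?_
    rw [List.ofFn_zero]
    cases l with
    | nil => rfl
    | cons a l => exact a.elim0

theorem Pd (hq : 0 < q) (hP : Cls p q P) (d : ℕ) : ∀ S : PairClass (ZMod p), IsClass S →
    Sub S (PP P) → ¬ Coef S d (fun _ => 1) → ∃ k, BddBy S k := by
  have hp : p.Prime := Fact.out
  have hgood : Sub (PP (K := ZMod p) P) (fun M _ _ Γ => Good q M Γ) := pp_good hp hP
  induction d with
  | zero =>
    intro S hS hSP h
    exact ⟨0, bdd_zero h⟩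
  | succ d ih =>
    intro S hS hSP h
    have hG : Sub S (fun M _ _ Γ => Good q M Γ) := fun M _ _ Γ hM => hgood M Γ (hSP M Γ hM)
    obtain ⟨k, hk⟩ := ih (derived S) (derived_isClass hS)
      (fun M _ _ Γ hM => hSP M Γ (derived_sub hS M Γ hM))
      (fun h' => h (coef_one_of_derived hS d h'))
    obtain ⟨c, hc, hc0, hc1⟩ := dagger hq hS hG k hk
    obtain ⟨f, hf, hf1⟩ := dual_one (X := Equiv.Perm (Fin (d + 1))) {lam | Coef S (d + 1) lam}
      (fun a ha b hb => coef_add hS ha hb) (fun c a ha => coef_smul c ha) h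
    choose N hN using fun r => local_bound hq hS hG f hf hf1 c hc hc0 hc1 r
    exact bdd_of_local hp hq hP S hSP N (fun M _ _ Γ hM r g hg l hl => hN r M Γ hM g hg l hl)

/-- the sections of the groups in `P` are bounded -/
theorem pp_bdd (hq : 0 < q) (hP : Cls p q P) : ∃ k, BddBy (PP (K := ZMod p) P) k := by
  obtain ⟨c, hc⟩ := base hq hP
  exact Pd hq hP c _ (pp_isClass hP) (fun M _ _ Γ h => h) hc

end H43.PV
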