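import Pool.Agent.H89.ProP.VarDefs

/-!
# Module PV-17: a topologically finitely generated group of exponent `p ^ e` in `V` is finite, if
the finite groups of exponent `p ^ e` in `V` have class at most `c`

## Proof
* `(⊤ : Subgroup G).lowerCentralSeries c = ⊥`: if `x ≠ 1` is in it, take an open normal subgroup `O`
  with `x ∉ O` (`ProfiniteGrp.exist_openNormalSubgroup_sub_open_nhds_of_one`); the image of `x` in
  `G ⧸ O` is in the `c`-th term of the lower central series of `G ⧸ O`, which is trivial by `hc`
  (`quot_open`).  See the end of the proof of `main_step` in `H89/ProP/Main.lean`.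
* `finite_of_fg_nilpotent_exp`: a finitely generated nilpotent group of finite exponent is finite.
  Induction on `c`: for `c = 0` the group is trivial.  Let `C` be the `c`-th term, so that the
  `(c+1)`-st term is trivial, i.e. `C` is central, and `G ⧸ C` is f.g. with trivial `c`-th term, so
  finite by induction.  `C` has finite index, so it is finitely generated (Schreier,
  `Subgroup.fg_of_index_ne_zero`), abelian of finite exponent, so finite
  (`finite_of_fg_comm_exp` in `H89/ProP/VarDefs.lean`).  `Finite.of_subgroup_quotient`.
* Let `s` be a finite set with dense `D = Subgroup.closure s`.  `D` is finitely generated, nilpotent,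
  of exponent dividing `p ^ e`, so finite; finite sets are closed (`T2Space`), so `D = G` is finite
  (see `locNilp_EEV` in `H89/ProP/VarDefs.lean`).
-/

set_option autoImplicit false

namespace H43.PV

open H89.ProP
open scoped commutatorElement

theorem finite_of_fg_nilpotent_exp (n : ℕ) (hn : 0 < n) (c : ℕ) : ∀ (G : Type) [Group G],
    Group.FG G → (⊤ : Subgroup G).lowerCentralSeries c = ⊥ → (∀ x : G, x ^ n = 1) →
    Finite G := by
  induction c with
  | zero =>
    intro G _ _ h _
    rw [Subgroup.lowerCentralSeries_zero] at h
    have : Subsingleton G := by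
      rw [subsingleton_iff]
      intro a b
      have ha : a ∈ (⊤ : Subgroup G) := trivial
      have hb : b ∈ (⊤ : Subgroup G) := trivial
      rw [h, Subgroup.mem_bot] at ha hb
      rw [ha, hb]
    infer_instance
  | succ c ih =>
    intro G _ hfg h hexp
    have hcent : ∀ x ∈ (⊤ : Subgroup G).lowerCentralSeries c, ∀ y : G, x * y = y * x := by
      intro x hx y
      rw [Subgroup.lowerCentralSeries_succ] at h
      have h1 : ⁅x, y⁆ ∈ (⊥ : Subgroup G) := by
        rw [← h]
        exact Subgroup.commutator_mem_commutator hx (Subgroup.mem_top y)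
      rw [Subgroup.mem_bot] at h1
      exact _root_.commutatorElement_eq_one_iff_mul_comm.1 h1
    let C : Subgroup G := (⊤ : Subgroup G).lowerCentralSeries c
    have hN : C.Normal := by
      change ((⊤ : Subgroup G).lowerCentralSeries c).Normal
      infer_instance
    have hQ : Finite (G ⧸ C) := by
      refine ih (G ⧸ C) inferInstance ?_ ?_
      · have h1 := Subgroup.map_lowerCentralSeries (⊤ : Subgroup G) (QuotientGroup.mk' C) c
        rw [Subgroup.map_top_of_surjective _ (QuotientGroup.mk'_surjective _)] at h1
        rw [← h1, Subgroup.map_eq_bot_iff, QuotientGroup.ker_mk']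
      · intro x
        obtain ⟨x, rfl⟩ := QuotientGroup.mk_surjective x
        rw [← QuotientGroup.mk_pow, hexp, QuotientGroup.mk_one]
    have hfi : C.FiniteIndex := Subgroup.finiteIndex_of_finite_quotient
    have hCf : Finite C := by
      refine finite_of_fg_comm_exp (G := C) hn ?_ ?_
      · intro x y
        exact Subtype.ext (hcent _ x.2 _)
      · intro x
        exact Subtype.ext (hexp _)
    exact Finite.of_subgroup_quotient C

theorem finite_of_class {p e c : ℕ} (hp : p.Prime) {V : GroupClass} (hV : IsVariety V)
    (hc : ∀ (G : Type) [Group G], (Finite G ∧ @V G _ ⊥) → (∀ x : G, x ^ (p ^ e) = 1) →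
      (⊤ : Subgroup G).lowerCentralSeries c = ⊥)
    (G : Type) [Group G] [TopologicalSpace G] (hG : V G) (hfg : TopFG G)
    (hexp : ∀ x : G, x ^ (p ^ e) = 1) : Finite G := by
  obtain ⟨htg, hcomp, htd, ht2⟩ := hV.profinite G hG
  have hlcs : (⊤ : Subgroup G).lowerCentralSeries c = ⊥ := by
    rw [eq_bot_iff]
    intro x hx
    rw [Subgroup.mem_bot]
    by_contra hx1
    obtain ⟨O, hO⟩ := ProfiniteGrp.exist_openNormalSubgroup_sub_open_nhds_of_one
      (U := {x}ᶜ) isOpen_compl_singleton (by
        rw [Set.mem_compl_singleton_iff]
        exact fun h => hx1 h.symm)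
    have hcl : (⊤ : Subgroup (G ⧸ O.toSubgroup)).lowerCentralSeries c = ⊥ := by
      refine hc _ (quot_open hV hG O.toSubgroup O.isOpen') ?_
      intro y
      obtain ⟨y, rfl⟩ := QuotientGroup.mk_surjective y
      rw [← QuotientGroup.mk_pow, hexp, QuotientGroup.mk_one]
    have h1 := Subgroup.map_lowerCentralSeries (⊤ : Subgroup G) (QuotientGroup.mk' O.toSubgroup) c
    rw [Subgroup.map_top_of_surjective _ (QuotientGroup.mk'_surjective _), hcl] at h1
    have h2 : (QuotientGroup.mk' O.toSubgroup) x ∈
        ((⊤ : Subgroup G).lowerCentralSeries c).map (QuotientGroup.mk' O.toSubgroup) :=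
      ⟨x, hx, rfl⟩
    rw [h1, Subgroup.mem_bot] at h2
    have h3 : x ∈ O.toSubgroup := (QuotientGroup.eq_one_iff _).1 h2
    exact hO h3 rfl
  obtain ⟨s, hs⟩ := hfg
  have hfg' : Group.FG (Subgroup.closure (s : Set G)) := Group.closure_finset_fg s
  have hfin : Finite (Subgroup.closure (s : Set G)) := by
    refine finite_of_fg_nilpotent_exp (p ^ e) (pow_pos hp.pos e) c _ hfg' ?_ ?_
    · have h1 := Subgroup.top_subtype_lowerCentralSeries (Subgroup.closure (s : Set G)) c
      have h2 : (Subgroup.closure (s : Set G)).lowerCentralSeries c ≤ ⊥ := by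
        rw [← hlcs]
        exact Subgroup.lowerCentralSeries_mono c le_top
      rw [← h1, le_bot_iff] at h2
      exact (Subgroup.map_eq_bot_iff_of_injective _ (Subgroup.subtype_injective _)).1 h2
    · intro x
      exact Subtype.ext (hexp _)
  have hcl : IsClosed ((Subgroup.closure (s : Set G) : Subgroup G) : Set G) :=
    (Set.toFinite _).isClosed
  rw [hcl.closure_eq] at hs
  rw [← Set.finite_univ_iff, ← hs]
  exact Set.toFinite _

end H43.PV
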