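import Pool.Agent.H43.PV.Defs
import Pool.Agent.H89.ProP.VarDefs

/-!
# Module PV-16: if all locally nilpotent subvarieties of `V` are nilpotent, then the finite groups
of exponent dividing `p ^ e` in `V` satisfy `Cls`

## Proof
`FinVar`, `prod`, `exp` follow from `finVar hV hVp` (in `H89/ProP/VarDefs.lean`) and easy facts about
exponents; `prod` from `IsVariety.pi` for `Bool` and an isomorphism, or from the closure of `V` under
binary products (discrete topologies as in `finVar`).

`H1`: let `f : ℕ → ℕ`.  Let `U G` be: `V G`, `x ^ (p ^ e) = 1` for all `x : G`, and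
`(Subgroup.closure (Set.range t)).lowerCentralSeries (f r) = ⊥` for all `r` and `t : Fin r → G`.
* `U` is a variety.  Isomorphisms, subgroups: map the tuple by an injective homomorphism `j`
  (`MonoidHom.map_closure`, `Subgroup.map_lowerCentralSeries`, `Subgroup.map_eq_bot_iff_of_injective`).
  Quotients: lift the tuple to `G`, the group generated by the image is the image.  Products: for
  `t : Fin r → ∀ i, H i`, the lower central series of `closure (range t)` is mapped by the
  `i`-th projection to that of `closure (range (fun j => t j i))`, which is trivial; an element with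
  all coordinates `1` is `1`.
* `U` is locally nilpotent: let `G` be in `U`, topologically generated by a finite set `s`, the
  range of a `t : Fin r → G`.  `D = Subgroup.closure s` has `D.lowerCentralSeries (f r) = ⊥` and
  `D` is dense in `G`; so `(⊤ : Subgroup G).lowerCentralSeries (f r) = ⊥`, because `G` is a Hausdorff
  topological group: by induction on `n`, the `n`-th term of the series of `⊤` is contained in the
  topological closure of the `n`-th term of the series of `D` (for `x ∈ closure A`, `y ∈ closure B`,
  `[x, y] ∈ closure {[a, b]}`).  [Mathlib may have `Subgroup.isNilpotent_closure` or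
  `Subgroup.commGroupTopologicalClosure`-like results; `IsTopologicalGroup` is from
  `hV.profinite`.]
* So `U` is nilpotent by `h`.  If there were no `k` as wanted there would be groups `G k` in the
  class with `(⊤ : Subgroup (G k)).lowerCentralSeries k ≠ ⊥`; with discrete topologies they are in
  `U`, and so is their product over `k : ℕ`; it is nilpotent, of class `n`, say, and so is
  `G n`, its image (`lcs_of_surj`), a contradiction.  See `not_nilp_EEV`.
-/

set_option autoImplicit false

namespace H43.PV

open H89.ProP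

open scoped commutatorElement

/-- the lower central series of a finitely generated subgroup and homomorphisms -/
theorem vc_lcs_map {G H : Type} [Group G] [Group H] (φ : G →* H) {r : ℕ} (t : Fin r → G)
    (n : ℕ) : (Subgroup.closure (Set.range fun j => φ (t j))).lowerCentralSeries n =
      ((Subgroup.closure (Set.range t)).lowerCentralSeries n).map φ := by
  rw [Subgroup.map_lowerCentralSeries, MonoidHom.map_closure, ← Set.range_comp]
  rfl

/-- the conditions on finitely generated subgroups -/
def vcB (f : ℕ → ℕ) (G : Type) [Group G] : Prop :=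
  ∀ (r : ℕ) (t : Fin r → G), (Subgroup.closure (Set.range t)).lowerCentralSeries (f r) = ⊥

theorem vcB_inj {f : ℕ → ℕ} {G H : Type} [Group G] [Group H] (h : vcB f G) (φ : H →* G)
    (hφ : Function.Injective φ) : vcB f H := by
  intro r t
  have h1 := vc_lcs_map φ t (f r)
  rw [h r (fun j => φ (t j))] at h1
  exact (Subgroup.map_eq_bot_iff_of_injective _ hφ).1 h1.symm

theorem vcB_surj {f : ℕ → ℕ} {G H : Type} [Group G] [Group H] (h : vcB f G) (φ : G →* H)
    (hφ : Function.Surjective φ) : vcB f H := by
  intro r t
  choose t' ht' using fun j => hφ (t j)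
  have h1 := vc_lcs_map φ t' (f r)
  have h2 : (fun j => φ (t' j)) = t := funext ht'
  rw [h r t', Subgroup.map_bot, h2] at h1
  exact h1

theorem vcB_pi {f : ℕ → ℕ} {I : Type} {H : I → Type} [∀ i, Group (H i)]
    (h : ∀ i, vcB f (H i)) : vcB f ((i : I) → H i) := by
  intro r t
  rw [eq_bot_iff]
  intro x hx
  rw [Subgroup.mem_bot]
  funext i
  have h1 := vc_lcs_map (Pi.evalMonoidHom H i) t (f r)
  rw [h i r] at h1
  have h2 : Pi.evalMonoidHom H i x ∈
      ((Subgroup.closure (Set.range t)).lowerCentralSeries (f r)).map (Pi.evalMonoidHom H i) :=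
    ⟨x, hx, rfl⟩
  rw [← h1, Subgroup.mem_bot] at h2
  exact h2

/-- the lower central series of a dense subgroup -/
theorem vc_dense {G : Type} [Group G] [TopologicalSpace G] [IsTopologicalGroup G]
    {D : Subgroup G} (hD : closure (D : Set G) = Set.univ) (n : ℕ) :
    ∀ x ∈ (⊤ : Subgroup G).lowerCentralSeries n,
      x ∈ closure ((D.lowerCentralSeries n : Subgroup G) : Set G) := by
  induction n with
  | zero =>
    intro x _
    rw [Subgroup.lowerCentralSeries_zero, hD]
    trivial
  | succ n ih =>
    suffices hs : (⊤ : Subgroup G).lowerCentralSeries (n + 1) ≤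
        (D.lowerCentralSeries (n + 1)).topologicalClosure by
      intro x hx
      exact hs hx
    rw [Subgroup.lowerCentralSeries_succ, Subgroup.commutator_le]
    intro g₁ h₁ g₂ _
    have h2 : g₂ ∈ closure (D : Set G) := by
      rw [hD]
      trivial
    have hcont : Continuous (Function.uncurry fun a b : G => ⁅a, b⁆) := by
      simp only [Function.uncurry_def, commutatorElement_def]
      fun_prop
    exact map_mem_closure₂ hcont (ih g₁ h₁) h2 fun a ha b hb =>
      Subgroup.commutator_mem_commutator ha hb

theorem vc_prod {V : GroupClass} (hV : IsVariety V) {G H : Type} [Group G] [Group H]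
    (hG : @V G _ ⊥) (hH : @V H _ ⊥) : @V (G × H) _ ⊥ := by
  let Hf : Bool → Type := fun b => match b with
    | true => G
    | false => H
  let i1 : ∀ b, Group (Hf b) := fun b => match b with
    | true => inferInstanceAs (Group G)
    | false => inferInstanceAs (Group H)
  let i2 : ∀ b, TopologicalSpace (Hf b) := fun b => ⊥
  have i3 : ∀ b, DiscreteTopology (Hf b) := fun b => ⟨rfl⟩
  have h1 : ∀ b, V (Hf b) := fun b => match b with
    | true => hG
    | false => hH
  have h2 := hV.pi Bool Hf h1
  let i4 : TopologicalSpace (G × H) := ⊥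
  have i5 : DiscreteTopology (G × H) := ⟨rfl⟩
  refine hV.iso ((b : Bool) → Hf b) (G × H) ⟨{
    toFun := fun x => (x true, x false)
    invFun := fun x b => match b with
      | true => x.1
      | false => x.2
    left_inv := ?_
    right_inv := ?_
    map_mul' := ?_
    continuous_toFun := continuous_of_discreteTopology
    continuous_invFun := continuous_of_discreteTopology }⟩ h2
  · intro x
    funext b
    cases b <;> rfl
  · intro x
    rfl
  · intro x y
    rfl

theorem cls_of_variety {p e : ℕ} (hp : p.Prime) {V : GroupClass} (hV : IsVariety V)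
    (hVp : IsProP p V)
    (h : ∀ U : GroupClass, IsVariety U →
      (∀ (G : Type) [Group G] [TopologicalSpace G], U G → V G) → LocNilp U → Nilp U) :
    Cls p (p ^ e) (fun G _ => (Finite G ∧ @V G _ ⊥) ∧ ∀ x : G, x ^ (p ^ e) = 1) := by
  have hfv := finVar hV hVp
  refine { fin := ?_, pg := ?_, iso := ?_, sub := ?_, quot := ?_, pow := ?_, prod := ?_,
           exp := ?_, H1 := ?_ }
  · rintro G _ ⟨hG, -⟩
    exact hG.1
  · rintro G _ ⟨hG, -⟩
    exact hfv.pg G hG
  · rintro G H _ _ ⟨i⟩ ⟨hG, hx⟩
    refine ⟨hfv.iso G H ⟨i⟩ hG, fun x => ?_⟩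
    obtain ⟨y, rfl⟩ := i.surjective x
    rw [← map_pow, hx, map_one]
  · rintro G _ ⟨hG, hx⟩ H
    exact ⟨hfv.sub G hG H, fun x => Subtype.ext (hx _)⟩
  · rintro G _ ⟨hG, hx⟩ N _
    refine ⟨hfv.quot G hG N, fun x => ?_⟩
    obtain ⟨x, rfl⟩ := QuotientGroup.mk_surjective x
    rw [← QuotientGroup.mk_pow, hx, QuotientGroup.mk_one]
  · rintro G _ ⟨hG, hx⟩ I _
    exact ⟨hfv.pow G hG I, fun x => funext fun i => hx _⟩
  · rintro G H _ _ ⟨⟨hG1, hG2⟩, hG3⟩ ⟨⟨hH1, hH2⟩, hH3⟩
    exact ⟨⟨inferInstance, vc_prod hV hG2 hH2⟩, fun x => Prod.ext (hG3 _) (hH3 _)⟩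
  · rintro G _ ⟨-, hx⟩
    exact hx
  · intro f
    let U : GroupClass := fun G _ _ => V G ∧ (∀ x : G, x ^ (p ^ e) = 1) ∧ vcB f G
    have hU : IsVariety U := by
      constructor
      · rintro G _ _ ⟨hG, -⟩
        exact hV.profinite G hG
      · rintro G H _ _ _ _ ⟨i⟩ ⟨hG, hx, hB⟩
        refine ⟨hV.iso G H ⟨i⟩ hG, fun x => ?_, ?_⟩
        · obtain ⟨y, rfl⟩ := i.surjective x
          have h1 := hx y
          have h2 : i (y ^ (p ^ e)) = i y ^ (p ^ e) := map_pow i y _
          rw [← h2, h1]
          exact map_one i
        · exact vcB_surj hB i.toMulEquiv.toMonoidHom i.toMulEquiv.surjective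
      · rintro G _ _ ⟨hG, hx, hB⟩ H hH
        exact ⟨hV.sub G hG H hH, fun x => Subtype.ext (hx _),
          vcB_inj hB H.subtype H.subtype_injective⟩
      · rintro G _ _ ⟨hG, hx, hB⟩ N _ hN
        refine ⟨hV.quot G hG N hN, fun x => ?_,
          vcB_surj hB (QuotientGroup.mk' N) (QuotientGroup.mk'_surjective N)⟩
        obtain ⟨x, rfl⟩ := QuotientGroup.mk_surjective x
        rw [← QuotientGroup.mk_pow, hx, QuotientGroup.mk_one]
      · intro I H _ _ hI
        exact ⟨hV.pi I H fun i => (hI i).1, fun x => funext fun i => (hI i).2.1 _,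
          vcB_pi fun i => (hI i).2.2⟩
    have hUl : LocNilp U := by
      rintro G _ _ ⟨hG, hx, hB⟩ ⟨s, hs⟩
      obtain ⟨htg, hc, htd, ht2⟩ := hV.profinite G hG
      let t : Fin s.card → G := fun j => (s.equivFin.symm j : G)
      have ht : Set.range t = (s : Set G) := by
        ext x
        constructor
        · rintro ⟨j, rfl⟩
          exact (s.equivFin.symm j).2
        · intro hxs
          exact ⟨s.equivFin ⟨x, hxs⟩, by simp [t]⟩
      have h1 := hB s.card t
      rw [ht] at h1
      refine Subgroup.nilpotent_iff_lowerCentralSeries.2 ⟨f s.card, ?_⟩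
      rw [eq_bot_iff]
      intro x hx'
      have h2 := vc_dense hs (f s.card) x hx'
      rw [h1, Subgroup.coe_bot, closure_singleton] at h2
      exact h2
    have hUn : Nilp U := h U hU (fun G _ _ hG => hG.1) hUl
    by_contra hcon
    push Not at hcon
    choose G hG1 hG2 hG3 hG4 using hcon
    let i1 : ∀ k, TopologicalSpace (G k) := fun k => ⊥
    have h1 : ∀ k, U (G k) := fun k => ⟨(hG2 k).1.2, (hG2 k).2, hG3 k⟩
    have h2 : U ((k : ℕ) → G k) := hU.pi ℕ G h1
    have h3 : Group.IsNilpotent ((k : ℕ) → G k) := hUn _ h2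
    obtain ⟨n, hn⟩ := Subgroup.nilpotent_iff_lowerCentralSeries.1 h3
    exact hG4 n (lcs_of_surj (Pi.evalMonoidHom G n) (Function.surjective_eval n) hn)

end H43.PV
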