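import Pool.Agent.H43.PV.Ind
import Pool.Agent.H43.PV.ClassBound
import Pool.Agent.H43.PV.VarCls
import Pool.Agent.H43.PV.Top
import Pool.Agent.H89.ProP.Main

/-!
# Main theorem
-/

set_option autoImplicit false

namespace H43.PV

open H89.ProP

theorem main {p : ℕ} (hp : p.Prime) {V : GroupClass} (hV : IsVariety V) (hVp : IsProP p V)
    (hn : ¬ Nilp V) :
    ∃ U : GroupClass, IsVariety U ∧ (∀ (G : Type) [Group G] [TopologicalSpace G], U G → V G) ∧
      LocNilp U ∧ ¬ Nilp U := by
  by_contra hcon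
  have h : ∀ U : GroupClass, IsVariety U →
      (∀ (G : Type) [Group G] [TopologicalSpace G], U G → V G) → LocNilp U → Nilp U := by
    intro U hU hUV hl
    by_contra hnn
    exact hcon ⟨U, hU, hUV, hl, hnn⟩
  have hfac : Fact p.Prime := ⟨hp⟩
  rcases trichotomy hp hV hVp with h1 | h1 | h1
  · exact h1 (h _ (isVariety_EEV hV) (fun G _ _ hG => hG.1) (locNilp_EEV hp hV hVp))
  · exact hn (h V hV (fun G _ _ hG => hG) h1)
  · obtain ⟨e, -, G, _, _, hG, hfg, hinf, hexp⟩ := h1
    have hcls := cls_of_variety (e := e) hp hV hVp h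
    have hq : 0 < p ^ e := pow_pos hp.pos e
    obtain ⟨k, hk⟩ := pp_bdd hq hcls
    have hfin := finite_of_class (c := 2 * (e * k)) hp hV
      (fun G _ hG hx => class_of_bdd hcls hk G ⟨hG, hx⟩) G hG hfg hexp
    exact hinf.not_finite hfin

end H43.PV
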