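import Pool.Agent.H43.PV.CoefSub
import Pool.Agent.H43.PV.Filt

/-!
# Module PV-11: functions orthogonal to the coefficient functions, evaluated at Lie monomials

Let `f` be orthogonal to all coefficient functions of `S` for `n` letters, `t : Fin n → LM r`, `(M, Γ)`
in `S`, `g : Fin r → Γ`, `e = ∑ i, (t i).deg`.  Then for `v ∈ Fil g m` the vector
`u = ∑ σ, f σ • (t (σ 0)).op (... ((t (σ (n-1))).op v))` is in `F = Fil g (m + e + 1)`.

## Proof
Suppose `u ∉ F`.  There is a linear form `φ` on `M` vanishing on `F` with `φ u ≠ 0`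
(`Submodule.exists_le_ker_of_notMem`).  Let `γ i = (t i).grp q g ∈ Γ`.  By `LM.op_EF`,
`LM.grp_sub`: `γ i - 1` raises the filtration by `(t i).deg` and `γ i - 1 - (t i).op g` raises it by
`(t i).deg + 1`.
* For a list `l` in `Fin n`, `wd γ l` raises the filtration by `(l.map fun i => (t i).deg).sum`.  If
  `n < l.length` and all letters occur in `l` this sum is `> e` (all degrees are positive: `l` is a
  permutation of `List.finRange n ++ l'` with `l'` non-empty - or use `Multiset`s), so
  `wd γ l v ∈ F` and `φ (wd γ l v) = 0`.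
* By `coef_of_full` (for `γ`, `v`, `φ`), `lam σ = φ (wd γ (List.ofFn σ) v)` is a coefficient function,
  so `∑ σ, f σ * lam σ = 0`.
* `wd γ (List.ofFn σ) v - (List.ofFn fun i => (t (σ i)).op g).prod v ∈ F`: for every list `l` in
  `Fin n`, `wd γ l - (l.map fun i => (t i).op g).prod` raises the filtration by
  `(l.map fun i => (t i).deg).sum + 1` (induction on `l`, `a b - a' b' = (a - a') b + a' (b - b')`),
  and for `l = List.ofFn σ` the sum is `e` (`Equiv.sum_comp`).
So `φ u = ∑ σ, f σ * φ (...) = ∑ σ, f σ * lam σ = 0`, a contradiction.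
-/

set_option autoImplicit false

namespace H43.PV

section aux

variable {K : Type} [Field K] {M : Type} [AddCommGroup M] [Module K M] {r n : ℕ}

theorem perp_grp_EF {q : ℕ} (hq : 0 < q) {g : Fin r → Module.End K M}
    {Γ : Submonoid (Module.End K M)} (hG : Good q M Γ) (hg : ∀ i, g i ∈ Γ) (t : LM r) :
    EF g t.deg (t.grp q g - 1) := by
  have h1 : t.grp q g - 1 = (t.grp q g - 1 - t.op g) + t.op g := by abel
  rw [h1]
  exact ((LM.grp_sub hq hG hg t).mono (Nat.le_succ _)).add (LM.op_EF g t)

theorem perp_op_EF (g : Fin r → Module.End K M) (t : Fin n → LM r) (l : List (Fin n)) :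
    EF g (l.map fun i => (t i).deg).sum (l.map fun i => (t i).op g).prod := by
  induction l with
  | nil => simpa using EF.one
  | cons i l ih =>
    simp only [List.map_cons, List.sum_cons, List.prod_cons]
    exact (LM.op_EF g (t i)).mul ih

theorem perp_wd_EF {q : ℕ} (hq : 0 < q) {g : Fin r → Module.End K M}
    {Γ : Submonoid (Module.End K M)} (hG : Good q M Γ) (hg : ∀ i, g i ∈ Γ) (t : Fin n → LM r)
    (l : List (Fin n)) :
    EF g (l.map fun i => (t i).deg).sum (wd (fun i => (t i).grp q g) l) := by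
  induction l with
  | nil => simpa using EF.one
  | cons i l ih =>
    simp only [List.map_cons, List.sum_cons, wd_cons]
    exact (perp_grp_EF hq hG hg (t i)).mul ih

theorem perp_diff {q : ℕ} (hq : 0 < q) {g : Fin r → Module.End K M}
    {Γ : Submonoid (Module.End K M)} (hG : Good q M Γ) (hg : ∀ i, g i ∈ Γ) (t : Fin n → LM r)
    (l : List (Fin n)) :
    EF g ((l.map fun i => (t i).deg).sum + 1)
      (wd (fun i => (t i).grp q g) l - (l.map fun i => (t i).op g).prod) := by
  induction l with
  | nil => simpa using EF.zero 1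
  | cons i l ih =>
    simp only [List.map_cons, List.sum_cons, List.prod_cons, wd_cons]
    have e : ((t i).grp q g - 1) * wd (fun i => (t i).grp q g) l
        - (t i).op g * (l.map fun i => (t i).op g).prod
        = ((t i).grp q g - 1 - (t i).op g) * wd (fun i => (t i).grp q g) l
          + (t i).op g * (wd (fun i => (t i).grp q g) l - (l.map fun i => (t i).op g).prod) := by
      noncomm_ring
    rw [e]
    have h1 := (LM.grp_sub hq hG hg (t i)).mul (perp_wd_EF hq hG hg t l)
    have h2 := (LM.op_EF g (t i)).mul ih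
    exact (h1.mono (by omega)).add (h2.mono (by omega))

theorem perp_sum_lt (f : Fin n → ℕ) (hf : ∀ i, 0 < f i) (l : List (Fin n)) (hl : n < l.length)
    (hall : ∀ i, i ∈ l) : ∑ i, f i < (l.map f).sum := by
  have huniv : l.toFinset = Finset.univ := by
    ext i; simp [hall i]
  have hlen : ∑ i, l.count i = l.length := by
    have := List.sum_toFinset_count_eq_length l
    rwa [huniv] at this
  have hsum : (l.map f).sum = ∑ i, l.count i * f i := by
    rw [Finset.sum_list_map_count, huniv]
    rfl
  rw [hsum]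
  have h1 : ∑ i, (f i + l.count i) ≤ ∑ i, (l.count i * f i + 1) := by
    refine Finset.sum_le_sum fun i _ => ?_
    have hc : 0 < l.count i := List.count_pos_iff.2 (hall i)
    have hf' := hf i
    obtain ⟨c, hc'⟩ : ∃ c, l.count i = c + 1 := ⟨l.count i - 1, by omega⟩
    obtain ⟨d, hd⟩ : ∃ d, f i = d + 1 := ⟨f i - 1, by omega⟩
    rw [hc', hd]
    nlinarith [Nat.zero_le (c * d)]
  rw [Finset.sum_add_distrib, Finset.sum_add_distrib, hlen] at h1
  simp only [Finset.sum_const, Finset.card_univ, Fintype.card_fin, smul_eq_mul, mul_one] at h1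
  omega

end aux

variable {K : Type} [Field K] {S : PairClass K}

theorem perp_apply {q : ℕ} (hq : 0 < q) (hS : IsClass S)
    (hG : Sub S (fun M _ _ Γ => Good q M Γ)) {n : ℕ} (f : Equiv.Perm (Fin n) → K)
    (hf : ∀ lam, Coef S n lam → ∑ σ, f σ * lam σ = 0) {M : Type} [AddCommGroup M] [Module K M]
    {Γ : Submonoid (Module.End K M)} (hM : S M Γ) {r : ℕ} (g : Fin r → Module.End K M)
    (hg : ∀ i, g i ∈ Γ) (t : Fin n → LM r) (m : ℕ) (v : M) (hv : v ∈ Fil g m) :
    ∑ σ : Equiv.Perm (Fin n), f σ • (List.ofFn fun i => (t (σ i)).op g).prod v ∈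
      Fil g (m + ∑ i, (t i).deg + 1) := by
  have hGM : Good q M Γ := hG M Γ hM
  by_contra hu
  obtain ⟨φ, hφu, hφ⟩ := Submodule.exists_le_ker_of_notMem hu
  have hφ0 : ∀ w ∈ Fil g (m + ∑ i, (t i).deg + 1), φ w = 0 := fun w hw => hφ hw
  set γ : Fin n → Module.End K M := fun i => (t i).grp q g with hγ
  have hγΓ : ∀ i, γ i ∈ Γ := fun i => LM.grp_mem q hg (t i)
  have hc := coef_of_full hS hM γ hγΓ v φ (by
    intro l hl hall
    apply hφ0
    have h1 := perp_wd_EF hq hGM hg t l m v hv
    have h2 := perp_sum_lt (fun i => (t i).deg) (fun i => (t i).deg_pos) l hl hall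
    exact Fil_anti g (by omega) h1)
  have h0 := hf _ hc
  apply hφu
  rw [map_sum, ← h0]
  refine Finset.sum_congr rfl fun σ _ => ?_
  rw [map_smul, smul_eq_mul]
  congr 1
  have h3 := perp_diff hq hGM hg t (List.ofFn σ) m v hv
  have e1 : ((List.ofFn σ).map fun i => (t i).deg).sum = ∑ i, (t i).deg := by
    rw [List.map_ofFn, List.sum_ofFn]
    exact Equiv.sum_comp σ fun i => (t i).deg
  have e2 : ((List.ofFn σ).map fun i => (t i).op g) = List.ofFn fun i => (t (σ i)).op g := by
    rw [List.map_ofFn]; rfl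
  rw [e1, e2, ← add_assoc] at h3
  have h4 := hφ0 _ h3
  rw [LinearMap.sub_apply, map_sub, sub_eq_zero] at h4
  exact h4.symm

end H43.PV
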