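import Pool.Agent.H43.PV.UG

/-!
# Module PV-13a: the semidirect product of a pair in `PP P` is in `P`

Let `(M, Γ)` be a section of `T` in `P` by `(A, α)` (see `IsSec`), `U = UG Γ`, `v = vU Γ`,
`SD v = Multiplicative M ⋊ U` (`H89/ProP/Semi.lean`).  Let `R` be the subgroup of `T × T` of all
`(x, t)` such that `x t⁻¹ ∈ A` and for some `u ∈ U`: for all `a ∈ A` there is `a' ∈ A` with
`a' = t a t⁻¹` and `α a' = u (α a)`.  This `u` is unique as `α` is surjective.
(`R` is closed under products, and so under inverses, as `(x, t)⁻¹ = (x, t) ^ (q - 1)`, `Cls.exp` for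
`T × T`; `q > 0`.  Closed under products: `(x x') (t t')⁻¹ = (x t⁻¹) (t (x' t'⁻¹) t⁻¹)`.)
The map `R → SD v`, `(x, t) ↦ (α (x t⁻¹), u)` is a homomorphism (`u` chosen, by uniqueness) and it is
surjective: for `(m, u)` take `a ∈ A` with `α a = m` and `t` belonging to `u ∈ Γ`; the image of
`(a t, t)` is `(m, u)`.  So `P (SD v)` by `Cls.prod`, `FinVar.sub`, `FinVar.surj`
(`hP.toFinVar.surj`).
-/

set_option autoImplicit false

namespace H43.PV

variable {K : Type} [Field K] {p q : ℕ} {P : (G : Type) → [Group G] → Prop}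

open Multiplicative

theorem sd_mem (hq : 0 < q) (hP : Cls p q P) {M : Type} [AddCommGroup M] [Module K M]
    {Γ : Submonoid (Module.End K M)} (hM : PP P M Γ) : P (H89.ProP.SD (vU Γ)) := by
  classical
  obtain ⟨T, _, hT, A, α, hα, hΓ⟩ := hM
  -- `t` induces `u`
  let Ind : T → UG Γ → Prop := fun t u => ∀ a : A, ∃ a' : A, (a' : T) = t * a * t⁻¹ ∧
    (α a').toAdd = vU Γ u (α a).toAdd
  have hpow : ∀ γ ∈ Γ, γ ^ q = 1 := by
    intro γ hγ
    obtain ⟨t, ht⟩ := hΓ γ hγ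
    have h1 : ∀ (j : ℕ) (a : A), ∃ a' : A, (a' : T) = t ^ j * a * (t ^ j)⁻¹ ∧
        (α a').toAdd = (γ ^ j) (α a).toAdd := by
      intro j
      induction j with
      | zero => exact fun a => ⟨a, by simp, rfl⟩
      | succ j ih =>
        intro a
        obtain ⟨a1, h1, h2⟩ := ih a
        obtain ⟨a2, h3, h4⟩ := ht a1
        refine ⟨a2, ?_, ?_⟩
        · rw [h3, h1, pow_succ']
          group
        · rw [h4, h2, pow_succ']
          rfl
    ext m
    obtain ⟨a, ha⟩ := hα (ofAdd m)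
    obtain ⟨a', h2, h3⟩ := h1 q a
    rw [hP.exp T hT t] at h2
    have h4 : a' = a := Subtype.ext (by rw [h2]; simp)
    rw [h4, ha] at h3
    exact h3.symm
  have huniq : ∀ t u u', Ind t u → Ind t u' → u = u' := by
    intro t u u' h h'
    apply vU_injective
    ext m
    obtain ⟨a, ha⟩ := hα (ofAdd m)
    obtain ⟨b, hb1, hb2⟩ := h a
    obtain ⟨b', hb1', hb2'⟩ := h' a
    have h4 : b = b' := Subtype.ext (by rw [hb1, hb1'])
    rw [h4, hb2', ha] at hb2
    exact hb2.symm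
  have hone : Ind 1 1 := fun a => ⟨a, by simp, rfl⟩
  have hmul : ∀ t t' u u', Ind t u → Ind t' u' → Ind (t * t') (u * u') := by
    intro t t' u u' h h' a
    obtain ⟨b, hb1, hb2⟩ := h' a
    obtain ⟨c, hc1, hc2⟩ := h b
    refine ⟨c, ?_, ?_⟩
    · rw [hc1, hb1]
      group
    · rw [hc2, hb2, map_mul]
      rfl
  have hex : ∀ u : UG Γ, ∃ t, Ind t u := fun u => hΓ _ u.2.1
  -- the submonoid of `T × T`
  let R0 : Submonoid (T × T) :=
    { carrier := {x | x.1 * x.2⁻¹ ∈ A ∧ ∃ u, Ind x.2 u}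
      one_mem' := ⟨by simp [A.one_mem], 1, hone⟩
      mul_mem' := by
        rintro ⟨x, t⟩ ⟨x', t'⟩ ⟨h1, u, hu⟩ ⟨h2, u', hu'⟩
        refine ⟨?_, u * u', hmul _ _ _ _ hu hu'⟩
        obtain ⟨b, hb1, -⟩ := hu ⟨x' * t'⁻¹, h2⟩
        have h3 : x * x' * (t * t')⁻¹ = (x * t⁻¹) * (t * (x' * t'⁻¹) * t⁻¹) := by group
        change x * x' * (t * t')⁻¹ ∈ A
        rw [h3]
        refine A.mul_mem h1 ?_
        rw [← hb1]
        exact b.2 }
  let R : Subgroup (T × T) :=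
    { R0 with
      inv_mem' := by
        intro x hx
        have h1 : x⁻¹ = x ^ (q - 1) := by
          rw [inv_eq_iff_mul_eq_one, ← pow_succ', Nat.sub_add_cancel hq]
          exact Prod.ext (hP.exp T hT _) (hP.exp T hT _)
        change x⁻¹ ∈ R0
        rw [h1]
        exact R0.pow_mem hx _ }
  have hR : ∀ x : R, x.1.1 * x.1.2⁻¹ ∈ A ∧ ∃ u, Ind x.1.2 u := fun x => x.2
  choose hRA u hu using hR
  have hPR : P R := hP.sub _ (hP.prod _ _ hT hT) R
  let f : R →* H89.ProP.SD (vU Γ) :=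
    { toFun := fun x => ⟨α ⟨x.1.1 * x.1.2⁻¹, hRA x⟩, u x⟩
      map_one' := by
        have h1 : u 1 = 1 := huniq 1 _ _ (hu 1) hone
        have h2 : (⟨(1 : R).1.1 * (1 : R).1.2⁻¹, hRA 1⟩ : A) = 1 := Subtype.ext (by simp)
        rw [h1, h2, map_one]
        rfl
      map_mul' := by
        intro x y
        have h1 : u (x * y) = u x * u y :=
          huniq (x.1.2 * y.1.2) _ _ (hu (x * y)) (hmul _ _ _ _ (hu x) (hu y))
        obtain ⟨b, hb1, hb2⟩ := hu x ⟨y.1.1 * y.1.2⁻¹, hRA y⟩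
        have h2 : (⟨(x * y).1.1 * (x * y).1.2⁻¹, hRA (x * y)⟩ : A) =
            ⟨x.1.1 * x.1.2⁻¹, hRA x⟩ * b := by
          refine Subtype.ext ?_
          change x.1.1 * y.1.1 * (x.1.2 * y.1.2)⁻¹ = (x.1.1 * x.1.2⁻¹) * (b : T)
          rw [hb1]
          group
        refine SemidirectProduct.ext ?_ h1
        change α _ = α ⟨x.1.1 * x.1.2⁻¹, hRA x⟩ *
          ofAdd (vU Γ (u x) (α ⟨y.1.1 * y.1.2⁻¹, hRA y⟩).toAdd)
        rw [h2, map_mul, ← hb2]
        rfl }
  refine hP.toFinVar.surj hPR f ?_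
  intro z
  obtain ⟨a, ha⟩ := hα z.left
  obtain ⟨t, ht⟩ := hex z.right
  have hmem : ((a : T) * t, t) ∈ R := by
    refine ⟨?_, z.right, ht⟩
    change (a : T) * t * t⁻¹ ∈ A
    rw [mul_inv_cancel_right]
    exact a.2
  refine ⟨⟨((a : T) * t, t), hmem⟩, ?_⟩
  refine SemidirectProduct.ext ?_ ?_
  · change α _ = z.left
    rw [← ha]
    congr 1
    exact Subtype.ext (mul_inv_cancel_right _ _)
  · exact huniq t _ _ (hu ⟨((a : T) * t, t), hmem⟩) ht

end H43.PV
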