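import Pool.Agent.H43.PV.Defs
import Pool.Agent.H89.ProP.NilAct

/-!
# The semidirect product attached to a pair
-/

set_option autoImplicit false

namespace H43.PV

variable {K : Type} [Field K] {M : Type} [AddCommGroup M] [Module K M]

/-- the group of the units `u` of `End M` with `u, u⁻¹ ∈ Γ` -/
def UG (Γ : Submonoid (Module.End K M)) : Subgroup (Module.End K M)ˣ where
  carrier := {u | (u : Module.End K M) ∈ Γ ∧ ((u⁻¹ : (Module.End K M)ˣ) : Module.End K M) ∈ Γ}
  one_mem' := ⟨Γ.one_mem, by rw [inv_one]; exact Γ.one_mem⟩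
  mul_mem' := by
    rintro a b ⟨h1, h2⟩ ⟨h3, h4⟩
    refine ⟨Γ.mul_mem h1 h3, ?_⟩
    rw [mul_inv_rev]
    exact Γ.mul_mem h4 h2
  inv_mem' := by
    rintro a ⟨h1, h2⟩
    exact ⟨h2, by rw [inv_inv]; exact h1⟩

/-- its action on `M` -/
def vU (Γ : Submonoid (Module.End K M)) : UG Γ →* AddMonoid.End M where
  toFun u := ((u : (Module.End K M)ˣ) : Module.End K M).toAddMonoidHom
  map_one' := rfl
  map_mul' _ _ := rfl

theorem vU_apply (Γ : Submonoid (Module.End K M)) (u : UG Γ) (m : M) :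
    vU Γ u m = ((u : (Module.End K M)ˣ) : Module.End K M) m := rfl

theorem vU_injective (Γ : Submonoid (Module.End K M)) : Function.Injective (vU Γ) := by
  intro u u' h
  apply Subtype.ext
  apply Units.ext
  ext m
  exact DFunLike.congr_fun h m

/-- every element of `Γ` is a unit in `UG Γ` if `γ ^ q = 1` -/
theorem exists_UG {q : ℕ} (hq : 0 < q) {Γ : Submonoid (Module.End K M)}
    (h : ∀ γ ∈ Γ, γ ^ q = 1) (γ : Module.End K M) (hγ : γ ∈ Γ) :
    ∃ u : UG Γ, ((u : (Module.End K M)ˣ) : Module.End K M) = γ := by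
  obtain ⟨n, rfl⟩ : ∃ n, q = n + 1 := ⟨q - 1, by omega⟩
  have h1 := h γ hγ
  exact ⟨⟨⟨γ, γ ^ n, by rw [← pow_succ', h1], by rw [← pow_succ, h1]⟩, hγ, Γ.pow_mem hγ n⟩, rfl⟩

end H43.PV
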